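import Mathlib
import Pool.Agent.Helper54.Taut.Defs

/-!
MP_106964_gt, module H-C: two computations of Betti numbers.
-/

set_option autoImplicit false

open Set Filter MeasureTheory Module Topology
open scoped ContDiff RealInnerProductSpace Cardinal

namespace Pool.Agent.Helper54.Taut

open CategoryTheory Limits AlgebraicTopology

/-- the rank of an object of `ModuleCat` only depends on its isomorphism class -/
theorem rank_eq_of_iso {F : Type} [Field F] {A B : ModuleCat.{0} F} (e : A ≅ B) :
    Module.rank F A = Module.rank F B :=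
  LinearEquiv.rank_eq e.toLinearEquiv

theorem betti_zero_of_pathConnected (F : Type) [Field F] (X : Type) [TopologicalSpace X]
    [PathConnectedSpace X] : betti F X 0 = 1 := by
  have : PathConnectedSpace (TopCat.of X) := inferInstanceAs (PathConnectedSpace X)
  have e := asIso (TopCat.singularHomology₀ε (TopCat.of X) (ModuleCat.of F F))
  have h := rank_eq_of_iso e
  unfold betti
  rw [h]
  exact Module.rank_self F

/-- the singular chain complexes of `X` and of `ℤ` have the same homology when `X` deforms onto a
section of `f : X → ℤ` -/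
theorem betti_eq_int (F : Type) [Field F] (X : Type) [TopologicalSpace X] (f : C(X, ℤ))
    (g : ℤ → X) (hfg : ∀ n, f (g n) = n) (H : C(unitInterval × X, X)) (H0 : ∀ x, H (0, x) = x)
    (H1 : ∀ x, H (1, x) = g (f x)) (k : ℕ) : betti F X k = betti F ℤ k := by
  let g' : C(ℤ, X) := ⟨g, continuous_of_discreteTopology⟩
  let ff : TopCat.of X ⟶ TopCat.of ℤ := TopCat.ofHom f
  let gg : TopCat.of ℤ ⟶ TopCat.of X := TopCat.ofHom g'
  let hH : TopCat.Homotopy (𝟙 (TopCat.of X)) (ff ≫ gg) :=
    { toFun := fun z => H z
      continuous_toFun := H.continuous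
      map_zero_left := fun x => H0 x
      map_one_left := fun x => H1 x }
  have h1 : gg ≫ ff = 𝟙 (TopCat.of ℤ) := by
    ext n
    exact hfg n
  have h2 := hH.congr_homologyMap_singularChainComplexFunctor (ModuleCat.of F F) k
  let T := (singularHomologyFunctor (ModuleCat.{0} F) k).obj (ModuleCat.of F F)
  have h3 : T.map (𝟙 (TopCat.of X)) = T.map (ff ≫ gg) := h2
  have e : T.obj (TopCat.of X) ≅ T.obj (TopCat.of ℤ) :=
    { hom := T.map ff
      inv := T.map gg
      hom_inv_id := by rw [← T.map_comp, ← h3, T.map_id]
      inv_hom_id := by rw [← T.map_comp, h1, T.map_id] }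
  exact rank_eq_of_iso e

theorem betti_of_discrete (F : Type) [Field F] (X : Type) [TopologicalSpace X] (f : C(X, ℤ))
    (g : ℤ → X) (hfg : ∀ n, f (g n) = n) (H : C(unitInterval × X, X))
    (H0 : ∀ x, H (0, x) = x) (H1 : ∀ x, H (1, x) = g (f x)) :
    betti F X 0 = ℵ₀ ∧ ∀ k, k ≠ 0 → betti F X k = 0 := by
  have : TotallyDisconnectedSpace (TopCat.of ℤ) := inferInstanceAs (TotallyDisconnectedSpace ℤ)
  constructor
  · rw [betti_eq_int F X f g hfg H H0 H1 0]
    have e := singularHomologyFunctorZeroOfTotallyDisconnectedSpace (ModuleCat.{0} F)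
      (ModuleCat.of F F) (TopCat.of ℤ)
    have e2 := ModuleCat.coprodIsoDirectSum (R := F) (fun _ : TopCat.of ℤ => ModuleCat.of F F)
    have h := rank_eq_of_iso (e ≪≫ e2)
    unfold betti
    rw [h]
    have h5 : Module.rank F (DirectSum (TopCat.of ℤ) fun _ => ModuleCat.of F F) =
        Module.rank F (ℤ →₀ F) := by
      classical
      refine LinearEquiv.rank_eq ?_
      exact (finsuppLequivDFinsupp (M := F) (ι := ℤ) F).symm
    refine h5.trans ?_
    rw [rank_finsupp_self]
    simp
  · intro k hk
    rw [betti_eq_int F X f g hfg H H0 H1 k]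
    have h := isZero_singularHomologyFunctor_of_totallyDisconnectedSpace (ModuleCat.{0} F) k
      (ModuleCat.of F F) (TopCat.of ℤ) hk
    have h2 : Subsingleton (((singularHomologyFunctor (ModuleCat.{0} F) k).obj
      (ModuleCat.of F F)).obj (TopCat.of ℤ)) := ModuleCat.subsingleton_of_isZero h
    unfold betti
    exact rank_subsingleton' _ _

end Pool.Agent.Helper54.Taut
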