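import Pool.Agent.Helper85.XiSign3
import Pool.Agent.Helper67.XiTail
import Pool.Agent.Helper67.XiInterp

/-! Signs of the cosine transform of the kernel at the zeros of `cos (R z)`. -/

open Real Set MeasureTheory

namespace Pool.Agent.Helper85.XiSign

open Pool.Agent.Helper67.Xi

theorem trm_zero_eq (t : ℝ) : trm 0 t = f0 t := by
  rw [trm, f0, ew, sub_eq_add_neg t, exp_add, Yf]
  have h9 : exp (9 * t) = exp t * exp (4 * t) ^ 2 := by
    rw [← exp_nat_mul, ← exp_add]; push_cast; ring_nf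
  have h5 : exp (5 * t) = exp t * exp (4 * t) := by rw [← exp_add]; ring_nf
  rw [h9, h5]
  simp only [Nat.cast_zero, zero_add, one_pow, mul_one]
  ring

/-- derivative of a summand -/
noncomputable def dtrm (n : ℕ) (t : ℝ) : ℝ :=
  π * ((n : ℝ) + 1) ^ 2 * exp (5 * t) * exp (-(π * ((n : ℝ) + 1) ^ 2 * exp (4 * t))) *
      (-8 * (π * ((n : ℝ) + 1) ^ 2 * exp (4 * t)) ^ 2 +
        30 * (π * ((n : ℝ) + 1) ^ 2 * exp (4 * t)) - 15)

theorem dtrm_cont (n : ℕ) : Continuous (dtrm n) := by unfold dtrm; fun_prop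

theorem dtrm_nonpos (n : ℕ) (hn : 1 ≤ n) {t : ℝ} (ht : 0 ≤ t) : dtrm n t ≤ 0 := by
  rw [dtrm]
  have h1 := one_le_exp4 ht
  have hn' : (1 : ℝ) ≤ n := by exact_mod_cast hn
  have h2 : (4 : ℝ) ≤ ((n : ℝ) + 1) ^ 2 := by nlinarith
  have h3 : (12 : ℝ) ≤ π * ((n : ℝ) + 1) ^ 2 * exp (4 * t) := by
    have : (12 : ℝ) ≤ π * ((n : ℝ) + 1) ^ 2 := by nlinarith [pi_gt_three]
    nlinarith
  have h4 : -8 * (π * ((n : ℝ) + 1) ^ 2 * exp (4 * t)) ^ 2 +
      30 * (π * ((n : ℝ) + 1) ^ 2 * exp (4 * t)) - 15 ≤ 0 := by nlinarith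
  apply mul_nonpos_of_nonneg_of_nonpos
  · have := pi_pos; positivity
  · exact h4

theorem trm_cos_le (n : ℕ) (hn : 1 ≤ n) {z R : ℝ} (hz : 0 < z) (hR : 0 ≤ R) :
    |∫ t in (0 : ℝ)..R, trm n t * cos (z * t)| ≤ trm n 0 / z := by
  have hz' : z ≠ 0 := hz.ne'
  have hd : ∀ t ∈ uIcc 0 R, HasDerivAt (fun t => trm n t * sin (z * t) / z)
      (trm n t * cos (z * t) + dtrm n t * sin (z * t) / z) t := by
    intro t _
    have hl : HasDerivAt (fun t : ℝ => z * t) z t := by
      simpa using (hasDerivAt_id t).const_mul z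
    have h := (((trm_hasDerivAt n t).mul hl.sin).div_const z)
    refine h.congr_deriv ?_
    rw [dtrm]
    field_simp
    ring
  have hi1 : IntervalIntegrable (fun t => trm n t * cos (z * t)) volume 0 R := by
    apply Continuous.intervalIntegrable
    have := trm_continuous n; fun_prop
  have hi2 : IntervalIntegrable (fun t => dtrm n t * sin (z * t) / z) volume 0 R := by
    apply Continuous.intervalIntegrable
    have := dtrm_cont n; fun_prop
  have h := intervalIntegral.integral_eq_sub_of_hasDerivAt hd (hi1.add hi2)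
  rw [intervalIntegral.integral_add hi1 hi2, intervalIntegral.integral_div] at h
  simp only [mul_zero, sin_zero, zero_div, sub_zero] at h
  have h3 : ∫ t in (0 : ℝ)..R, trm n t * cos (z * t) =
      (trm n R * sin (z * R) - ∫ t in (0 : ℝ)..R, dtrm n t * sin (z * t)) / z := by
    rw [sub_div]; linarith
  have h4 : ∫ t in (0 : ℝ)..R, dtrm n t = trm n R - trm n 0 :=
    intervalIntegral.integral_eq_sub_of_hasDerivAt (fun t _ => trm_hasDerivAt n t)
      ((dtrm_cont n).intervalIntegrable _ _)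
  have h5 : |∫ t in (0 : ℝ)..R, dtrm n t * sin (z * t)| ≤ trm n 0 - trm n R := by
    have h6 := intervalIntegral.abs_integral_le_integral_abs (f := fun t => dtrm n t * sin (z * t))
      (μ := volume) hR
    refine h6.trans ?_
    have h7 : ∫ t in (0 : ℝ)..R, |dtrm n t * sin (z * t)| ≤ ∫ t in (0 : ℝ)..R, -dtrm n t := by
      apply intervalIntegral.integral_mono_on hR
      · apply Continuous.intervalIntegrable
        have := dtrm_cont n; fun_prop
      · exact ((dtrm_cont n).neg).intervalIntegrable _ _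
      · intro t ht
        rw [abs_mul, abs_of_nonpos (dtrm_nonpos n hn ht.1)]
        have h8 := abs_sin_le_one (z * t)
        have h9 : 0 ≤ -dtrm n t := by linarith [dtrm_nonpos n hn ht.1]
        nlinarith
    rw [intervalIntegral.integral_neg, h4] at h7
    linarith
  rw [h3, abs_div, abs_of_pos hz]
  have h6 : |trm n R * sin (z * R) - ∫ t in (0 : ℝ)..R, dtrm n t * sin (z * t)| ≤ trm n 0 := by
    have h7 := abs_sub (trm n R * sin (z * R)) (∫ t in (0 : ℝ)..R, dtrm n t * sin (z * t))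
    have h8 : |trm n R * sin (z * R)| ≤ trm n R := by
      rw [abs_mul, abs_of_nonneg (trm_nonneg n hR)]
      have h8 := abs_sin_le_one (z * R)
      have h9 := trm_nonneg n hR
      nlinarith
    linarith
  gcongr

theorem Psi_cos_le {z R : ℝ} (hz : 0 < z) (hR : 0 ≤ R) :
    |∫ t in (0 : ℝ)..R, Psi t * cos (z * t)| ≤ 98 / 10 ^ 5 / z := by
  have hs : HasSum (fun n : ℕ => ∫ t in (0 : ℝ)..R, trm (n + 1) t * cos (z * t))
      (∫ t in (0 : ℝ)..R, Psi t * cos (z * t)) := by
    apply intervalIntegral.hasSum_integral_of_dominated_convergence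
      (fun n _ => cf (n + 1) * (exp (9 * R) * 1))
    · intro n
      apply Continuous.aestronglyMeasurable
      have := trm_continuous (n + 1); fun_prop
    · intro n
      refine Filter.Eventually.of_forall fun t ht => ?_
      rw [uIoc_of_le hR] at ht
      have h0 : 0 ≤ t := ht.1.le
      rw [norm_mul, Real.norm_eq_abs, Real.norm_eq_abs, abs_of_nonneg (trm_nonneg _ h0)]
      have h1 := trm_le (n + 1) h0
      have h2 : exp (-(π * exp (4 * t))) ≤ 1 := by
        apply exp_le_one_iff.2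
        have := pi_pos
        have := exp_pos (4 * t)
        nlinarith
      have h3 : exp (9 * t) ≤ exp (9 * R) := exp_le_exp.2 (by linarith [ht.2])
      have h4 : cf (n + 1) * (exp (9 * t) * exp (-(π * exp (4 * t)))) ≤
          cf (n + 1) * (exp (9 * R) * 1) := by
        have := cf_nonneg (n + 1)
        gcongr
      have h5 := abs_cos_le_one (z * t)
      have h6 := trm_nonneg (n + 1) h0
      have h7 := abs_nonneg (cos (z * t))
      nlinarith
    · refine Filter.Eventually.of_forall fun t _ => ?_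
      exact ((summable_nat_add_iff 1).2 summable_cf).mul_right _
    · exact continuous_const.intervalIntegrable _ _
    · refine Filter.Eventually.of_forall fun t ht => ?_
      rw [uIoc_of_le hR] at ht
      exact (summable_trm1 ht.1.le).hasSum.mul_right _
  have h0 : Summable (fun n : ℕ => trm (n + 1) 0 / z) := (summable_trm1 le_rfl).div_const z
  have hle : ∀ n : ℕ, ‖∫ t in (0 : ℝ)..R, trm (n + 1) t * cos (z * t)‖ ≤ trm (n + 1) 0 / z :=
    fun n => trm_cos_le (n + 1) (by omega) hz hR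
  have hn : Summable (fun n : ℕ => ‖∫ t in (0 : ℝ)..R, trm (n + 1) t * cos (z * t)‖) :=
    Summable.of_nonneg_of_le (fun _ => norm_nonneg _) hle h0
  rw [← hs.tsum_eq]
  have h1 := norm_tsum_le_tsum_norm hn
  rw [Real.norm_eq_abs] at h1
  refine h1.trans ((hn.tsum_le_tsum hle h0).trans ?_)
  rw [tsum_div_const]
  have h2 : ∑' n : ℕ, trm (n + 1) 0 ≤ 98 / 10 ^ 5 := Psi_le le_rfl
  gcongr

/-- the main estimate -/
theorem main_est {z R : ℝ} (hz : 0 < z) (hR : 0 < R) (hRT : R ≤ TT) (hc : cos (z * R) = 0) :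
    f0 R - 18 / z ^ 2 - 4 / 100 / z - 968 / z ^ 3 - 98 / 10 ^ 5 ≤
      sin (z * R) * (z * cosT Phi R z) := by
  have hs2 : sin (z * R) ^ 2 = 1 := by
    have := sin_sq_add_cos_sq (z * R); rw [hc] at this; linarith
  have hsa : |sin (z * R)| ≤ 1 := abs_sin_le_one _
  have hi0 : IntervalIntegrable (fun t => f0 t * cos (z * t)) volume 0 R := by
    apply Continuous.intervalIntegrable
    have := f0_cont; fun_prop
  have hiP : IntervalIntegrable (fun t => Psi t * cos (z * t)) volume 0 R := by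
    apply ContinuousOn.intervalIntegrable
    rw [uIcc_of_le hR.le]
    exact (Psi_continuousOn R).mul (by fun_prop)
  have hsplit : cosT Phi R z = (∫ t in (0 : ℝ)..R, f0 t * cos (z * t)) +
      ∫ t in (0 : ℝ)..R, Psi t * cos (z * t) := by
    rw [cosT, ← intervalIntegral.integral_add hi0 hiP]
    apply intervalIntegral.integral_congr
    intro t ht
    rw [uIcc_of_le hR.le] at ht
    simp only
    rw [Phi_split ht.1, trm_zero_eq]
    ring
  have hbp := by_parts hz hc
  have hP := Psi_cos_le hz hR.le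
  set I0 := ∫ t in (0 : ℝ)..R, f0 t * cos (z * t) with hI0
  set IP := ∫ t in (0 : ℝ)..R, Psi t * cos (z * t) with hIP
  set I4 := ∫ t in (0 : ℝ)..R, f4 t * cos (z * t) with hI4
  set s := sin (z * R) with hs
  have hI4b : |I4| ≤ ∫ t in (0 : ℝ)..R, |f4 t| := by
    have h6 := intervalIntegral.abs_integral_le_integral_abs (f := fun t => f4 t * cos (z * t))
      (μ := volume) hR.le
    refine h6.trans ?_
    apply intervalIntegral.integral_mono_on hR.le
    · apply Continuous.intervalIntegrable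
      have := f4_cont; fun_prop
    · exact f4_cont.abs.intervalIntegrable _ _
    · intro t _
      rw [abs_mul]
      have h8 := abs_cos_le_one (z * t)
      have h9 := abs_nonneg (f4 t)
      nlinarith
  have hV := V_le hR.le hRT
  have hf2 := f2_le hR.le hRT
  have hf1 := f1_zero
  have e1 : s * (z * cosT Phi R z) = (f0 R - f2 R / z ^ 2) - s * f1 0 / z + s * f3 0 / z ^ 3
      + s * I4 / z ^ 3 + s * (z * IP) := by
    rw [hsplit, mul_add, hbp]
    linear_combination (f0 R - f2 R / z ^ 2) * hs2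
  rw [e1]
  have b1 : f2 R / z ^ 2 ≤ 18 / z ^ 2 := by gcongr
  have b2 : s * f1 0 / z ≤ 4 / 100 / z := by
    have : s * f1 0 ≤ 4 / 100 := by
      calc s * f1 0 ≤ |s * f1 0| := le_abs_self _
        _ = |s| * |f1 0| := abs_mul _ _
        _ ≤ 1 * (4 / 100) := by gcongr
        _ = 4 / 100 := by norm_num
    gcongr
  have b3 : -(968 / z ^ 3) ≤ s * f3 0 / z ^ 3 + s * I4 / z ^ 3 := by
    rw [← add_div, ← neg_div]
    have : -968 ≤ s * f3 0 + s * I4 := by
      have h1 : |s * f3 0 + s * I4| ≤ 968 := by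
        rw [← mul_add, abs_mul]
        have h2 : |f3 0 + I4| ≤ 968 := (abs_add_le _ _).trans (by linarith)
        calc _ ≤ 1 * (968 : ℝ) := by gcongr
          _ = 968 := by norm_num
      exact (abs_le.1 h1).1
    gcongr
  have b4 : -(98 / 10 ^ 5) ≤ s * (z * IP) := by
    have h1 : |s * (z * IP)| ≤ 98 / 10 ^ 5 := by
      rw [abs_mul, abs_mul, abs_of_pos hz]
      have h2 : z * |IP| ≤ 98 / 10 ^ 5 := by
        calc z * |IP| ≤ z * (98 / 10 ^ 5 / z) := by gcongr
          _ = 98 / 10 ^ 5 := by field_simp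
      have h3 : 0 ≤ z * |IP| := by positivity
      nlinarith [abs_nonneg s]
    exact (abs_le.1 h1).1
  linarith

/-- numerical form: `w` is an upper bound for `1 / z` -/
theorem main_num {z R w c : ℝ} (hz : 0 < z) (hR : 0 < R) (hRT : R ≤ TT) (hc : cos (z * R) = 0)
    (hw : 1 ≤ w * z) (hf : c ≤ f0 R)
    (hn : 18 * w ^ 2 + 4 / 100 * w + 968 * w ^ 3 + 98 / 10 ^ 5 ≤ c) :
    0 ≤ sin (z * R) * (z * cosT Phi R z) := by
  refine le_trans ?_ (main_est hz hR hRT hc)
  have hw1 : 1 / z ≤ w := by rw [div_le_iff₀ hz]; exact hw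
  have h0 : 0 < 1 / z := by positivity
  have e2 : 18 / z ^ 2 ≤ 18 * w ^ 2 := by
    have : 18 / z ^ 2 = 18 * (1 / z) ^ 2 := by ring
    rw [this]; gcongr
  have e3 : 968 / z ^ 3 ≤ 968 * w ^ 3 := by
    have : 968 / z ^ 3 = 968 * (1 / z) ^ 3 := by ring
    rw [this]; gcongr
  have e1 : 4 / 100 / z ≤ 4 / 100 * w := by
    have : 4 / 100 / z = 4 / 100 * (1 / z) := by ring
    rw [this]; gcongr
  linarith

theorem zk_pos {R : ℝ} (hR : 0 < R) (k : ℕ) : 0 < zk R k := by
  rw [zk]
  have := pi_pos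
  have h : (0 : ℝ) ≤ ((k : ℤ) : ℝ) := by positivity
  positivity

theorem sign_gen {R : ℝ} (hR : 0 < R) (hRT : R ≤ TT) (k : ℕ) {w c : ℝ}
    (hw : 1 ≤ w * zk R k) (hf : c ≤ f0 R)
    (hn : 18 * w ^ 2 + 4 / 100 * w + 968 * w ^ 3 + 98 / 10 ^ 5 ≤ c) :
    0 ≤ (-1) ^ k * cosT Phi R (zk R k) := by
  have hz := zk_pos hR k
  have h := main_num hz hR hRT (cos_zk_mul hR k) hw hf hn
  rw [sin_zk_mul hR, zpow_natCast] at h
  have h2 : (-1) ^ k * (zk R k * cosT Phi R (zk R k)) =
      zk R k * ((-1) ^ k * cosT Phi R (zk R k)) := by ring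
  rw [h2] at h
  exact nonneg_of_mul_nonneg_right h hz

theorem w_ok {R B : ℝ} (hR : 0 < R) (hRB : R ≤ B) (k : ℕ) {a w : ℝ} (ha : a ≤ (k : ℝ) + 1 / 2)
    (ha0 : 0 < a) (hw : B ≤ w * (a * 3.1415)) : 1 ≤ w * zk R k := by
  have hpi := pi_gt_d4
  have hB : 0 < B := hR.trans_le hRB
  have hw0 : 0 < w := by
    by_contra h
    push Not at h
    have : w * (a * 3.1415) ≤ 0 := mul_nonpos_of_nonpos_of_nonneg h (by positivity)
    linarith
  rw [zk, mul_div_assoc', le_div_iff₀ hR, one_mul]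
  push_cast
  calc R ≤ B := hRB
    _ ≤ w * (a * 3.1415) := hw
    _ ≤ w * (((k : ℝ) + 1 / 2) * π) := by gcongr

theorem sign_zero (R : ℝ) (hR : 0 < R) : 0 < cosT Phi R (zk R 0) := by
  rw [cosT]
  apply intervalIntegral.intervalIntegral_pos_of_pos_on _ _ hR
  · apply ContinuousOn.intervalIntegrable
    rw [uIcc_of_le hR.le]
    exact (Phi_continuousOn R).mul (by fun_prop)
  · intro t ht
    apply mul_pos (Phi_pos ht.1.le)
    apply cos_pos_of_mem_Ioo
    have h1 : zk R 0 * t = π / 2 * (t / R) := by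
      rw [zk]; push_cast; field_simp; ring
    have h2 : t / R < 1 := by rw [div_lt_one hR]; exact ht.2
    have h3 : 0 < t / R := div_pos ht.1 hR
    have := pi_pos
    rw [h1]
    constructor
    · nlinarith
    · nlinarith

theorem sign_one (R : ℝ) (hR : 0 < R) (h : R ≤ 19 / 100) : cosT Phi R (zk R 1) ≤ 0 := by
  have hT : (19 / 100 : ℝ) ≤ TT := by rw [TT]; norm_num
  have hw := w_ok hR h 1 (a := 3 / 2) (w := 405 / 10000) (by norm_num) (by norm_num) (by norm_num)
  have hf : 98 / 1000 ≤ f0 R := f0_ge_right hR.le h _ f0_19 (by norm_num)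
  have := sign_gen hR (h.trans hT) 1 hw hf (by norm_num)
  rw [pow_one] at this
  have e : ((1 : ℕ) : ℤ) = 1 := rfl
  rw [e] at this
  linarith

theorem sign_two (R : ℝ) (hR : 0 < R) (h : R ≤ 23 / 100) : 0 ≤ cosT Phi R (zk R 2) := by
  have hT : (23 / 100 : ℝ) ≤ TT := by rw [TT]; norm_num
  have hw := w_ok hR h 2 (a := 5 / 2) (w := 295 / 10000) (by norm_num) (by norm_num) (by norm_num)
  have hf : 45 / 1000 ≤ f0 R := f0_ge_right hR.le h _ f0_23 (by norm_num)
  have := sign_gen hR (h.trans hT) 2 hw hf (by norm_num)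
  have e : ((2 : ℕ) : ℤ) = 2 := rfl
  rw [e] at this
  linarith

theorem sign_ge3 (R : ℝ) (hR : 0 < R) (h : R ≤ 2575 / 10000) (k : ℕ) (hk : 3 ≤ k) :
    0 ≤ (-1) ^ k * cosT Phi R (zk R k) := by
  have hk' : (3 : ℝ) ≤ k := by exact_mod_cast hk
  have hw := w_ok hR h k (a := 7 / 2) (w := 2342 / 100000) (by linarith) (by norm_num)
    (by norm_num)
  have hf : 245 / 10000 ≤ f0 R := f0_ge_right hR.le h _ f0_TT (by norm_num)
  exact sign_gen hR h k hw hf (by norm_num)

end Pool.Agent.Helper85.XiSign
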