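import Pool.Agent.Helper85.BPM.S1

/-!
# Multiplicative Poisson inequality with polynomial growth (MP_3dd6d4_an, helper85)
-/

set_option autoImplicit false

open MeasureTheory Complex FourierTransform Filter Topology
open scoped ENNReal NNReal ComplexConjugate

noncomputable section

namespace Helper85.BS

open Helper72.BA Helper85.BP Helper85.BP.P

theorem poisson_mul4 (θ : ℝ) (h0 : 0 < θ) (h1 : θ < 1) (H : ℂ → ℂ)
    (hc : ContinuousOn H {z : ℂ | 0 ≤ z.re ∧ z.re ≤ 1})
    (hd : DifferentiableOn ℂ H {z : ℂ | 0 < z.re ∧ z.re < 1})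
    (C : ℝ) (hb : ∀ z : ℂ, 0 ≤ z.re → z.re ≤ 1 → ‖H z‖ ≤ C * (1 + |z.im|) ^ 4) :
    ‖H θ‖ₑ ≤
      ((ENNReal.ofReal (1 - θ))⁻¹ * ∫⁻ τ : ℝ, ENNReal.ofReal (P0 θ τ) * ‖H (I * τ)‖ₑ) ^ (1 - θ) *
      ((ENNReal.ofReal θ)⁻¹ * ∫⁻ τ : ℝ, ENNReal.ofReal (P1 θ τ) * ‖H (1 + I * τ)‖ₑ) ^ θ := by
  obtain ⟨hc0, hc1, hp0, hp1, -, -, -⟩ := P_facts θ h0 h1
  obtain ⟨hi0, hi1⟩ := P_int θ h0 h1 4
  have h1θ : 0 < 1 - θ := by linarith
  have hC0 : 0 ≤ C := by
    have h := (norm_nonneg (H 0)).trans (hb 0 (by simp) (by simp))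
    simpa using h
  have hcomp : ∀ (F : ℂ → ℂ), ContinuousOn F {z : ℂ | 0 ≤ z.re ∧ z.re ≤ 1} → ∀ φ : ℝ → ℂ,
      Continuous φ → (∀ τ, (φ τ).re = 0 ∨ (φ τ).re = 1) → Continuous fun τ => F (φ τ) := by
    intro F hF φ hφ hre
    refine hF.comp_continuous hφ fun τ => ?_
    rw [Set.mem_ofPred_eq]
    rcases hre τ with h | h <;> rw [h] <;> norm_num
  have hcH0 : Continuous fun τ : ℝ => H (I * τ) :=
    hcomp H hc (fun τ => I * τ) (by fun_prop) (fun τ => Or.inl (by simp))
  have hcH1 : Continuous fun τ : ℝ => H (1 + I * τ) :=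
    hcomp H hc (fun τ => 1 + I * τ) (by fun_prop) (fun τ => Or.inr (by simp))
  have hI0 : Integrable fun τ : ℝ => P0 θ τ * ‖H (I * τ)‖ := by
    refine (hi0.mul_const C).mono' (hc0.mul hcH0.norm).aestronglyMeasurable
      (Filter.Eventually.of_forall fun τ => ?_)
    rw [Real.norm_eq_abs, abs_of_nonneg (mul_nonneg (hp0 τ).le (norm_nonneg _))]
    have h := mul_le_mul_of_nonneg_left (hb (I * τ) (by simp) (by simp)) (hp0 τ).le
    have e : |(I * (τ : ℂ)).im| = |τ| := by simp
    rw [e] at h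
    refine h.trans (le_of_eq ?_)
    ring
  have hI1 : Integrable fun τ : ℝ => P1 θ τ * ‖H (1 + I * τ)‖ := by
    refine (hi1.mul_const C).mono' (hc1.mul hcH1.norm).aestronglyMeasurable
      (Filter.Eventually.of_forall fun τ => ?_)
    rw [Real.norm_eq_abs, abs_of_nonneg (mul_nonneg (hp1 τ).le (norm_nonneg _))]
    have h := mul_le_mul_of_nonneg_left (hb (1 + I * τ) (by simp) (by simp)) (hp1 τ).le
    have e : |(1 + I * (τ : ℂ)).im| = |τ| := by simp
    rw [e] at h
    refine h.trans (le_of_eq ?_)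
    ring
  set A : ℝ := ∫ τ : ℝ, P0 θ τ * ‖H (I * τ)‖ with hA
  set B : ℝ := ∫ τ : ℝ, P1 θ τ * ‖H (1 + I * τ)‖ with hB
  have hA0 : 0 ≤ A := integral_nonneg fun τ => mul_nonneg (hp0 τ).le (norm_nonneg _)
  have hB0 : 0 ≤ B := integral_nonneg fun τ => mul_nonneg (hp1 τ).le (norm_nonneg _)
  -- the linear inequalities
  have hlin : ∀ l : ℝ, ‖H θ‖ ≤ Real.exp (-(l * θ)) * A + Real.exp (l * (1 - θ)) * B := by
    intro l
    set F : ℂ → ℂ := fun z => H z * cexp (l * (z - θ)) with hF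
    have hnexp : ∀ z : ℂ, ‖cexp ((l : ℂ) * (z - θ))‖ = Real.exp (l * (z.re - θ)) := by
      intro z
      rw [Complex.norm_exp, Complex.re_ofReal_mul, Complex.sub_re, Complex.ofReal_re]
    have hFb : ∀ z : ℂ, 0 ≤ z.re → z.re ≤ 1 → ‖F z‖ ≤ C * Real.exp |l| * (1 + |z.im|) ^ 4 := by
      intro z hz0 hz1
      rw [hF]
      simp only
      rw [norm_mul, hnexp]
      have h2 : Real.exp (l * (z.re - θ)) ≤ Real.exp |l| := by
        rw [Real.exp_le_exp]
        refine (le_abs_self _).trans ?_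
        rw [abs_mul]
        have h3 : |z.re - θ| ≤ 1 := abs_le.2 ⟨by linarith, by linarith⟩
        calc |l| * |z.re - θ| ≤ |l| * 1 := mul_le_mul_of_nonneg_left h3 (abs_nonneg l)
          _ = |l| := mul_one _
      calc ‖H z‖ * Real.exp (l * (z.re - θ)) ≤ C * (1 + |z.im|) ^ 4 * Real.exp |l| :=
            mul_le_mul (hb z hz0 hz1) h2 (Real.exp_pos _).le (by positivity)
        _ = _ := by ring
    have hP := poisson_formula θ h0 h1 F (hc.mul (by fun_prop)) (hd.mul (by fun_prop)) _ hFb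
    have hFθ : F θ = H θ := by
      rw [hF]
      simp
    rw [hFθ] at hP
    rw [hP]
    refine (norm_add_le _ _).trans (add_le_add ?_ ?_)
    · refine (norm_integral_le_integral_norm _).trans (le_of_eq ?_)
      rw [hA, ← integral_const_mul]
      congr 1
      funext τ
      rw [norm_mul, Complex.norm_real, Real.norm_eq_abs, abs_of_pos (hp0 τ), hF]
      simp only
      rw [norm_mul, hnexp]
      have : (I * (τ : ℂ)).re = 0 := by simp
      rw [this, show l * (0 - θ) = -(l * θ) by ring]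
      ring
    · refine (norm_integral_le_integral_norm _).trans (le_of_eq ?_)
      rw [hB, ← integral_const_mul]
      congr 1
      funext τ
      rw [norm_mul, Complex.norm_real, Real.norm_eq_abs, abs_of_pos (hp1 τ), hF]
      simp only
      rw [norm_mul, hnexp]
      have : (1 + I * (τ : ℂ)).re = 1 := by simp
      rw [this]
      ring
  -- optimisation
  set x : ℝ := A / (1 - θ) with hx
  set y : ℝ := B / θ with hy
  have hx0 : 0 ≤ x := by positivity
  have hy0 : 0 ≤ y := by positivity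
  have hAx : A = (1 - θ) * x := by
    rw [hx]
    field_simp
  have hBy : B = θ * y := by
    rw [hy]
    field_simp
  have hε : ∀ ε : ℝ, 0 < ε → ‖H θ‖ ≤ (x + ε) ^ (1 - θ) * (y + ε) ^ θ := by
    intro ε hε
    have hxe : 0 < x + ε := by linarith
    have hye : 0 < y + ε := by linarith
    have h2 := hlin (Real.log (x + ε) - Real.log (y + ε))
    have e1 : Real.exp (-((Real.log (x + ε) - Real.log (y + ε)) * θ)) =
        (x + ε) ^ (1 - θ) * (y + ε) ^ θ / (x + ε) := by
      rw [Real.rpow_def_of_pos hxe, Real.rpow_def_of_pos hye, ← Real.exp_add, eq_div_iff hxe.ne']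
      calc Real.exp (-((Real.log (x + ε) - Real.log (y + ε)) * θ)) * (x + ε)
          = Real.exp (-((Real.log (x + ε) - Real.log (y + ε)) * θ)) *
            Real.exp (Real.log (x + ε)) := by rw [Real.exp_log hxe]
        _ = _ := by
          rw [← Real.exp_add]
          congr 1
          ring
    have e2 : Real.exp ((Real.log (x + ε) - Real.log (y + ε)) * (1 - θ)) =
        (x + ε) ^ (1 - θ) * (y + ε) ^ θ / (y + ε) := by
      rw [Real.rpow_def_of_pos hxe, Real.rpow_def_of_pos hye, ← Real.exp_add, eq_div_iff hye.ne']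
      calc Real.exp ((Real.log (x + ε) - Real.log (y + ε)) * (1 - θ)) * (y + ε)
          = Real.exp ((Real.log (x + ε) - Real.log (y + ε)) * (1 - θ)) *
            Real.exp (Real.log (y + ε)) := by rw [Real.exp_log hye]
        _ = _ := by
          rw [← Real.exp_add]
          congr 1
          ring
    rw [e1, e2, hAx, hBy] at h2
    refine h2.trans ?_
    set D : ℝ := (x + ε) ^ (1 - θ) * (y + ε) ^ θ with hD
    have hD0 : 0 ≤ D := by positivity
    have h3 : D / (x + ε) * ((1 - θ) * x) ≤ D * (1 - θ) := by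
      rw [div_mul_eq_mul_div, div_le_iff₀ hxe]
      have : (1 - θ) * x ≤ (1 - θ) * (x + ε) := by gcongr; linarith
      calc D * ((1 - θ) * x) ≤ D * ((1 - θ) * (x + ε)) := by gcongr
        _ = D * (1 - θ) * (x + ε) := by ring
    have h4 : D / (y + ε) * (θ * y) ≤ D * θ := by
      rw [div_mul_eq_mul_div, div_le_iff₀ hye]
      have : θ * y ≤ θ * (y + ε) := by gcongr; linarith
      calc D * (θ * y) ≤ D * (θ * (y + ε)) := by gcongr
        _ = D * θ * (y + ε) := by ring
    calc D / (x + ε) * ((1 - θ) * x) + D / (y + ε) * (θ * y) ≤ D * (1 - θ) + D * θ :=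
          add_le_add h3 h4
      _ = D := by ring
  have hfin : ‖H θ‖ ≤ x ^ (1 - θ) * y ^ θ := by
    have hlim : Tendsto (fun ε : ℝ => (x + ε) ^ (1 - θ) * (y + ε) ^ θ) (𝓝[>] 0)
        (𝓝 (x ^ (1 - θ) * y ^ θ)) := by
      have hcx : Continuous fun ε : ℝ => (x + ε) ^ (1 - θ) * (y + ε) ^ θ := by
        apply Continuous.mul
        · exact Continuous.rpow_const (by fun_prop) fun _ => Or.inr h1θ.le
        · exact Continuous.rpow_const (by fun_prop) fun _ => Or.inr h0.le
      have h5 := hcx.tendsto 0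
      simp only [add_zero] at h5
      exact h5.mono_left nhdsWithin_le_nhds
    refine ge_of_tendsto hlim ?_
    filter_upwards [self_mem_nhdsWithin] with ε hεm
    exact hε ε hεm
  -- conversion
  have eA : ∫⁻ τ : ℝ, ENNReal.ofReal (P0 θ τ) * ‖H (I * τ)‖ₑ = ENNReal.ofReal A := by
    rw [hA, ofReal_integral_eq_lintegral_ofReal hI0
      (Filter.Eventually.of_forall fun τ => mul_nonneg (hp0 τ).le (norm_nonneg _))]
    congr 1
    funext τ
    rw [ENNReal.ofReal_mul (hp0 τ).le, ofReal_norm]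
  have eB : ∫⁻ τ : ℝ, ENNReal.ofReal (P1 θ τ) * ‖H (1 + I * τ)‖ₑ = ENNReal.ofReal B := by
    rw [hB, ofReal_integral_eq_lintegral_ofReal hI1
      (Filter.Eventually.of_forall fun τ => mul_nonneg (hp1 τ).le (norm_nonneg _))]
    congr 1
    funext τ
    rw [ENNReal.ofReal_mul (hp1 τ).le, ofReal_norm]
  rw [eA, eB, ← ENNReal.ofReal_inv_of_pos h1θ, ← ENNReal.ofReal_inv_of_pos h0,
    ← ENNReal.ofReal_mul (by positivity), ← ENNReal.ofReal_mul (by positivity),
    ENNReal.ofReal_rpow_of_nonneg (by positivity) h1θ.le,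
    ENNReal.ofReal_rpow_of_nonneg (by positivity) h0.le, ← ENNReal.ofReal_mul (by positivity),
    ← ofReal_norm]
  apply ENNReal.ofReal_le_ofReal
  rw [inv_mul_eq_div, inv_mul_eq_div]
  exact hfin

end Helper85.BS
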