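import Pool.Agent.Helper85.BPM.W2
import Pool.Agent.Helper85.BPM.W3

/-!
# Weights `P_j |G|^(-2)` (sharp constants for real exponents, MP_3dd6d4_an, helper85)
-/

set_option autoImplicit false

open MeasureTheory Complex FourierTransform Filter Topology
open scoped ENNReal NNReal ComplexConjugate

noncomputable section

namespace Helper85.BS

open Helper72.BA Helper85.BP Helper85.BP.P

/-- modulus of the Gamma factor on a line -/
def gl (K : ℕ) (β τ : ℝ) : ℝ := ‖Gx (((1 / K : ℝ) : ℂ) + I * ((β * τ / K : ℝ) : ℂ))‖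

/-- `|Γ(a+ict)|² / |Γ(b+ict)|²` -/
def rat (a b c t : ℝ) : ℝ := ‖Complex.Gamma ((a : ℂ) + I * ((c * t : ℝ) : ℂ))‖ ^ 2 /
  ‖Complex.Gamma ((b : ℂ) + I * ((c * t : ℝ) : ℂ))‖ ^ 2

/-! ### the ratio is positive definite -/

/-- beta density -/
def bd (u v x : ℝ) : ℝ := |x| ^ (u - 1) * |1 - x| ^ (v - 1)

theorem bd_int (u v : ℝ) (hu : 0 < u) (hv : 0 < v) :
    Integrable (bd u v) (volume.restrict (Set.Ioc (0 : ℝ) 1)) := by
  have h1 := betaIntegral_convergent (u := (u : ℂ)) (v := (v : ℂ)) (by simpa using hu)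
    (by simpa using hv)
  rw [intervalIntegrable_iff_integrableOn_Ioc_of_le zero_le_one] at h1
  refine (h1.norm).congr ?_
  have hne : ∀ᵐ x : ℝ ∂(volume.restrict (Set.Ioc (0 : ℝ) 1)), x ∈ Set.Ioc (0 : ℝ) 1 :=
    ae_restrict_mem measurableSet_Ioc
  have hne1 : ∀ᵐ x : ℝ ∂(volume.restrict (Set.Ioc (0 : ℝ) 1)), x ≠ 1 :=
    ae_restrict_of_ae (Measure.ae_ne volume 1)
  filter_upwards [hne, hne1] with x hx hx1
  have hx0 : 0 < x := hx.1
  have hx2 : 0 < 1 - x := by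
    have := lt_of_le_of_ne hx.2 hx1
    linarith
  unfold bd
  rw [abs_of_pos hx0, abs_of_pos hx2, norm_mul]
  rw [Complex.norm_cpow_eq_rpow_re_of_pos hx0,
    show (1 : ℂ) - (x : ℂ) = ((1 - x : ℝ) : ℂ) by push_cast; ring,
    Complex.norm_cpow_eq_rpow_re_of_pos hx2]
  simp

theorem bd_val (u v y : ℝ) (hu : 0 < u) (hv : 0 < v) :
    ∫ x, (bd u v x : ℂ) * Complex.exp (I * ((y * Real.log x : ℝ) : ℂ))
        ∂(volume.restrict (Set.Ioc (0 : ℝ) 1)) =
      Complex.Gamma ((u : ℂ) + I * (y : ℂ)) * Complex.Gamma (v : ℂ) /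
        Complex.Gamma (((u + v : ℝ) : ℂ) + I * (y : ℂ)) := by
  have hre1 : 0 < ((u : ℂ) + I * (y : ℂ)).re := by simpa using hu
  have hre2 : 0 < ((v : ℂ)).re := by simpa using hv
  have h1 := Gamma_mul_Gamma_eq_betaIntegral hre1 hre2
  have hne : Complex.Gamma (((u + v : ℝ) : ℂ) + I * (y : ℂ)) ≠ 0 := by
    apply Complex.Gamma_ne_zero_of_re_pos
    simp
    linarith
  have e0 : (u : ℂ) + I * (y : ℂ) + (v : ℂ) = ((u + v : ℝ) : ℂ) + I * (y : ℂ) := by
    push_cast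
    ring
  rw [e0] at h1
  rw [h1, mul_comm, mul_div_assoc, mul_comm, div_self hne, one_mul]
  unfold betaIntegral
  rw [intervalIntegral.integral_of_le zero_le_one]
  apply integral_congr_ae
  have hne : ∀ᵐ x : ℝ ∂(volume.restrict (Set.Ioc (0 : ℝ) 1)), x ∈ Set.Ioc (0 : ℝ) 1 :=
    ae_restrict_mem measurableSet_Ioc
  have hne1 : ∀ᵐ x : ℝ ∂(volume.restrict (Set.Ioc (0 : ℝ) 1)), x ≠ 1 :=
    ae_restrict_of_ae (Measure.ae_ne volume 1)
  filter_upwards [hne, hne1] with x hx hx1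
  have hx0 : 0 < x := hx.1
  have hx2 : 0 < 1 - x := by
    have := lt_of_le_of_ne hx.2 hx1
    linarith
  have hx0' : (x : ℂ) ≠ 0 := by exact_mod_cast hx0.ne'
  have hx2' : ((1 - x : ℝ) : ℂ) ≠ 0 := by exact_mod_cast hx2.ne'
  unfold bd
  rw [abs_of_pos hx0, abs_of_pos hx2, show (1 : ℂ) - (x : ℂ) = ((1 - x : ℝ) : ℂ) by push_cast; ring,
    Complex.cpow_def_of_ne_zero hx0', Complex.cpow_def_of_ne_zero hx2',
    Real.rpow_def_of_pos hx0, Real.rpow_def_of_pos hx2, ← Complex.ofReal_log hx0.le,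
    ← Complex.ofReal_log hx2.le]
  push_cast
  rw [← Complex.exp_add, ← Complex.exp_add, ← Complex.exp_add]
  congr 1
  ring

theorem PD_rat (a b c : ℝ) (ha : 0 < a) (hab : a < b) : PD (rat a b c) := by
  have hv : 0 < b - a := by linarith
  have hG : 0 < Real.Gamma (b - a) := Real.Gamma_pos_of_pos hv
  set μ : Measure ℝ := volume.restrict (Set.Ioc (0 : ℝ) 1) with hμ
  have hI := bd_int a (b - a) ha hv
  refine W1_density (μ.prod μ) (fun z => (bd a (b - a) z.1 * bd a (b - a) z.2) *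
    (Real.Gamma (b - a) ^ 2)⁻¹) (fun z => c * (Real.log z.1 - Real.log z.2)) ?_ ?_ ?_ ?_ ?_
  · exact (hI.mul_prod hI).mul_const _
  · intro z
    unfold bd
    positivity
  · unfold bd
    fun_prop
  · fun_prop
  · intro t
    have e1 : ∀ z : ℝ × ℝ, (((bd a (b - a) z.1 * bd a (b - a) z.2) *
        (Real.Gamma (b - a) ^ 2)⁻¹ : ℝ) : ℂ) *
        Complex.exp (I * ((t * (c * (Real.log z.1 - Real.log z.2)) : ℝ) : ℂ)) =
        ((bd a (b - a) z.1 : ℂ) * Complex.exp (I * ((c * t * Real.log z.1 : ℝ) : ℂ))) *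
        (((bd a (b - a) z.2 : ℂ) * Complex.exp (I * ((-(c * t) * Real.log z.2 : ℝ) : ℂ))) *
          ((Real.Gamma (b - a) ^ 2)⁻¹ : ℝ)) := by
      intro z
      have e2 : Complex.exp (I * ((t * (c * (Real.log z.1 - Real.log z.2)) : ℝ) : ℂ)) =
          Complex.exp (I * ((c * t * Real.log z.1 : ℝ) : ℂ)) *
          Complex.exp (I * ((-(c * t) * Real.log z.2 : ℝ) : ℂ)) := by
        rw [← Complex.exp_add]
        congr 1
        push_cast
        ring
      rw [e2]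
      push_cast
      ring
    simp_rw [e1]
    rw [integral_prod_mul (μ := μ) (ν := μ)
      (f := fun x => (bd a (b - a) x : ℂ) * Complex.exp (I * ((c * t * Real.log x : ℝ) : ℂ)))
      (g := fun x => ((bd a (b - a) x : ℂ) *
        Complex.exp (I * ((-(c * t) * Real.log x : ℝ) : ℂ))) * ((Real.Gamma (b - a) ^ 2)⁻¹ : ℝ)),
      integral_mul_const, hμ, bd_val a (b - a) (c * t) ha hv, bd_val a (b - a) (-(c * t)) ha hv]
    have e3 : (a : ℂ) + I * ((-(c * t) : ℝ) : ℂ) = conj ((a : ℂ) + I * ((c * t : ℝ) : ℂ)) := by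
      simp only [map_add, map_mul, Complex.conj_ofReal, Complex.conj_I]
      push_cast
      ring
    have e4 : ((a + (b - a) : ℝ) : ℂ) + I * ((-(c * t) : ℝ) : ℂ) =
        conj ((b : ℂ) + I * ((c * t : ℝ) : ℂ)) := by
      simp only [map_add, map_mul, Complex.conj_ofReal, Complex.conj_I]
      push_cast
      ring
    have e5 : ((a + (b - a) : ℝ) : ℂ) + I * ((c * t : ℝ) : ℂ) =
        (b : ℂ) + I * ((c * t : ℝ) : ℂ) := by
      push_cast
      ring
    rw [e3, e4, e5, Complex.Gamma_conj, Complex.Gamma_conj, Complex.Gamma_ofReal]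
    unfold rat
    have hne : Complex.Gamma ((b : ℂ) + I * ((c * t : ℝ) : ℂ)) ≠ 0 := by
      apply Complex.Gamma_ne_zero_of_re_pos
      simp
      linarith
    have hGc : (Real.Gamma (b - a) : ℂ) ≠ 0 := by exact_mod_cast hG.ne'
    have n1 : ((‖Complex.Gamma ((a : ℂ) + I * ((c * t : ℝ) : ℂ))‖ ^ 2 : ℝ) : ℂ) =
        Complex.Gamma ((a : ℂ) + I * ((c * t : ℝ) : ℂ)) *
        conj (Complex.Gamma ((a : ℂ) + I * ((c * t : ℝ) : ℂ))) := by
      rw [Complex.mul_conj, Complex.normSq_eq_norm_sq]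
    have n2 : ((‖Complex.Gamma ((b : ℂ) + I * ((c * t : ℝ) : ℂ))‖ ^ 2 : ℝ) : ℂ) =
        Complex.Gamma ((b : ℂ) + I * ((c * t : ℝ) : ℂ)) *
        conj (Complex.Gamma ((b : ℂ) + I * ((c * t : ℝ) : ℂ))) := by
      rw [Complex.mul_conj, Complex.normSq_eq_norm_sq]
    have hne' : conj (Complex.Gamma ((b : ℂ) + I * ((c * t : ℝ) : ℂ))) ≠ 0 := by
      simpa using hne
    rw [Complex.ofReal_div, n1, n2]
    push_cast
    field_simp

/-! ### elementary properties of the ratio -/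

theorem gam_ne (a y : ℝ) (ha : 0 < a) : Complex.Gamma ((a : ℂ) + I * (y : ℂ)) ≠ 0 := by
  apply Complex.Gamma_ne_zero_of_re_pos
  simpa using ha

theorem rat_pos (a b c t : ℝ) (ha : 0 < a) (hb : 0 < b) : 0 < rat a b c t := by
  unfold rat
  have h1 := norm_pos_iff.2 (gam_ne a (c * t) ha)
  have h2 := norm_pos_iff.2 (gam_ne b (c * t) hb)
  positivity

theorem gam_cont (a c : ℝ) (ha : 0 < a) :
    Continuous fun t : ℝ => ‖Complex.Gamma ((a : ℂ) + I * ((c * t : ℝ) : ℂ))‖ := by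
  rw [continuous_iff_continuousAt]
  intro t
  apply ContinuousAt.norm
  have h1 : ContinuousAt Complex.Gamma ((a : ℂ) + I * ((c * t : ℝ) : ℂ)) := by
    refine (Complex.differentiableAt_Gamma _ fun m h => ?_).continuousAt
    have := congrArg Complex.re h
    simp at this
    have hm : (0 : ℝ) ≤ m := Nat.cast_nonneg m
    linarith
  have h2 : ContinuousAt (fun t : ℝ => (a : ℂ) + I * ((c * t : ℝ) : ℂ)) t := by fun_prop
  exact ContinuousAt.comp (f := fun t : ℝ => (a : ℂ) + I * ((c * t : ℝ) : ℂ)) h1 h2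

theorem rat_cont (a b c : ℝ) (ha : 0 < a) (hb : 0 < b) : Continuous (rat a b c) := by
  unfold rat
  apply ((gam_cont a c ha).pow 2).div ((gam_cont b c hb).pow 2)
  intro t
  exact pow_ne_zero 2 (norm_ne_zero_iff.2 (gam_ne b (c * t) hb))

theorem rat_even (a b c t : ℝ) : rat a b c (-t) = rat a b c t := by
  unfold rat
  have h : ∀ x : ℝ, ‖Complex.Gamma ((x : ℂ) + I * ((c * -t : ℝ) : ℂ))‖ =
      ‖Complex.Gamma ((x : ℂ) + I * ((c * t : ℝ) : ℂ))‖ := by
    intro x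
    rw [← W2_norm_gamma_symm]
    congr 2
    push_cast
    ring
  rw [h, h]

theorem rat_le (a b c t : ℝ) (ha : 0 < a) (hab : a < b) : rat a b c t ≤ rat a b c 0 := by
  obtain ⟨m, hm, h⟩ := PD_rat a b c ha hab
  have hb : 0 < b := by linarith
  have h0 : (rat a b c 0 : ℂ) = ((m.real Set.univ : ℝ) : ℂ) := by
    rw [h 0]
    simp
  have h0' : rat a b c 0 = m.real Set.univ := by exact_mod_cast h0
  have h1 : ‖((rat a b c t : ℝ) : ℂ)‖ ≤ m.real Set.univ := by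
    rw [h t]
    have := norm_integral_le_of_norm_le_const (μ := m) (C := 1)
      (f := fun s : ℝ => Complex.exp (I * ((t * s : ℝ) : ℂ)))
      (Eventually.of_forall fun s => by rw [mul_comm I, Complex.norm_exp_ofReal_mul_I])
    simpa using this
  rw [Complex.norm_real, Real.norm_eq_abs, abs_of_pos (rat_pos a b c t ha hb)] at h1
  rw [h0']
  exact h1

/-! ### the Gamma factor on a line -/

theorem norm_add_I (x y : ℝ) : ‖(x : ℂ) + I * (y : ℂ)‖ ^ 2 = x ^ 2 + y ^ 2 := by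
  rw [← Complex.normSq_eq_norm_sq, Complex.normSq_apply]
  simp
  ring

theorem gl_formula (K : ℕ) (hK : 2 ≤ K) (β τ : ℝ) :
    (gl K β τ ^ 2)⁻¹ = ((1 / (2 * K : ℝ)) ^ 2 / Real.pi ^ 2) * ((1 + β ^ 2 * τ ^ 2) *
      rat (1 - 1 / (2 * K)) (1 + 1 / (2 * K)) (β / (2 * K)) τ) := by
  have hK' : (2 : ℝ) ≤ K := by exact_mod_cast hK
  set x : ℝ := 1 / (2 * K) with hx
  have hx0 : 0 < x := by positivity
  have hx1 : x ≤ 1 / 4 := by
    rw [hx]
    apply one_div_le_one_div_of_le (by norm_num)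
    linarith
  set y : ℝ := β / (2 * K) * τ with hy
  have e1 : (((1 / K : ℝ) : ℂ) + I * ((β * τ / K : ℝ) : ℂ)) / 2 = (x : ℂ) + I * (y : ℂ) := by
    rw [hx, hy]
    push_cast
    field_simp
  have e2 : 1 - (((1 / K : ℝ) : ℂ) + I * ((β * τ / K : ℝ) : ℂ)) / 2 =
      ((1 - x : ℝ) : ℂ) - I * (y : ℂ) := by
    rw [e1]
    push_cast
    ring
  have hne : (x : ℂ) + I * (y : ℂ) ≠ 0 := by
    intro h
    have := congrArg Complex.re h
    simp at this
    linarith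
  have e3 : Complex.Gamma ((x : ℂ) + I * (y : ℂ)) =
      Complex.Gamma (((1 + x : ℝ) : ℂ) + I * (y : ℂ)) / ((x : ℂ) + I * (y : ℂ)) := by
    rw [eq_div_iff hne, mul_comm, ← Complex.Gamma_add_one _ hne]
    congr 1
    push_cast
    ring
  unfold gl Gx rat
  rw [e2, e1, norm_div, norm_mul, e3, norm_div, W2_norm_gamma_symm, Complex.norm_real,
    Real.norm_eq_abs, abs_of_pos Real.pi_pos]
  have p1 := norm_pos_iff.2 (gam_ne (1 - x) y (by linarith))
  have p2 := norm_pos_iff.2 (gam_ne (1 + x) y (by linarith))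
  have p3 := norm_pos_iff.2 hne
  have hn := norm_add_I x y
  have hxy : x ^ 2 + y ^ 2 = x ^ 2 * (1 + β ^ 2 * τ ^ 2) := by
    rw [hx, hy]
    field_simp
  rw [show (β / (2 * (K : ℝ)) * τ) = y from rfl]
  rw [hxy] at hn
  have hpi := Real.pi_pos
  generalize ‖Complex.Gamma (((1 - x : ℝ) : ℂ) + I * (y : ℂ))‖ = A at *
  generalize ‖Complex.Gamma (((1 + x : ℝ) : ℂ) + I * (y : ℂ))‖ = B at *
  generalize ‖(x : ℂ) + I * (y : ℂ)‖ = N at *
  rw [div_pow, mul_pow, div_pow, hn]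
  have h1 : (0:ℝ) < 1 + β ^ 2 * τ ^ 2 := by positivity
  field_simp

/-! ### positivity -/

theorem PD_pair (κ a : ℝ) (ha : 0 < a) (hκ : a ≤ κ) :
    PD (fun t => (κ ^ 2 + t ^ 2) * (a ^ 2 + t ^ 2)⁻¹) := by
  have h := PD_add (PD_const 1 zero_le_one) (PD_smul (κ ^ 2 - a ^ 2) (by nlinarith) (PD_lorentz a ha))
  convert h using 2 with t
  have : (0:ℝ) < a ^ 2 + t ^ 2 := by positivity
  field_simp
  ring

theorem PD_cosh (θ : ℝ) (h0 : 0 < θ) (h1 : θ < 1) :
    PD (fun t => (1 + Real.cosh (Real.pi * t)) * (Real.cosh (Real.pi * t) +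
      Real.cos (Real.pi * θ))⁻¹) := by
  have hcos : 0 ≤ 1 - Real.cos (Real.pi * θ) := by
    have := Real.cos_le_one (Real.pi * θ)
    linarith
  have g2 := PD_gamma ((1 + θ) / 2) (1 / 2) (by linarith)
  have g3 := PD_gamma ((1 - θ) / 2) (1 / 2) (by linarith)
  have g4 := PD_smul ((1 - Real.cos (Real.pi * θ)) / (2 * Real.pi ^ 2)) (by positivity)
    (PD_mul g2 g3)
  have g5 := PD_add (PD_const 1 zero_le_one) g4
  convert g5 using 2 with t
  rw [W2_Q θ t h0 h1]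
  have hD := W2_den_pos θ t h0 h1
  have hpi := Real.pi_pos
  field_simp
  ring

/-- `(1 + t²)² / (1 + cosh π t)` -/
theorem PD_zero : PD (fun t => (1 + t ^ 2) ^ 2 * (1 + Real.cosh (Real.pi * t))⁻¹) := by
  have g1 := PD_gamma (3 / 2) (1 / 2) (by norm_num)
  have g2 := PD_smul (8 / Real.pi ^ 2) (by positivity) (PD_mul g1 g1)
  convert g2 using 2 with t
  rw [W2_threehalf (1 / 2 * t)]
  have hC := Real.cosh_pos (Real.pi * (1 / 2 * t))
  have hcc : Real.cosh (Real.pi * t) = 2 * Real.cosh (Real.pi * (1 / 2 * t)) ^ 2 - 1 := by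
    have h2 := Real.cosh_two_mul (Real.pi * (1 / 2 * t))
    have h3 := Real.cosh_sq (Real.pi * (1 / 2 * t))
    rw [show Real.pi * t = 2 * (Real.pi * (1 / 2 * t)) by ring, h2]
    linarith
  rw [hcc]
  have hpi := Real.pi_pos
  generalize Real.cosh (Real.pi * (1 / 2 * t)) = C at *
  have e : 1 + (2 * C ^ 2 - 1) = 2 * C ^ 2 := by ring
  rw [e]
  field_simp
  ring

theorem PD_weight (β : ℝ) (hβ : 0 < β) (hβ1 : β ≤ 1) (θ : ℝ) (h0 : 0 < θ) (h1 : θ < 1)
    (a b c : ℝ) (ha : 0 < a) (hab : a < b) :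
    PD (fun t => (1 + β ^ 2 * t ^ 2) ^ 2 * P1 θ t * rat a b c t) := by
  have hκ : 1 ≤ 1 / β := by rwa [le_div_iff₀ hβ, one_mul]
  have hs : 0 < Real.sin (Real.pi * θ) := by
    apply Real.sin_pos_of_pos_of_lt_pi
    · positivity
    · nlinarith [Real.pi_pos]
  have g1 := PD_pair (1 / β) 1 one_pos hκ
  have g := PD_smul (β ^ 4 * (Real.sin (Real.pi * θ) / 2)) (by positivity)
    (PD_mul (PD_mul (PD_mul (PD_mul g1 g1) PD_zero) (PD_cosh θ h0 h1)) (PD_rat a b c ha hab))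
  convert g using 2 with t
  have hD := W2_den_pos θ t h0 h1
  have hC : 0 < 1 + Real.cosh (Real.pi * t) := by
    have := Real.cosh_pos (Real.pi * t)
    linarith
  have ht : (0:ℝ) < 1 ^ 2 + t ^ 2 := by positivity
  unfold P1
  have e1 : (1:ℝ) ^ 2 + t ^ 2 = 1 + t ^ 2 := by ring
  rw [e1] at ht ⊢
  have e2 : (1 / β) ^ 2 + t ^ 2 = (1 + β ^ 2 * t ^ 2) / β ^ 2 := by field_simp
  rw [e2]
  field_simp

theorem P0_eq (θ t : ℝ) : P0 θ t = P1 (1 - θ) t := by
  unfold P0 P1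
  have e1 : Real.pi * (1 - θ) = Real.pi - Real.pi * θ := by ring
  rw [e1, Real.sin_pi_sub, Real.cos_pi_sub]
  rw [← sub_eq_add_neg]

/-- the weight on the line `Re z = 1` -/
theorem adm1 (K : ℕ) (hK : 2 ≤ K) (β : ℝ) (hβ : 0 < β) (hβ1 : β ≤ 1) (θ : ℝ) (h0 : 0 < θ)
    (h1 : θ < 1) : Adm β (fun τ => P1 θ τ * (gl K β τ ^ 2)⁻¹) := by
  obtain ⟨-, hc, -, hpos, -, heven, -⟩ := P_facts θ h0 h1
  have hK' : (2 : ℝ) ≤ K := by exact_mod_cast hK
  set x : ℝ := 1 / (2 * K) with hx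
  have hx0 : 0 < x := by positivity
  have hx1 : x ≤ 1 / 4 := by
    rw [hx]
    apply one_div_le_one_div_of_le (by norm_num)
    linarith
  set A : ℝ := x ^ 2 / Real.pi ^ 2 with hA
  have hA0 : 0 < A := by positivity
  have hf : ∀ τ, (gl K β τ ^ 2)⁻¹ = A * ((1 + β ^ 2 * τ ^ 2) * rat (1 - x) (1 + x) (β / (2 * K)) τ) :=
    fun τ => gl_formula K hK β τ
  have ha : 0 < 1 - x := by linarith
  have hab : 1 - x < 1 + x := by linarith
  have hrc := rat_cont (1 - x) (1 + x) (β / (2 * K)) ha (by linarith)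
  have hrp := fun t => rat_pos (1 - x) (1 + x) (β / (2 * K)) t ha (by linarith)
  simp only [hf]
  have hcont : Continuous (fun τ => P1 θ τ * (A * ((1 + β ^ 2 * τ ^ 2) *
      rat (1 - x) (1 + x) (β / (2 * K)) τ))) := by
    apply hc.mul
    apply continuous_const.mul
    exact (by fun_prop : Continuous fun τ : ℝ => 1 + β ^ 2 * τ ^ 2).mul hrc
  have hint : Integrable (fun τ => (1 + β ^ 2 * τ ^ 2) * (P1 θ τ * (A * ((1 + β ^ 2 * τ ^ 2) *
      rat (1 - x) (1 + x) (β / (2 * K)) τ)))) := by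
    set R : ℝ := rat (1 - x) (1 + x) (β / (2 * K)) 0 with hR
    have h2 := ((P_int θ h0 h1 4).2).const_mul (A * R)
    refine h2.mono' ?_ (Filter.Eventually.of_forall fun τ => ?_)
    · exact ((by fun_prop : Continuous fun τ : ℝ => 1 + β ^ 2 * τ ^ 2).mul hcont).aestronglyMeasurable
    · have h3 := (hpos τ).le
      have h4 := (hrp τ).le
      have h4' : rat (1 - x) (1 + x) (β / (2 * K)) τ ≤ R := rat_le _ _ _ _ ha hab
      rw [Real.norm_eq_abs, abs_of_nonneg (by positivity)]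
      have h5 : 1 + β ^ 2 * τ ^ 2 ≤ (1 + |τ|) ^ 2 := by
        have h6 := abs_nonneg τ
        have h7 : τ ^ 2 = |τ| ^ 2 := (sq_abs τ).symm
        have h8 : β ^ 2 ≤ 1 := by nlinarith
        rw [h7]
        nlinarith [mul_le_mul_of_nonneg_right h8 (sq_nonneg |τ|)]
      have h6 : 0 ≤ 1 + β ^ 2 * τ ^ 2 := by positivity
      calc (1 + β ^ 2 * τ ^ 2) * (P1 θ τ * (A * ((1 + β ^ 2 * τ ^ 2) *
            rat (1 - x) (1 + x) (β / (2 * K)) τ)))
          ≤ (1 + |τ|) ^ 2 * (P1 θ τ * (A * ((1 + |τ|) ^ 2 * R))) := by gcongr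
        _ = A * R * ((1 + |τ|) ^ 4 * P1 θ τ) := by ring
  constructor
  · exact hcont
  · intro τ
    have h3 := (hpos τ).le
    have h4 := (hrp τ).le
    positivity
  · intro τ
    simp only [heven τ, neg_sq, rat_even]
  · exact hint
  · intro s
    have g := PD_smul A hA0.le (PD_weight β hβ hβ1 θ h0 h1 (1 - x) (1 + x) (β / (2 * K)) ha hab)
    have hPD : PD (fun τ => (1 + β ^ 2 * τ ^ 2) * (P1 θ τ * (A * ((1 + β ^ 2 * τ ^ 2) *
        rat (1 - x) (1 + x) (β / (2 * K)) τ)))) := by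
      convert g using 2 with t
      ring
    have h2 := PD_integral_nonneg hPD hint (β * s)
    refine h2.trans (le_of_eq ?_)
    congr 1
    ext τ
    congr 2
    ring

/-- the weight on the line `Re z = 0` -/
theorem adm0 (K : ℕ) (hK : 2 ≤ K) (β : ℝ) (hβ : 0 < β) (hβ1 : β ≤ 1) (θ : ℝ) (h0 : 0 < θ)
    (h1 : θ < 1) : Adm β (fun τ => P0 θ τ * (gl K β τ ^ 2)⁻¹) := by
  simp only [P0_eq]
  exact adm1 K hK β hβ hβ1 (1 - θ) (by linarith) (by linarith)

end Helper85.BS
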