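import Pool.Agent.Helper85.BPM.K1
import Pool.Agent.Helper85.BS_W

/-!
# The function `1 / G(2/p(z))` on the strip (MP_3dd6d4_an, helper85)
-/

set_option autoImplicit false

open MeasureTheory Complex FourierTransform Filter Topology
open scoped ENNReal NNReal ComplexConjugate

noncomputable section

namespace Helper85.BS

open Helper72.BA Helper85.BP Helper85.BP.P

/-- the sharp constant -/
def Ap (p : ℝ) : ℝ := Real.Gamma (1 / p) / Real.Gamma (1 - 1 / p)

theorem Ap_pos (p : ℝ) (hp : 1 < p) : 0 < Ap p := by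
  unfold Ap
  have h1 : 1 / p < 1 := by rw [div_lt_one (by linarith)]; exact hp
  have h2 : 0 < 1 / p := by positivity
  exact div_pos (Real.Gamma_pos_of_pos h2) (Real.Gamma_pos_of_pos (by linarith))

theorem Gx_Ap (p : ℝ) (hp : 1 < p) : ‖Gx ((2 / p : ℝ) : ℂ)‖ = Real.pi * Ap p := by
  have h1 : 1 / p < 1 := by rw [div_lt_one (by linarith)]; exact hp
  have h2 : 0 < 1 / p := by positivity
  unfold Gx Ap
  have e1 : ((2 / p : ℝ) : ℂ) / 2 = ((1 / p : ℝ) : ℂ) := by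
    push_cast
    field_simp
  have e2 : (1 : ℂ) - ((1 / p : ℝ) : ℂ) = ((1 - 1 / p : ℝ) : ℂ) := by
    push_cast
    ring
  rw [e1, e2, Complex.Gamma_ofReal, Complex.Gamma_ofReal, norm_div, norm_mul, Complex.norm_real,
    Complex.norm_real, Complex.norm_real, Real.norm_eq_abs, Real.norm_eq_abs, Real.norm_eq_abs,
    abs_of_pos Real.pi_pos, abs_of_pos (Real.Gamma_pos_of_pos h2),
    abs_of_pos (Real.Gamma_pos_of_pos (by linarith : (0:ℝ) < 1 - 1 / p))]
  ring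

theorem Gx_inv_diff {a : ℂ} (h0 : 0 < a.re) (h2 : a.re < 2) :
    DifferentiableAt ℂ (fun a => (Gx a)⁻¹) a :=
  (Helper85.BP.P.Gx_diff h0 h2).inv (Helper85.BP.P.Gx_ne h0 h2)

theorem Gx_inv_formula (x y : ℝ) (hx : 0 < x) (hx1 : x < 1) :
    ‖(Gx (((2 * x : ℝ) : ℂ) + I * ((2 * y : ℝ) : ℂ)))⁻¹‖ ^ 2 =
      (x ^ 2 + y ^ 2) / Real.pi ^ 2 * rat (1 - x) (1 + x) 1 y := by
  have e1 : (((2 * x : ℝ) : ℂ) + I * ((2 * y : ℝ) : ℂ)) / 2 = (x : ℂ) + I * (y : ℂ) := by
    push_cast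
    ring
  have e2 : 1 - (((2 * x : ℝ) : ℂ) + I * ((2 * y : ℝ) : ℂ)) / 2 =
      ((1 - x : ℝ) : ℂ) - I * (y : ℂ) := by
    rw [e1]
    push_cast
    ring
  have hne : (x : ℂ) + I * (y : ℂ) ≠ 0 := by
    intro h
    have := congrArg Complex.re h
    simp at this
    linarith
  have e3 : Complex.Gamma ((x : ℂ) + I * (y : ℂ)) =
      Complex.Gamma (((1 + x : ℝ) : ℂ) + I * (y : ℂ)) / ((x : ℂ) + I * (y : ℂ)) := by
    rw [eq_div_iff hne, mul_comm, ← Complex.Gamma_add_one _ hne]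
    congr 1
    push_cast
    ring
  unfold Gx rat
  rw [e2, e1, norm_inv, norm_div, norm_mul, e3, norm_div, W2_norm_gamma_symm, Complex.norm_real,
    Real.norm_eq_abs, abs_of_pos Real.pi_pos, one_mul]
  have p1 := norm_pos_iff.2 (gam_ne (1 - x) y (by linarith))
  have p2 := norm_pos_iff.2 (gam_ne (1 + x) y (by linarith))
  have p3 := norm_pos_iff.2 hne
  have hn := norm_add_I x y
  have hpi := Real.pi_pos
  rw [← hn]
  generalize ‖Complex.Gamma (((1 - x : ℝ) : ℂ) + I * (y : ℂ))‖ = A at *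
  generalize ‖Complex.Gamma (((1 + x : ℝ) : ℂ) + I * (y : ℂ))‖ = B at *
  generalize ‖(x : ℂ) + I * (y : ℂ)‖ = N at *
  field_simp

theorem Gx_inv_bound (x0 : ℝ) (hx0 : 0 < x0) : ∃ C : ℝ, 0 < C ∧ ∀ a : ℂ, x0 ≤ a.re → a.re ≤ 1 →
    ‖(Gx a)⁻¹‖ ≤ C * (1 + |a.im|) := by
  -- bound of Γ(1-x)/Γ(1+x)
  obtain ⟨R, hR⟩ : ∃ R : ℝ, ∀ x ∈ Set.Icc (x0 / 2) (1 / 2 : ℝ), rat (1 - x) (1 + x) 1 0 ≤ R := by
    have hc : ContinuousOn (fun x : ℝ => rat (1 - x) (1 + x) 1 0) (Set.Icc (x0 / 2) (1 / 2 : ℝ)) := by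
      have e : ∀ x : ℝ, rat (1 - x) (1 + x) 1 0 = |Real.Gamma (1 - x)| ^ 2 / |Real.Gamma (1 + x)| ^ 2 := by
        intro x
        unfold rat
        simp only [mul_zero, Complex.ofReal_zero, add_zero, Complex.Gamma_ofReal, Complex.norm_real,
          Real.norm_eq_abs]
      simp only [e]
      have hG : ∀ s : ℝ, 0 < s → ContinuousAt Real.Gamma s := fun s hs =>
        (Real.differentiableAt_Gamma (fun m h => by
          have : (0:ℝ) ≤ m := Nat.cast_nonneg m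
          linarith)).continuousAt
      intro x hx
      apply ContinuousAt.continuousWithinAt
      have h1 : ContinuousAt (fun x : ℝ => Real.Gamma (1 - x)) x := by
        refine ContinuousAt.comp (f := fun x : ℝ => 1 - x) (g := Real.Gamma) (hG _ ?_) (by fun_prop)
        have := hx.2
        linarith
      have h2 : ContinuousAt (fun x : ℝ => Real.Gamma (1 + x)) x := by
        refine ContinuousAt.comp (f := fun x : ℝ => 1 + x) (g := Real.Gamma) (hG _ ?_) (by fun_prop)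
        have := hx.1
        linarith
      refine ((h1.abs).pow 2).div ((h2.abs).pow 2) ?_
      have : 0 < Real.Gamma (1 + x) := Real.Gamma_pos_of_pos (by linarith [hx.1])
      positivity
    rcases (Set.Icc (x0 / 2) (1 / 2 : ℝ)).eq_empty_or_nonempty with he | hne
    · exact ⟨0, fun x hx => by rw [he] at hx; exact absurd hx (Set.notMem_empty x)⟩
    · obtain ⟨x, -, hx⟩ := isCompact_Icc.exists_isMaxOn hne hc
      exact ⟨_, fun y hy => hx hy⟩
  refine ⟨Real.sqrt (|R| / Real.pi ^ 2) + 1, by positivity, fun a ha0 ha1 => ?_⟩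
  set x : ℝ := a.re / 2 with hx
  set y : ℝ := a.im / 2 with hy
  have hx00 : 0 < x := by rw [hx]; linarith
  have hx1 : x < 1 := by rw [hx]; linarith
  have ea : a = ((2 * x : ℝ) : ℂ) + I * ((2 * y : ℝ) : ℂ) := by
    rw [hx, hy]
    apply Complex.ext
    · simp
      ring
    · simp
      ring
  have h1 := Gx_inv_formula x y hx00 hx1
  rw [← ea] at h1
  have h2 : rat (1 - x) (1 + x) 1 y ≤ |R| :=
    (rat_le _ _ _ _ (by linarith) (by linarith)).trans
      ((hR x ⟨by rw [hx]; linarith, by rw [hx]; linarith⟩).trans (le_abs_self R))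
  have h2' := (rat_pos (1 - x) (1 + x) 1 y (by linarith) (by linarith)).le
  have h3 : x ^ 2 + y ^ 2 ≤ (1 + |a.im|) ^ 2 := by
    have h5 : x ≤ 1 := hx1.le
    have h6 : y ^ 2 ≤ |a.im| ^ 2 := by
      rw [hy, sq_abs, div_pow]
      nlinarith [sq_nonneg a.im]
    nlinarith [abs_nonneg a.im, mul_le_mul h5 h5 hx00.le zero_le_one]
  have h4 : ‖(Gx a)⁻¹‖ ^ 2 ≤ (Real.sqrt (|R| / Real.pi ^ 2) * (1 + |a.im|)) ^ 2 := by
    rw [h1, mul_pow, Real.sq_sqrt (by positivity)]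
    calc (x ^ 2 + y ^ 2) / Real.pi ^ 2 * rat (1 - x) (1 + x) 1 y
        ≤ (1 + |a.im|) ^ 2 / Real.pi ^ 2 * |R| := by gcongr
      _ = _ := by ring
  have h5 : ‖(Gx a)⁻¹‖ ≤ Real.sqrt (|R| / Real.pi ^ 2) * (1 + |a.im|) :=
    le_of_sq_le_sq h4 (by positivity)
  refine h5.trans ?_
  gcongr
  linarith

end Helper85.BS
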