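import Pool.Agent.Helper85.BP.Stubs

/-!
MP_3dd6d4_an, all-p extension, module R14: the bound for a real exponent.
-/

set_option autoImplicit false

open MeasureTheory Complex FourierTransform Filter Topology
open scoped ENNReal NNReal ComplexConjugate

noncomputable section

namespace Helper85.BP.P

open Helper72.BA Helper85.BP

theorem real_bound (p : ℝ) (hp : 2 < p) (A : ℝ) (hA : 0 < A) (hP : HasPitt p A) (ε : ℝ)
    (hε : 0 < ε) : ∃ n0 : ℕ, ∀ n : ℕ, n0 ≤ n → ∀ (M : ℕ) (f : ℂ → ℂ), Nice f →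
    nrp p (gW n (Finset.Ico (-M : ℤ) M) f) ≤
      ENNReal.ofReal ((1 + ε) * A ^ p * (n:ℝ) ^ (p - 2)) * nrp p f := by
  set P : ℝ := A ^ p with hPd
  have hP0 : 0 < P := Real.rpow_pos_of_pos hA _
  set δ : ℝ := min 1 (ε * P / (3 * P + 1)) with hδ
  have hδ0 : 0 < δ := by
    rw [hδ]
    exact lt_min one_pos (by positivity)
  have hδ1 : δ ≤ 1 := min_le_left _ _
  have hδ2 : δ * (3 * P + 1) ≤ ε * P := by
    have : δ ≤ ε * P / (3 * P + 1) := min_le_right _ _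
    rwa [le_div_iff₀ (by positivity)] at this
  obtain ⟨B, n1, h1⟩ := reduction_real p hp δ hδ0
  obtain ⟨n2, h2⟩ := sharp_windows_real p hp A hA hP δ hδ0 B
  refine ⟨max n1 n2, fun n hn M f hf => ?_⟩
  obtain ⟨N, a, b, hab, h3⟩ := h1 n ((le_max_left _ _).trans hn) M f hf
  have h4 := h2 n ((le_max_right _ _).trans hn) N a b hab f hf
  have hn0 : (0:ℝ) ≤ (n:ℝ) ^ (p - 2) := by positivity
  calc nrp p (gW n (Finset.Ico (-M : ℤ) M) f)
      ≤ ENNReal.ofReal (1 + δ) * ∑ l ∈ Finset.range N, nrp p (gW n (Finset.Ico (a l) (b l)) f)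
        + ENNReal.ofReal (δ * (n:ℝ) ^ (p - 2)) * nrp p f := h3
    _ ≤ ENNReal.ofReal (1 + δ) *
          (ENNReal.ofReal ((1 + δ) * P * (n:ℝ) ^ (p - 2)) * nrp p f)
        + ENNReal.ofReal (δ * (n:ℝ) ^ (p - 2)) * nrp p f := by
        gcongr
    _ = ENNReal.ofReal ((1 + δ) * ((1 + δ) * P * (n:ℝ) ^ (p - 2)) + δ * (n:ℝ) ^ (p - 2))
          * nrp p f := by
        have e : ENNReal.ofReal ((1 + δ) * ((1 + δ) * P * (n:ℝ) ^ (p - 2)) + δ * (n:ℝ) ^ (p - 2))
            = ENNReal.ofReal (1 + δ) * ENNReal.ofReal ((1 + δ) * P * (n:ℝ) ^ (p - 2))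
              + ENNReal.ofReal (δ * (n:ℝ) ^ (p - 2)) := by
          rw [← ENNReal.ofReal_mul (by positivity), ← ENNReal.ofReal_add (by positivity) (by positivity)]
        rw [e]
        ring
    _ ≤ _ := by
        gcongr ENNReal.ofReal ?_ * _
        have h5 : (1 + δ) * ((1 + δ) * P) + δ ≤ (1 + ε) * P := by
          have h6 : δ * δ * P ≤ 1 * δ * P := by gcongr
          linarith [h6, hδ2]
        calc (1 + δ) * ((1 + δ) * P * (n:ℝ) ^ (p - 2)) + δ * (n:ℝ) ^ (p - 2)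
            = ((1 + δ) * ((1 + δ) * P) + δ) * (n:ℝ) ^ (p - 2) := by ring
          _ ≤ ((1 + ε) * P) * (n:ℝ) ^ (p - 2) := by gcongr
          _ = _ := by ring

end Helper85.BP.P
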