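import Mathlib

/-!
# Multitype Galton-Watson branching processes with countably many types

`X` is a set of types, `μ x` the offspring law of an individual of type `x`, a probability mass
function on finitely supported functions `X →₀ ℕ`.
-/

open MeasureTheory

namespace Pool.Agent.Helper85.Ext

universe u
variable {X : Type u}

/-- Populations (finitely supported functions on the types) carry the discrete sigma-algebra. -/
instance discreteSigma : MeasurableSpace (X →₀ ℕ) := ⊤

/-- The generating function of the process:
`G(s)_x = ∑_f μ_x(f) ∏_y s_y ^ f(y)`. -/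
noncomputable def genFun (μ : X → PMF (X →₀ ℕ)) (s : X → ℝ) (x : X) : ℝ :=
  ∑' f : X →₀ ℕ, (μ x f).toReal * f.prod fun y m => s y ^ m

/-- The probability measure of the construction: the offspring vectors `ξ (n, y, k)` (of the `k`-th
individual of type `y` in generation `n`) are independent, and `ξ (n, y, k)` has law `μ y`. -/
noncomputable def offspringLaw (μ : X → PMF (X →₀ ℕ)) : Measure (ℕ × X × ℕ → (X →₀ ℕ)) :=
  Measure.infinitePi fun i => (μ i.2.1).toMeasure

/-- The population started from one individual of type `x`:
`Z_0 = δ_x` and `Z_{n+1} = ∑_y ∑_{k < Z_n(y)} ξ (n, y, k)`. -/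
noncomputable def population (ξ : ℕ × X × ℕ → (X →₀ ℕ)) (x : X) : ℕ → (X →₀ ℕ)
  | 0 => Finsupp.single x 1
  | n + 1 => (population ξ x n).sum fun y m => ∑ k ∈ Finset.range m, ξ (n, y, k)

/-- Probability of global extinction: some generation is empty. -/
noncomputable def globalExt (μ : X → PMF (X →₀ ℕ)) (x : X) : ℝ :=
  (offspringLaw μ).real {ξ | ∃ n, population ξ x n = 0}

/-- Probability that every type is present in only finitely many generations. -/
noncomputable def localExt (μ : X → PMF (X →₀ ℕ)) (x : X) : ℝ :=
  (offspringLaw μ).real {ξ | ∀ y, ∃ N, ∀ n ≥ N, population ξ x n y = 0}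

end Pool.Agent.Helper85.Ext
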