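import Pool.Agent.Helper85.ExtDefs

/-!
# Fixed points between the global and the local extinction probability vectors

Idea of the proof. For a finite set `F` of types and boundary values `v` off `F`, let `sol μ F v` be
the minimal solution of `G(s) = s` on `F`, `s = v` off `F`. It equals `q` for `v = q` and `q~` for
`v = q~`, it is continuous along the segment from `q` to `q~`, so it takes any prescribed value
between `q x₀` and `q~ x₀` at a type `x₀`. Let `F` increase to `X` and use compactness of the cube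
and coordinatewise continuity of `G`.
-/

set_option linter.unusedSectionVars false

open MeasureTheory Filter Topology ProbabilityTheory
open scoped ENNReal

namespace Pool.Agent.Helper85.Ext

universe u
variable {X : Type u}

/-! ### Probabilistic part -/

/-- generating monomial with values in `ℝ≥0∞` -/
noncomputable def mon (a : X → ℝ≥0∞) (z : X →₀ ℕ) : ℝ≥0∞ := z.prod fun y m => a y ^ m

noncomputable def G (μ : X → PMF (X →₀ ℕ)) (a : X → ℝ≥0∞) (x : X) : ℝ≥0∞ :=
  ∑' f : X →₀ ℕ, μ x f * mon a f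

lemma mon_zero (a : X → ℝ≥0∞) : mon a 0 = 1 := by simp [mon]

lemma mon_add (a : X → ℝ≥0∞) (z w : X →₀ ℕ) : mon a (z + w) = mon a z * mon a w := by
  classical
  unfold mon
  exact Finsupp.prod_add_index' (by simp) (by intros; rw [pow_add])

lemma mon_sum {ι : Type*} (a : X → ℝ≥0∞) (s : Finset ι) (g : ι → X →₀ ℕ) :
    mon a (∑ i ∈ s, g i) = ∏ i ∈ s, mon a (g i) := by
  classical
  induction s using Finset.induction_on with
  | empty => simp [mon_zero]
  | insert i s hi ih => rw [Finset.sum_insert hi, Finset.prod_insert hi, mon_add, ih]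

/-- the set of noise indices used by population `z` in generation `n` -/
noncomputable def idx (n : ℕ) (z : X →₀ ℕ) : Finset (ℕ × X × ℕ) :=
  (z.support.sigma fun y => Finset.range (z y)).map
    ⟨fun p : (Σ _ : X, ℕ) => (n, p.1, p.2), by
      rintro ⟨a, b⟩ ⟨c, d⟩ h
      simp only [Prod.mk.injEq, true_and] at h
      rcases h with ⟨rfl, rfl⟩
      rfl⟩

lemma step_eq (ξ : ℕ × X × ℕ → (X →₀ ℕ)) (n : ℕ) (z : X →₀ ℕ) :
    (z.sum fun y m => ∑ k ∈ Finset.range m, ξ (n, y, k)) = ∑ i ∈ idx n z, ξ i := by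
  unfold idx Finsupp.sum
  rw [Finset.sum_map, Finset.sum_sigma]
  rfl

lemma prod_idx (n : ℕ) (z : X →₀ ℕ) (g : X → ℝ≥0∞) :
    ∏ i ∈ idx n z, g i.2.1 = mon g z := by
  unfold idx mon Finsupp.prod
  rw [Finset.prod_map, Finset.prod_sigma]
  refine Finset.prod_congr rfl fun y _ => ?_
  change ∏ s ∈ Finset.range (z y), g y = _
  simp

/-- sigma-algebra generated by the noise of generations before `n` -/
@[instance_reducible] def past (n : ℕ) : MeasurableSpace (ℕ × X × ℕ → (X →₀ ℕ)) :=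
  ⨆ i ∈ {i : ℕ × X × ℕ | i.1 < n}, MeasurableSpace.comap (fun ξ => ξ i) ⊤

@[instance_reducible] def pres (n : ℕ) : MeasurableSpace (ℕ × X × ℕ → (X →₀ ℕ)) :=
  ⨆ i ∈ {i : ℕ × X × ℕ | i.1 = n}, MeasurableSpace.comap (fun ξ => ξ i) ⊤

lemma past_mono {m n : ℕ} (h : m ≤ n) : (past m : MeasurableSpace (ℕ × X × ℕ → (X →₀ ℕ))) ≤ past n := by
  unfold past
  exact iSup₂_mono' fun i hi => ⟨i, lt_of_lt_of_le hi h, le_rfl⟩

lemma past_le (n : ℕ) : (past n : MeasurableSpace (ℕ × X × ℕ → (X →₀ ℕ))) ≤ MeasurableSpace.pi := by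
  unfold past
  exact iSup₂_le fun i _ => (measurable_pi_apply i).comap_le

lemma pres_le (n : ℕ) : (pres n : MeasurableSpace (ℕ × X × ℕ → (X →₀ ℕ))) ≤ MeasurableSpace.pi := by
  unfold pres
  exact iSup₂_le fun i _ => (measurable_pi_apply i).comap_le

lemma indep_past_pres (μ : X → PMF (X →₀ ℕ)) (n : ℕ) :
    Indep (past n) (pres n) (offspringLaw μ) := by
  unfold past pres
  refine indep_iSup_of_disjoint (fun i => (measurable_pi_apply i).comap_le) ?_ ?_
  · have := iIndepFun_infinitePi (P := fun i : ℕ × X × ℕ => (μ i.2.1).toMeasure)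
      (X := fun _ ω => ω) (fun _ => measurable_id)
    exact this
  · rw [Set.disjoint_left]
    intro i hi hi'
    simp only [Set.mem_ofPred_eq] at hi hi'
    omega

variable [Countable X]

lemma measurable_sum_idx (m : MeasurableSpace (ℕ × X × ℕ → (X →₀ ℕ))) (S : Finset (ℕ × X × ℕ))
    (h : ∀ i ∈ S, Measurable[m] (fun ξ : ℕ × X × ℕ → (X →₀ ℕ) => ξ i)) :
    Measurable[m] (fun ξ : ℕ × X × ℕ → (X →₀ ℕ) => ∑ i ∈ S, ξ i) := by
  classical
  induction S using Finset.induction_on with
  | empty => simp only [Finset.sum_empty]; exact @measurable_const _ _ _ m _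
  | insert i s hi ih =>
    simp only [Finset.sum_insert hi]
    have h1 := h i (Finset.mem_insert_self _ _)
    have h2 := ih (fun j hj => h j (Finset.mem_insert_of_mem hj))
    have h3 : Measurable (fun p : (X →₀ ℕ) × (X →₀ ℕ) => p.1 + p.2) := Measurable.of_discrete
    exact h3.comp (h1.prodMk h2)

lemma measurable_population (x : X) (n : ℕ) :
    Measurable[past n] (fun ξ : ℕ × X × ℕ → (X →₀ ℕ) => population ξ x n) := by
  induction n with
  | zero => simp only [population]; exact @measurable_const _ _ _ (past 0) _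
  | succ n ih =>
    refine @measurable_to_countable' _ _ _ _ (past (n+1)) _ ?_
    intro w
    have : (fun ξ : ℕ × X × ℕ → (X →₀ ℕ) => population ξ x (n+1)) ⁻¹' {w} =
        ⋃ z : X →₀ ℕ, ((fun ξ => population ξ x n) ⁻¹' {z}) ∩
          ((fun ξ : ℕ × X × ℕ → (X →₀ ℕ) => ∑ i ∈ idx n z, ξ i) ⁻¹' {w}) := by
      ext ξ
      simp only [population, step_eq, Set.mem_preimage, Set.mem_singleton_iff, Set.mem_iUnion,
        Set.mem_inter_iff]
      constructor
      · intro h; exact ⟨_, rfl, h⟩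
      · rintro ⟨z, rfl, h⟩; exact h
    rw [this]
    refine MeasurableSet.iUnion fun z => MeasurableSet.inter ?_ ?_
    · exact (past_mono (Nat.le_succ n)) _ (ih (measurableSet_singleton z))
    · refine (measurable_sum_idx (past (n+1)) (idx n z) ?_) (measurableSet_singleton w)
      intro i hi
      have hi1 : i.1 < n + 1 := by
        unfold idx at hi
        simp only [Finset.mem_map, Finset.mem_sigma, Finsupp.mem_support_iff, Finset.mem_range] at hi
        obtain ⟨a, _, rfl⟩ := hi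
        exact Nat.lt_succ_self n
      have hle : MeasurableSpace.comap (fun ξ : ℕ × X × ℕ → (X →₀ ℕ) => ξ i) ⊤ ≤ past (n+1) := by
        unfold past
        exact le_iSup₂_of_le i hi1 le_rfl
      exact (comap_measurable _).mono hle le_rfl


instance isProb (μ : X → PMF (X →₀ ℕ)) : IsProbabilityMeasure (offspringLaw μ) := by
  unfold offspringLaw; infer_instance

lemma lintegral_coord (μ : X → PMF (X →₀ ℕ)) (a : X → ℝ≥0∞) (i : ℕ × X × ℕ) :
    ∫⁻ ξ, mon a (ξ i) ∂(offspringLaw μ) = G μ a i.2.1 := by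
  have h1 : (offspringLaw μ).map (fun ξ => ξ i) = (μ i.2.1).toMeasure :=
    Measure.infinitePi_map_eval (fun i : ℕ × X × ℕ => (μ i.2.1).toMeasure) i
  have h2 : ∫⁻ z, mon a z ∂((offspringLaw μ).map (fun ξ => ξ i)) =
      ∫⁻ ξ, mon a (ξ i) ∂(offspringLaw μ) :=
    lintegral_map Measurable.of_discrete (measurable_pi_apply i)
  rw [← h2, h1, lintegral_countable']
  unfold G
  refine tsum_congr fun f => ?_
  rw [PMF.toMeasure_apply_singleton _ _ (measurableSet_singleton f), mul_comm]

lemma lintegral_prod_coord (μ : X → PMF (X →₀ ℕ)) (a : X → ℝ≥0∞) (n : ℕ) (z : X →₀ ℕ) :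
    ∫⁻ ξ, ∏ i ∈ idx n z, mon a (ξ i) ∂(offspringLaw μ) = mon (G μ a) z := by
  have hind : iIndepFun (fun (i : ℕ × X × ℕ) (ξ : ℕ × X × ℕ → (X →₀ ℕ)) => mon a (ξ i))
      (offspringLaw μ) :=
    iIndepFun_infinitePi (P := fun i : ℕ × X × ℕ => (μ i.2.1).toMeasure)
      (X := fun _ ω => mon a ω) (fun _ => Measurable.of_discrete)
  rw [lintegral_prod_eq_prod_lintegral_of_indepFun _ _ hind
    (fun i => (Measurable.of_discrete (f := mon a)).comp (measurable_pi_apply i))]
  simp_rw [lintegral_coord]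
  exact prod_idx n z (G μ a)

lemma measurable_prod_idx (a : X → ℝ≥0∞) (n : ℕ) (z : X →₀ ℕ) :
    Measurable[pres n] (fun ξ : ℕ × X × ℕ → (X →₀ ℕ) => ∏ i ∈ idx n z, mon a (ξ i)) := by
  refine @Finset.measurable_fun_prod _ _ _ _ _ _ (pres n) _ _ ?_
  intro i hi
  have hi1 : i.1 = n := by
    unfold idx at hi
    simp only [Finset.mem_map, Finset.mem_sigma, Finsupp.mem_support_iff, Finset.mem_range] at hi
    obtain ⟨a, _, rfl⟩ := hi
    rfl
  have hle : MeasurableSpace.comap (fun ξ : ℕ × X × ℕ → (X →₀ ℕ) => ξ i) ⊤ ≤ pres n := by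
    unfold pres
    exact le_iSup₂_of_le i hi1 le_rfl
  have h1 : Measurable[pres n] (fun ξ : ℕ × X × ℕ → (X →₀ ℕ) => ξ i) :=
    (comap_measurable _).mono hle le_rfl
  exact (Measurable.of_discrete (f := mon a)).comp h1

lemma lintegral_decomp (μ : X → PMF (X →₀ ℕ)) (x : X) (n : ℕ)
    (f : (ℕ × X × ℕ → (X →₀ ℕ)) → ℝ≥0∞) (hf : Measurable f) :
    ∫⁻ ξ, f ξ ∂(offspringLaw μ) =
      ∑' z, ∫⁻ ξ, ({ξ | population ξ x n = z}.indicator f) ξ ∂(offspringLaw μ) := by
  classical
  rw [← lintegral_tsum]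
  · refine lintegral_congr fun ξ => ?_
    rw [tsum_eq_single (population ξ x n)]
    · simp
    · intro z hz
      simp [Ne.symm hz]
  · intro z
    refine (hf.indicator ?_).aemeasurable
    exact past_le n _ (measurable_population x n (measurableSet_singleton z))

lemma step (μ : X → PMF (X →₀ ℕ)) (x : X) (n : ℕ) (Φ : (ℕ × X × ℕ → (X →₀ ℕ)) → ℝ≥0∞)
    (hΦ : Measurable[past n] Φ) (a : X → ℝ≥0∞) :
    ∫⁻ ξ, Φ ξ * mon a (population ξ x (n+1)) ∂(offspringLaw μ) =
      ∫⁻ ξ, Φ ξ * mon (G μ a) (population ξ x n) ∂(offspringLaw μ) := by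
  classical
  have hpop : ∀ n, Measurable (fun ξ : ℕ × X × ℕ → (X →₀ ℕ) => population ξ x n) :=
    fun n => (measurable_population x n).mono (past_le n) le_rfl
  have hΦ' : Measurable Φ := hΦ.mono (past_le n) le_rfl
  rw [lintegral_decomp μ x n, lintegral_decomp μ x n]
  · refine tsum_congr fun z => ?_
    have e1 : ∀ ξ, ({ξ | population ξ x n = z}.indicator
        (fun ξ => Φ ξ * mon a (population ξ x (n+1)))) ξ =
        ({ξ | population ξ x n = z}.indicator Φ) ξ * ∏ i ∈ idx n z, mon a (ξ i) := by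
      intro ξ
      by_cases h : population ξ x n = z
      · simp only [Set.indicator_apply, Set.mem_ofPred_eq, h, if_true]
        simp only [population, step_eq, mon_sum, h]
      · simp [h]
    have e2 : ∀ ξ, ({ξ | population ξ x n = z}.indicator
        (fun ξ => Φ ξ * mon (G μ a) (population ξ x n))) ξ =
        ({ξ | population ξ x n = z}.indicator Φ) ξ * mon (G μ a) z := by
      intro ξ
      by_cases h : population ξ x n = z
      · simp only [Set.indicator_apply, Set.mem_ofPred_eq, h, if_true]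
      · simp [h]
    simp_rw [e1, e2]
    have hm : Measurable[past n] ({ξ | population ξ x n = z}.indicator Φ) :=
      hΦ.indicator (measurable_population x n (measurableSet_singleton z))
    rw [lintegral_mul_eq_lintegral_mul_lintegral_of_independent_measurableSpace (past_le n)
      (pres_le n) (indep_past_pres μ n) hm (measurable_prod_idx a n z), lintegral_prod_coord,
      lintegral_mul_const _ (hm.mono (past_le n) le_rfl)]
  · exact hΦ'.mul ((Measurable.of_discrete (f := mon (G μ a))).comp (hpop _))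
  · exact hΦ'.mul ((Measurable.of_discrete (f := mon a)).comp (hpop _))


/-! joint generating functions along a path -/

noncomputable def back (μ : X → PMF (X →₀ ℕ)) : List (X → ℝ≥0∞) → (X → ℝ≥0∞)
  | [] => 1
  | a :: l => a * G μ (back μ l)

noncomputable def pathProd (x : X) (ξ : ℕ × X × ℕ → (X →₀ ℕ)) : ℕ → List (X → ℝ≥0∞) → ℝ≥0∞
  | _, [] => 1
  | n, a :: l => mon a (population ξ x n) * pathProd x ξ (n+1) l

lemma mon_mul (a b : X → ℝ≥0∞) (z : X →₀ ℕ) : mon (a * b) z = mon a z * mon b z := by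
  unfold mon
  rw [← Finsupp.prod_mul]
  simp [mul_pow]

lemma mon_one (z : X →₀ ℕ) : mon (1 : X → ℝ≥0∞) z = 1 := by
  unfold mon; simp

lemma joint (μ : X → PMF (X →₀ ℕ)) (x : X) (l : List (X → ℝ≥0∞)) :
    ∀ (n : ℕ) (Φ : (ℕ × X × ℕ → (X →₀ ℕ)) → ℝ≥0∞), Measurable[past n] Φ →
    ∫⁻ ξ, Φ ξ * pathProd x ξ n l ∂(offspringLaw μ) =
      ∫⁻ ξ, Φ ξ * mon (back μ l) (population ξ x n) ∂(offspringLaw μ) := by
  induction l with
  | nil => intro n Φ _; simp [pathProd, back, mon_one]
  | cons a l ih =>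
    intro n Φ hΦ
    have h1 : Measurable[past n] (fun ξ => Φ ξ * mon a (population ξ x n)) := by
      exact hΦ.fun_mul ((Measurable.of_discrete (f := mon a)).comp (measurable_population x n))
    have h2 := ih (n+1) (fun ξ => Φ ξ * mon a (population ξ x n))
      (h1.mono (past_mono (Nat.le_succ n)) le_rfl)
    simp only [pathProd, back, ← mul_assoc]
    rw [h2, step μ x n _ h1]
    refine lintegral_congr fun ξ => ?_
    rw [mon_mul, mul_assoc]

lemma joint_zero (μ : X → PMF (X →₀ ℕ)) (x : X) (l : List (X → ℝ≥0∞)) :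
    ∫⁻ ξ, pathProd x ξ 0 l ∂(offspringLaw μ) = back μ l x := by
  have := joint μ x l 0 (fun _ => 1) (@measurable_const _ _ _ (past 0) _)
  simp only [one_mul] at this
  rw [this]
  simp [population, mon]


open Classical in
noncomputable def ind (F : Set X) (y : X) : ℝ≥0∞ := if y ∈ F then 0 else 1

open Classical in
/-- generating operator killed on `F` -/
noncomputable def op (μ : X → PMF (X →₀ ℕ)) (F : Set X) (s : X → ℝ) (x : X) : ℝ :=
  if x ∈ F then 0 else genFun μ s x

def cube : Set (X → ℝ) := {s | ∀ x, 0 ≤ s x ∧ s x ≤ 1}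

open Classical in
lemma mon_ind (F : Set X) (z : X →₀ ℕ) :
    mon (ind F) z = if (∀ y ∈ F, z y = 0) then 1 else 0 := by
  unfold mon Finsupp.prod ind
  split_ifs with h
  · refine Finset.prod_eq_one fun y hy => ?_
    have : y ∉ F := fun hF => (Finsupp.mem_support_iff.mp hy) (h y hF)
    simp [this]
  · push Not at h
    obtain ⟨y, hy, hz⟩ := h
    refine Finset.prod_eq_zero (Finsupp.mem_support_iff.mpr hz) ?_
    simp [hy, hz]

open Classical in
lemma pathProd_replicate (x : X) (ξ : ℕ × X × ℕ → (X →₀ ℕ)) (F : Set X) (l : List (X → ℝ≥0∞))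
    (j : ℕ) : ∀ n, pathProd x ξ n (List.replicate j (ind F) ++ l) =
      (if (∀ m, n ≤ m → m < n + j → ∀ y ∈ F, population ξ x m y = 0) then 1 else 0) *
        pathProd x ξ (n + j) l := by
  induction j with
  | zero =>
    intro n
    have : ∀ m, n ≤ m → m < n + 0 → ∀ y ∈ F, population ξ x m y = 0 := by
      intro m h1 h2; omega
    rw [if_pos this]
    simp
  | succ j ih =>
    intro n
    rw [List.replicate_succ, List.cons_append, pathProd, ih, mon_ind, ← mul_assoc,
      show n + 1 + j = n + (j + 1) by ring]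
    congr 1
    by_cases h1 : ∀ y ∈ F, population ξ x n y = 0
    · by_cases h2 : ∀ m, n + 1 ≤ m → m < n + (j + 1) → ∀ y ∈ F, population ξ x m y = 0
      · have h3 : ∀ m, n ≤ m → m < n + (j + 1) → ∀ y ∈ F, population ξ x m y = 0 := by
          intro m hm1 hm2
          rcases eq_or_lt_of_le hm1 with rfl | hlt
          · exact h1
          · exact h2 m hlt hm2
        rw [if_pos h1, if_pos h2, if_pos h3, one_mul]
      · have h3 : ¬ ∀ m, n ≤ m → m < n + (j + 1) → ∀ y ∈ F, population ξ x m y = 0 := by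
          intro h; exact h2 fun m hm1 hm2 => h m (by omega) hm2
        rw [if_neg h2, if_neg h3, mul_zero]
    · have h3 : ¬ ∀ m, n ≤ m → m < n + (j + 1) → ∀ y ∈ F, population ξ x m y = 0 := by
        intro h; exact h1 (h n le_rfl (by omega))
      rw [if_neg h1, if_neg h3, zero_mul]

lemma back_replicate (μ : X → PMF (X →₀ ℕ)) (a : X → ℝ≥0∞) (l : List (X → ℝ≥0∞)) (j : ℕ) :
    back μ (List.replicate j a ++ l) = (fun s => a * G μ s)^[j] (back μ l) := by
  induction j with
  | zero => simp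
  | succ j ih => rw [List.replicate_succ, List.cons_append, back, ih, Function.iterate_succ_apply']

def ev (x : X) (n j k : ℕ) (F F' : Set X) : Set (ℕ × X × ℕ → (X →₀ ℕ)) :=
  {ξ | (∀ m, n ≤ m → m < n + j → ∀ y ∈ F, population ξ x m y = 0) ∧
    (∀ m, n + j ≤ m → m < n + j + k → ∀ y ∈ F', population ξ x m y = 0)}

lemma measurable_pop (x : X) (n : ℕ) :
    Measurable (fun ξ : ℕ × X × ℕ → (X →₀ ℕ) => population ξ x n) :=
  (measurable_population x n).mono (past_le n) le_rfl

lemma measurableSet_pop (x : X) (n : ℕ) (S : Set (X →₀ ℕ)) :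
    MeasurableSet {ξ : ℕ × X × ℕ → (X →₀ ℕ) | population ξ x n ∈ S} :=
  (measurable_pop x n) (MeasurableSet.of_discrete (s := S))

lemma measurableSet_ev (x : X) (n j k : ℕ) (F F' : Set X) : MeasurableSet (ev x n j k F F') := by
  have h : ∀ (A : Set X) (m : ℕ), MeasurableSet
      {ξ : ℕ × X × ℕ → (X →₀ ℕ) | ∀ y ∈ A, population ξ x m y = 0} :=
    fun A m => measurableSet_pop x m {z | ∀ y ∈ A, z y = 0}
  have : ev x n j k F F' = (⋂ m, ⋂ (_ : n ≤ m), ⋂ (_ : m < n + j),
      {ξ : ℕ × X × ℕ → (X →₀ ℕ) | ∀ y ∈ F, population ξ x m y = 0}) ∩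
      (⋂ m, ⋂ (_ : n + j ≤ m), ⋂ (_ : m < n + j + k),
      {ξ : ℕ × X × ℕ → (X →₀ ℕ) | ∀ y ∈ F', population ξ x m y = 0}) := by
    ext ξ
    simp [ev]
  rw [this]
  refine MeasurableSet.inter ?_ ?_ <;>
  exact MeasurableSet.iInter fun m => MeasurableSet.iInter fun _ => MeasurableSet.iInter fun _ => h _ m

lemma measure_ev (μ : X → PMF (X →₀ ℕ)) (x : X) (n j k : ℕ) (F F' : Set X) :
    (offspringLaw μ) (ev x n j k F F') =
      ((fun s => G μ s)^[n] ((fun s => ind F * G μ s)^[j] ((fun s => ind F' * G μ s)^[k] 1))) x := by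
  classical
  have h0 : ind (∅ : Set X) = 1 := by ext y; simp [ind]
  have key := joint_zero μ x (List.replicate n (ind ∅) ++ (List.replicate j (ind F) ++
    (List.replicate k (ind F') ++ [])))
  rw [back_replicate, back_replicate, back_replicate, back, h0] at key
  simp only [one_mul] at key
  rw [← key, ← lintegral_indicator_one (measurableSet_ev x n j k F F')]
  refine lintegral_congr fun ξ => ?_
  rw [← h0, pathProd_replicate, pathProd_replicate, pathProd_replicate, pathProd]
  have e0 : ∀ m, 0 ≤ m → m < 0 + n → ∀ y ∈ (∅ : Set X), population ξ x m y = 0 := by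
    intro m _ _ y hy; exact absurd hy (Set.notMem_empty y)
  rw [if_pos e0, one_mul, mul_one, zero_add]
  by_cases h1 : ∀ m, n ≤ m → m < n + j → ∀ y ∈ F, population ξ x m y = 0
  · by_cases h2 : ∀ m, n + j ≤ m → m < n + j + k → ∀ y ∈ F', population ξ x m y = 0
    · rw [if_pos h1, if_pos h2, Set.indicator_of_mem (show ξ ∈ ev x n j k F F' from ⟨h1, h2⟩)]
      simp
    · rw [if_neg h2, Set.indicator_of_notMem (fun h => h2 h.2)]
      simp
  · rw [if_neg h1, Set.indicator_of_notMem (fun h => h1 h.1)]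
    simp


/-! ### Analytic part -/

/-- real generating monomial -/
noncomputable def rmon (s : X → ℝ) (f : X →₀ ℕ) : ℝ := f.prod fun y m => s y ^ m

lemma genFun_eq (μ : X → PMF (X →₀ ℕ)) (s : X → ℝ) (x : X) :
    genFun μ s x = ∑' f : X →₀ ℕ, (μ x f).toReal * rmon s f := rfl

lemma rmon_nonneg {s : X → ℝ} (hs : ∀ x, 0 ≤ s x) (f : X →₀ ℕ) : 0 ≤ rmon s f :=
  Finset.prod_nonneg fun y _ => pow_nonneg (hs y) _

lemma rmon_le_one {s : X → ℝ} (hs : s ∈ cube) (f : X →₀ ℕ) : rmon s f ≤ 1 :=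
  Finset.prod_le_one (fun y _ => pow_nonneg (hs y).1 _) fun y _ => pow_le_one₀ (hs y).1 (hs y).2

lemma rmon_mono {s t : X → ℝ} (hs : ∀ x, 0 ≤ s x) (h : s ≤ t) (f : X →₀ ℕ) :
    rmon s f ≤ rmon t f :=
  Finset.prod_le_prod (fun y _ => pow_nonneg (hs y) _) fun y _ => pow_le_pow_left₀ (hs y) (h y) _

/-- increments of products are monotone -/
lemma incr_mul {t s T S t' s' T' S' : ℝ}
    (h : 0 ≤ t ∧ t ≤ s ∧ t ≤ T ∧ s - t ≤ S - T) (h' : 0 ≤ t' ∧ t' ≤ s' ∧ t' ≤ T' ∧ s' - t' ≤ S' - T') :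
    0 ≤ t * t' ∧ t * t' ≤ s * s' ∧ t * t' ≤ T * T' ∧ s * s' - t * t' ≤ S * S' - T * T' := by
  obtain ⟨a, b, c, d⟩ := h
  obtain ⟨a', b', c', d'⟩ := h'
  refine ⟨by positivity, mul_le_mul b b' a' (by linarith), mul_le_mul c c' a' (by linarith), ?_⟩
  have h1 : s * s' - t * t' = s * (s' - t') + (s - t) * t' := by ring
  have h2 : S * S' - T * T' = S * (S' - T') + (S - T) * T' := by ring
  rw [h1, h2]
  have h3 : s * (s' - t') ≤ S * (S' - T') :=
    mul_le_mul (by linarith) d' (by linarith) (by linarith)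
  have h4 : (s - t) * t' ≤ (S - T) * T' :=
    mul_le_mul d c' a' (by linarith)
  linarith

lemma incr_pow {t s T S : ℝ} (h : 0 ≤ t ∧ t ≤ s ∧ t ≤ T ∧ s - t ≤ S - T) (n : ℕ) :
    0 ≤ t ^ n ∧ t ^ n ≤ s ^ n ∧ t ^ n ≤ T ^ n ∧ s ^ n - t ^ n ≤ S ^ n - T ^ n := by
  induction n with
  | zero => simp
  | succ n ih => simp only [pow_succ]; exact incr_mul ih h

lemma incr_rmon {t s T S : X → ℝ} (h0 : ∀ x, 0 ≤ t x) (h1 : t ≤ s) (h2 : t ≤ T)
    (h3 : s - t ≤ S - T) (f : X →₀ ℕ) : rmon s f - rmon t f ≤ rmon S f - rmon T f := by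
  classical
  unfold rmon Finsupp.prod
  have : ∀ A : Finset X, 0 ≤ ∏ y ∈ A, t y ^ f y ∧ ∏ y ∈ A, t y ^ f y ≤ ∏ y ∈ A, s y ^ f y ∧
      ∏ y ∈ A, t y ^ f y ≤ ∏ y ∈ A, T y ^ f y ∧
      ∏ y ∈ A, s y ^ f y - ∏ y ∈ A, t y ^ f y ≤ ∏ y ∈ A, S y ^ f y - ∏ y ∈ A, T y ^ f y := by
    intro A
    induction A using Finset.induction_on with
    | empty => simp
    | insert y A hy ih =>
      simp only [Finset.prod_insert hy]
      exact incr_mul (incr_pow ⟨h0 y, h1 y, h2 y, h3 y⟩ _) ih
  exact (this _).2.2.2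

lemma summable_law (μ : X → PMF (X →₀ ℕ)) (x : X) :
    Summable fun f : X →₀ ℕ => (μ x f).toReal :=
  ENNReal.summable_toReal (by rw [(μ x).tsum_coe]; exact ENNReal.one_ne_top)

lemma tsum_law (μ : X → PMF (X →₀ ℕ)) (x : X) :
    ∑' f : X →₀ ℕ, (μ x f).toReal = 1 := by
  rw [← ENNReal.tsum_toReal_eq (fun f => (μ x).apply_ne_top f), (μ x).tsum_coe]
  rfl

lemma summable_rmon (μ : X → PMF (X →₀ ℕ)) {s : X → ℝ} (hs : s ∈ cube) (x : X) :
    Summable fun f : X →₀ ℕ => (μ x f).toReal * rmon s f := by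
  refine Summable.of_nonneg_of_le (fun f => mul_nonneg ENNReal.toReal_nonneg
    (rmon_nonneg (fun y => (hs y).1) f)) (fun f => ?_) (summable_law μ x)
  exact mul_le_of_le_one_right ENNReal.toReal_nonneg (rmon_le_one hs f)

lemma genFun_mem (μ : X → PMF (X →₀ ℕ)) {s : X → ℝ} (hs : s ∈ cube) : genFun μ s ∈ cube := by
  intro x
  rw [genFun_eq]
  refine ⟨tsum_nonneg fun f => mul_nonneg ENNReal.toReal_nonneg
    (rmon_nonneg (fun y => (hs y).1) f), ?_⟩
  rw [← tsum_law μ x]
  exact (summable_rmon μ hs x).tsum_le_tsum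
    (fun f => mul_le_of_le_one_right ENNReal.toReal_nonneg (rmon_le_one hs f)) (summable_law μ x)

lemma genFun_mono (μ : X → PMF (X →₀ ℕ)) {s t : X → ℝ} (hs : s ∈ cube) (ht : t ∈ cube)
    (h : s ≤ t) : genFun μ s ≤ genFun μ t := by
  intro x
  exact (summable_rmon μ hs x).tsum_le_tsum
    (fun f => mul_le_mul_of_nonneg_left (rmon_mono (fun y => (hs y).1) h f)
      ENNReal.toReal_nonneg) (summable_rmon μ ht x)

lemma genFun_incr (μ : X → PMF (X →₀ ℕ)) {t s T S : X → ℝ} (ht : t ∈ cube) (hs : s ∈ cube)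
    (hT : T ∈ cube) (hS : S ∈ cube) (h1 : t ≤ s) (h2 : t ≤ T) (h3 : s - t ≤ S - T) :
    genFun μ s - genFun μ t ≤ genFun μ S - genFun μ T := by
  intro x
  simp only [Pi.sub_apply, genFun_eq]
  rw [← (summable_rmon μ hs x).tsum_sub (summable_rmon μ ht x),
    ← (summable_rmon μ hS x).tsum_sub (summable_rmon μ hT x)]
  refine Summable.tsum_le_tsum (fun f => ?_) ((summable_rmon μ hs x).sub (summable_rmon μ ht x))
    ((summable_rmon μ hS x).sub (summable_rmon μ hT x))
  rw [← mul_sub, ← mul_sub]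
  exact mul_le_mul_of_nonneg_left (incr_rmon (fun y => (ht y).1) h1 h2 h3 f) ENNReal.toReal_nonneg

lemma genFun_tendsto (μ : X → PMF (X →₀ ℕ)) {α : Type*} {l : Filter α} {s : α → X → ℝ}
    {t : X → ℝ} (hs : ∀ a, s a ∈ cube) (h : ∀ x, Tendsto (fun a => s a x) l (𝓝 (t x))) (x : X) :
    Tendsto (fun a => genFun μ (s a) x) l (𝓝 (genFun μ t x)) := by
  simp only [genFun_eq]
  refine tendsto_tsum_of_dominated_convergence (summable_law μ x) (fun f => ?_)
    (Eventually.of_forall fun a f => ?_)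
  · refine Tendsto.const_mul _ ?_
    unfold rmon Finsupp.prod
    exact tendsto_finsetProd _ fun y _ => (h y).pow _
  · rw [Real.norm_eq_abs, abs_of_nonneg (mul_nonneg ENNReal.toReal_nonneg
      (rmon_nonneg (fun y => (hs a y).1) f))]
    exact mul_le_of_le_one_right ENNReal.toReal_nonneg (rmon_le_one (hs a) f)

lemma op_mem (μ : X → PMF (X →₀ ℕ)) (F : Set X) {s : X → ℝ} (hs : s ∈ cube) :
    op μ F s ∈ cube := by
  intro x
  unfold op
  split_ifs
  · simp
  · exact genFun_mem μ hs x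

lemma G_ofReal (μ : X → PMF (X →₀ ℕ)) {s : X → ℝ} (hs : s ∈ cube) (x : X) :
    G μ (fun y => ENNReal.ofReal (s y)) x = ENNReal.ofReal (genFun μ s x) := by
  unfold G
  rw [genFun_eq, ENNReal.ofReal_tsum_of_nonneg (fun f => mul_nonneg ENNReal.toReal_nonneg
    (rmon_nonneg (fun y => (hs y).1) f)) (summable_rmon μ hs x)]
  refine tsum_congr fun f => ?_
  rw [ENNReal.ofReal_mul ENNReal.toReal_nonneg, ENNReal.ofReal_toReal ((μ x).apply_ne_top f)]
  congr 1
  unfold mon rmon Finsupp.prod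
  rw [ENNReal.ofReal_prod_of_nonneg (fun y _ => pow_nonneg (hs y).1 _)]
  exact Finset.prod_congr rfl fun y _ => (ENNReal.ofReal_pow (hs y).1 _).symm

lemma op_ofReal (μ : X → PMF (X →₀ ℕ)) (F : Set X) {s : X → ℝ} (hs : s ∈ cube) :
    (ind F * G μ (fun y => ENNReal.ofReal (s y))) = fun y => ENNReal.ofReal (op μ F s y) := by
  classical
  ext x
  rw [Pi.mul_apply, G_ofReal μ hs]
  unfold ind op
  split_ifs <;> simp

lemma iter_mem {T : (X → ℝ) → (X → ℝ)} (hT : ∀ s ∈ cube, T s ∈ cube) {s : X → ℝ} (hs : s ∈ cube)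
    (n : ℕ) : T^[n] s ∈ cube := by
  induction n with
  | zero => exact hs
  | succ n ih => rw [Function.iterate_succ_apply']; exact hT _ ih

lemma iter_op_ofReal (μ : X → PMF (X →₀ ℕ)) (F : Set X) {s : X → ℝ} (hs : s ∈ cube) (n : ℕ) :
    (fun s => ind F * G μ s)^[n] (fun y => ENNReal.ofReal (s y)) =
      fun y => ENNReal.ofReal ((op μ F)^[n] s y) := by
  induction n with
  | zero => rfl
  | succ n ih =>
    rw [Function.iterate_succ_apply', ih, Function.iterate_succ_apply']
    exact op_ofReal μ F (iter_mem (fun s hs => op_mem μ F hs) hs n)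

lemma iter_G_ofReal (μ : X → PMF (X →₀ ℕ)) {s : X → ℝ} (hs : s ∈ cube) (n : ℕ) :
    (fun s => G μ s)^[n] (fun y => ENNReal.ofReal (s y)) =
      fun y => ENNReal.ofReal ((genFun μ)^[n] s y) := by
  induction n with
  | zero => rfl
  | succ n ih =>
    rw [Function.iterate_succ_apply', ih, Function.iterate_succ_apply']
    ext x
    exact G_ofReal μ (iter_mem (fun s hs => genFun_mem μ hs) hs n) x

lemma one_mem : (1 : X → ℝ) ∈ cube := fun _ => ⟨zero_le_one, le_rfl⟩

lemma zero_mem : (0 : X → ℝ) ∈ cube := fun _ => ⟨le_rfl, zero_le_one⟩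

lemma real_ev (μ : X → PMF (X →₀ ℕ)) (x : X) (n j k : ℕ) (F F' : Set X) :
    (offspringLaw μ).real (ev x n j k F F') =
      ((genFun μ)^[n] ((op μ F)^[j] ((op μ F')^[k] 1))) x := by
  have m1 : (op μ F')^[k] 1 ∈ cube := iter_mem (fun s hs => op_mem μ F' hs) one_mem k
  have m2 : (op μ F)^[j] ((op μ F')^[k] 1) ∈ cube := iter_mem (fun s hs => op_mem μ F hs) m1 j
  have m3 := iter_mem (fun s hs => genFun_mem μ hs) m2 n
  have e1 : (1 : X → ℝ≥0∞) = fun y => ENNReal.ofReal ((1 : X → ℝ) y) := by ext; simp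
  rw [Measure.real, measure_ev, e1, iter_op_ofReal μ F' one_mem, iter_op_ofReal μ F m1,
    iter_G_ofReal μ m2, ENNReal.toReal_ofReal (m3 x).1]


/-! ### Extinction probabilities -/

lemma population_zero_succ {ξ : ℕ × X × ℕ → (X →₀ ℕ)} {x : X} {n : ℕ}
    (h : population ξ x n = 0) : population ξ x (n + 1) = 0 := by
  simp [population, h]

lemma population_zero_of_le {ξ : ℕ × X × ℕ → (X →₀ ℕ)} {x : X} {n m : ℕ} (hnm : n ≤ m)
    (h : population ξ x n = 0) : population ξ x m = 0 := by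
  induction m, hnm using Nat.le_induction with
  | base => exact h
  | succ m _ ih => exact population_zero_succ ih

lemma globalExt_tendsto (μ : X → PMF (X →₀ ℕ)) (x : X) :
    Tendsto (fun n => (genFun μ)^[n] 0 x) atTop (𝓝 (globalExt μ x)) := by
  have h1 : ∀ n, (offspringLaw μ).real {ξ | population ξ x n = 0} = (genFun μ)^[n] 0 x := by
    intro n
    have := real_ev μ x n 1 0 Set.univ Set.univ
    have e1 : ev x n 1 0 Set.univ Set.univ = {ξ | population ξ x n = 0} := by
      ext ξ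
      simp only [ev, Set.mem_ofPred_eq, Set.mem_univ, true_implies]
      constructor
      · rintro ⟨h, _⟩
        ext y
        exact h n le_rfl (Nat.lt_succ_self n) y
      · intro h
        refine ⟨fun m h1 h2 y => ?_, fun m h1 h2 => by omega⟩
        have : m = n := by omega
        subst this
        rw [h]; rfl
    have e2 : (op μ Set.univ)^[1] ((op μ Set.univ)^[0] 1) = 0 := by
      ext y; simp [op]
    rw [e1, e2] at this
    exact this
  simp_rw [← h1]
  have hmono : Monotone fun n => {ξ : ℕ × X × ℕ → (X →₀ ℕ) | population ξ x n = 0} :=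
    fun n m hnm ξ h => population_zero_of_le hnm h
  have h2 := tendsto_measure_iUnion_atTop (μ := offspringLaw μ) hmono
  have h3 : (⋃ n, {ξ : ℕ × X × ℕ → (X →₀ ℕ) | population ξ x n = 0}) =
      {ξ | ∃ n, population ξ x n = 0} := by ext; simp
  rw [h3] at h2
  exact (ENNReal.tendsto_toReal (measure_ne_top _ _)).comp h2

/-- no type of `F` alive from generation `n` on, and before that from generation `n` to `n+j` none
of `F` -/
def evInf (x : X) (n j : ℕ) (F F' : Set X) : Set (ℕ × X × ℕ → (X →₀ ℕ)) :=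
  {ξ | (∀ m, n ≤ m → m < n + j → ∀ y ∈ F, population ξ x m y = 0) ∧
    (∀ m, n + j ≤ m → ∀ y ∈ F', population ξ x m y = 0)}

lemma evInf_eq (x : X) (n j : ℕ) (F F' : Set X) : evInf x n j F F' = ⋂ k, ev x n j k F F' := by
  ext ξ
  simp only [evInf, ev, Set.mem_ofPred_eq, Set.mem_iInter]
  constructor
  · rintro ⟨h1, h2⟩ k
    exact ⟨h1, fun m hm _ => h2 m hm⟩
  · intro h
    exact ⟨(h 0).1, fun m hm => (h (m + 1)).2 m hm (by omega)⟩

lemma ev_anti (x : X) (n j : ℕ) (F F' : Set X) : Antitone fun k => ev x n j k F F' := by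
  intro k l hkl ξ h
  exact ⟨h.1, fun m h1 h2 => h.2 m h1 (by omega)⟩

lemma measurableSet_evInf (x : X) (n j : ℕ) (F F' : Set X) : MeasurableSet (evInf x n j F F') := by
  rw [evInf_eq]
  exact MeasurableSet.iInter fun k => measurableSet_ev x n j k F F'

lemma evInf_tendsto (μ : X → PMF (X →₀ ℕ)) (x : X) (n j : ℕ) (F F' : Set X) :
    Tendsto (fun k => ((genFun μ)^[n] ((op μ F)^[j] ((op μ F')^[k] 1))) x) atTop
      (𝓝 ((offspringLaw μ).real (evInf x n j F F'))) := by
  simp_rw [← real_ev]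
  have h2 := tendsto_measure_iInter_atTop (μ := offspringLaw μ)
    (s := fun k => ev x n j k F F')
    (fun k => (measurableSet_ev x n j k F F').nullMeasurableSet) (ev_anti x n j F F')
    ⟨0, measure_ne_top _ _⟩
  rw [← evInf_eq] at h2
  exact (ENNReal.tendsto_toReal (measure_ne_top _ _)).comp h2

/-- probability that types of `F` are never seen -/
noncomputable def avoid (μ : X → PMF (X →₀ ℕ)) (F : Set X) (x : X) : ℝ :=
  (offspringLaw μ).real (evInf x 0 0 F F)

lemma avoid_tendsto (μ : X → PMF (X →₀ ℕ)) (F : Set X) (x : X) :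
    Tendsto (fun k => ((op μ F)^[k] 1) x) atTop (𝓝 (avoid μ F x)) := by
  have := evInf_tendsto μ x 0 0 F F
  simp only [Function.iterate_zero, id_eq] at this
  exact this

lemma real_mem_Icc (μ : X → PMF (X →₀ ℕ)) (A : X → Set (ℕ × X × ℕ → (X →₀ ℕ))) :
    (fun x => (offspringLaw μ).real (A x)) ∈ (cube : Set (X → ℝ)) :=
  fun _ => ⟨measureReal_nonneg, measureReal_le_one⟩

lemma avoid_mem (μ : X → PMF (X →₀ ℕ)) (F : Set X) : avoid μ F ∈ cube := real_mem_Icc μ _

lemma op_tendsto (μ : X → PMF (X →₀ ℕ)) (F : Set X) {α : Type*} {l : Filter α} {s : α → X → ℝ}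
    {t : X → ℝ} (hs : ∀ a, s a ∈ cube) (h : ∀ x, Tendsto (fun a => s a x) l (𝓝 (t x))) (x : X) :
    Tendsto (fun a => op μ F (s a) x) l (𝓝 (op μ F t x)) := by
  unfold op
  split_ifs
  · exact tendsto_const_nhds
  · exact genFun_tendsto μ hs h x

lemma iter_tendsto {α : Type*} {l : Filter α} {T : (X → ℝ) → (X → ℝ)}
    (hT : ∀ s ∈ cube, T s ∈ cube)
    (hc : ∀ (s : α → X → ℝ) (t : X → ℝ), (∀ a, s a ∈ cube) →
      (∀ x, Tendsto (fun a => s a x) l (𝓝 (t x))) → ∀ x, Tendsto (fun a => T (s a) x) l (𝓝 (T t x)))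
    {s : α → X → ℝ} {t : X → ℝ} (hs : ∀ a, s a ∈ cube)
    (h : ∀ x, Tendsto (fun a => s a x) l (𝓝 (t x))) (n : ℕ) :
    ∀ x, Tendsto (fun a => T^[n] (s a) x) l (𝓝 (T^[n] t x)) := by
  induction n with
  | zero => exact h
  | succ n ih =>
    intro x
    simp only [Function.iterate_succ_apply']
    exact hc _ _ (fun a => iter_mem hT (hs a) n) ih x

lemma real_evInf (μ : X → PMF (X →₀ ℕ)) (x : X) (n j : ℕ) (F F' : Set X) :
    (offspringLaw μ).real (evInf x n j F F') =
      ((genFun μ)^[n] ((op μ F)^[j] (avoid μ F'))) x := by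
  refine tendsto_nhds_unique (evInf_tendsto μ x n j F F') ?_
  refine iter_tendsto (fun s hs => genFun_mem μ hs) (fun s t hs h => genFun_tendsto μ hs h)
    (fun k => iter_mem (fun s hs => op_mem μ F hs)
      (iter_mem (fun s hs => op_mem μ F' hs) one_mem k) j) ?_ n x
  exact iter_tendsto (fun s hs => op_mem μ F hs) (fun s t hs h => op_tendsto μ F hs h)
    (fun k => iter_mem (fun s hs => op_mem μ F' hs) one_mem k) (avoid_tendsto μ F') j

/-- probability that types of `F` are seen in finitely many generations only -/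
noncomputable def finVisit (μ : X → PMF (X →₀ ℕ)) (F : Set X) (x : X) : ℝ :=
  (offspringLaw μ).real {ξ | ∃ n, ∀ m, n ≤ m → ∀ y ∈ F, population ξ x m y = 0}

lemma finVisit_tendsto (μ : X → PMF (X →₀ ℕ)) (F : Set X) (x : X) :
    Tendsto (fun n => (genFun μ)^[n] (avoid μ F) x) atTop (𝓝 (finVisit μ F x)) := by
  have h1 : ∀ n, (genFun μ)^[n] (avoid μ F) x =
      (offspringLaw μ).real {ξ | ∀ m, n ≤ m → ∀ y ∈ F, population ξ x m y = 0} := by
    intro n
    have := real_evInf μ x n 0 F F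
    simp only [Function.iterate_zero, id_eq] at this
    rw [← this]
    congr 1
    ext ξ
    simp only [evInf, Set.mem_ofPred_eq, add_zero]
    constructor
    · exact fun h => h.2
    · exact fun h => ⟨fun m h1 h2 => by omega, h⟩
  simp_rw [h1]
  have hmono : Monotone fun n => {ξ : ℕ × X × ℕ → (X →₀ ℕ) | ∀ m, n ≤ m → ∀ y ∈ F,
      population ξ x m y = 0} :=
    fun n m hnm ξ h l hl => h l (le_trans hnm hl)
  have h2 := tendsto_measure_iUnion_atTop (μ := offspringLaw μ) hmono
  have h3 : (⋃ n, {ξ : ℕ × X × ℕ → (X →₀ ℕ) | ∀ m, n ≤ m → ∀ y ∈ F, population ξ x m y = 0}) =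
      {ξ | ∃ n, ∀ m, n ≤ m → ∀ y ∈ F, population ξ x m y = 0} := by ext; simp
  rw [h3] at h2
  exact (ENNReal.tendsto_toReal (measure_ne_top _ _)).comp h2

lemma finVisit_mem (μ : X → PMF (X →₀ ℕ)) (F : Set X) : finVisit μ F ∈ cube := real_mem_Icc μ _

lemma iterate_le_finVisit (μ : X → PMF (X →₀ ℕ)) (F : Set X) (j : ℕ) (x : X) :
    (genFun μ)^[j] (avoid μ F) x ≤ finVisit μ F x := by
  have := real_evInf μ x j 0 F F
  simp only [Function.iterate_zero, id_eq] at this
  rw [← this]
  refine measureReal_mono ?_ (measure_ne_top _ _)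
  intro ξ h
  exact ⟨j, h.2⟩

lemma genFun_finVisit (μ : X → PMF (X →₀ ℕ)) (F : Set X) :
    genFun μ (finVisit μ F) = finVisit μ F := by
  ext x
  have h1 := genFun_tendsto μ (fun n => iter_mem (fun s hs => genFun_mem μ hs) (avoid_mem μ F) n)
    (finVisit_tendsto μ F) x
  have h2 := (tendsto_add_atTop_iff_nat 1).mpr (finVisit_tendsto μ F x)
  simp only [Function.iterate_succ_apply'] at h2
  exact tendsto_nhds_unique h1 h2


lemma exhaustion (X : Type u) [Countable X] :
    ∃ S : ℕ → Set X, Monotone S ∧ (∀ n, (S n).Finite) ∧ ∀ x, ∃ n, x ∈ S n := by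
  obtain ⟨e, he⟩ := Countable.exists_injective_nat X
  refine ⟨fun n => e ⁻¹' (Set.Iio n), fun m n hmn => Set.preimage_mono (Set.Iio_subset_Iio hmn),
    fun n => (Set.finite_Iio n).preimage he.injOn, fun x => ⟨e x + 1, ?_⟩⟩
  simp

lemma finVisit_exhaust_tendsto (μ : X → PMF (X →₀ ℕ)) {S : ℕ → Set X} (hS : Monotone S)
    (hfin : ∀ n, (S n).Finite) (hex : ∀ x, ∃ n, x ∈ S n) (x : X) :
    Tendsto (fun N => finVisit μ (S N) x) atTop (𝓝 (localExt μ x)) := by
  have hmeas : ∀ N, MeasurableSet {ξ : ℕ × X × ℕ → (X →₀ ℕ) | ∃ n, ∀ m, n ≤ m → ∀ y ∈ S N,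
      population ξ x m y = 0} := by
    intro N
    have : {ξ : ℕ × X × ℕ → (X →₀ ℕ) | ∃ n, ∀ m, n ≤ m → ∀ y ∈ S N, population ξ x m y = 0} =
        ⋃ n, ⋂ m, ⋂ (_ : n ≤ m), {ξ | population ξ x m ∈ {z : X →₀ ℕ | ∀ y ∈ S N, z y = 0}} := by
      ext ξ; simp
    rw [this]
    exact MeasurableSet.iUnion fun n => MeasurableSet.iInter fun m => MeasurableSet.iInter fun _ =>
      measurableSet_pop x m _
  have hanti : Antitone fun N => {ξ : ℕ × X × ℕ → (X →₀ ℕ) | ∃ n, ∀ m, n ≤ m → ∀ y ∈ S N,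
      population ξ x m y = 0} := by
    rintro N M hNM ξ ⟨n, h⟩
    exact ⟨n, fun m hm y hy => h m hm y (hS hNM hy)⟩
  have h2 := tendsto_measure_iInter_atTop (μ := offspringLaw μ)
    (fun N => (hmeas N).nullMeasurableSet) hanti ⟨0, measure_ne_top _ _⟩
  have h3 : (⋂ N, {ξ : ℕ × X × ℕ → (X →₀ ℕ) | ∃ n, ∀ m, n ≤ m → ∀ y ∈ S N,
      population ξ x m y = 0}) = {ξ | ∀ y, ∃ N, ∀ n ≥ N, population ξ x n y = 0} := by
    ext ξ
    simp only [Set.mem_iInter, Set.mem_ofPred_eq]
    constructor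
    · intro h y
      obtain ⟨N, hN⟩ := hex y
      obtain ⟨n, hn⟩ := h N
      exact ⟨n, fun m hm => hn m hm y hN⟩
    · intro h N
      choose! f hf using h
      obtain ⟨n, hn⟩ : ∃ n, ∀ y ∈ S N, f y ≤ n := by
        obtain ⟨n, hn⟩ := ((hfin N).image f).bddAbove
        exact ⟨n, fun y hy => hn ⟨y, hy, rfl⟩⟩
      exact ⟨n, fun m hm y hy => hf y m (le_trans (hn y hy) hm)⟩
  rw [h3] at h2
  exact (ENNReal.tendsto_toReal (measure_ne_top _ _)).comp h2

lemma localExt_mem (μ : X → PMF (X →₀ ℕ)) : localExt μ ∈ cube := real_mem_Icc μ _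

lemma globalExt_mem (μ : X → PMF (X →₀ ℕ)) : globalExt μ ∈ cube := real_mem_Icc μ _

lemma globalExt_le_localExt (μ : X → PMF (X →₀ ℕ)) : globalExt μ ≤ localExt μ := by
  intro x
  refine measureReal_mono ?_ (measure_ne_top _ _)
  rintro ξ ⟨n, hn⟩ y
  exact ⟨n, fun m hm => by rw [population_zero_of_le hm hn]; rfl⟩

lemma genFun_localExt (μ : X → PMF (X →₀ ℕ)) : genFun μ (localExt μ) = localExt μ := by
  obtain ⟨S, hS, hfin, hex⟩ := exhaustion X
  ext x
  have h1 := genFun_tendsto μ (fun N => finVisit_mem μ (S N))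
    (finVisit_exhaust_tendsto μ hS hfin hex) x
  simp only [genFun_finVisit] at h1
  exact tendsto_nhds_unique h1 (finVisit_exhaust_tendsto μ hS hfin hex x)

lemma genFun_globalExt (μ : X → PMF (X →₀ ℕ)) : genFun μ (globalExt μ) = globalExt μ := by
  ext x
  have h1 := genFun_tendsto μ (fun n => iter_mem (fun s hs => genFun_mem μ hs) zero_mem n)
    (globalExt_tendsto μ) x
  have h2 := (tendsto_add_atTop_iff_nat 1).mpr (globalExt_tendsto μ x)
  simp only [Function.iterate_succ_apply'] at h2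
  exact tendsto_nhds_unique h1 h2

/-- iterating a monotone self-map of the cube below a supersolution -/
lemma iter_le_super {T : (X → ℝ) → (X → ℝ)} (hT : ∀ s ∈ cube, T s ∈ cube)
    (hm : ∀ s ∈ cube, ∀ t ∈ cube, s ≤ t → T s ≤ T t) {s w : X → ℝ} (hs : s ∈ cube) (hw : w ∈ cube)
    (hsw : s ≤ w) (hTw : T w ≤ w) (n : ℕ) : T^[n] s ≤ w := by
  induction n with
  | zero => exact hsw
  | succ n ih =>
    rw [Function.iterate_succ_apply']
    exact (hm _ (iter_mem hT hs n) _ hw ih).trans hTw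

lemma iter_mono {T : (X → ℝ) → (X → ℝ)} (hT : ∀ s ∈ cube, T s ∈ cube)
    (hm : ∀ s ∈ cube, ∀ t ∈ cube, s ≤ t → T s ≤ T t) {s t : X → ℝ} (hs : s ∈ cube) (ht : t ∈ cube)
    (hst : s ≤ t) (n : ℕ) : T^[n] s ≤ T^[n] t := by
  induction n with
  | zero => exact hst
  | succ n ih =>
    rw [Function.iterate_succ_apply', Function.iterate_succ_apply']
    exact hm _ (iter_mem hT hs n) _ (iter_mem hT ht n) ih

lemma globalExt_le_super (μ : X → PMF (X →₀ ℕ)) {w : X → ℝ} (hw : w ∈ cube)
    (hGw : genFun μ w ≤ w) : globalExt μ ≤ w := by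
  intro x
  refine le_of_tendsto (globalExt_tendsto μ x) (Eventually.of_forall fun n => ?_)
  exact iter_le_super (fun s hs => genFun_mem μ hs) (fun s hs t ht h => genFun_mono μ hs ht h)
    zero_mem hw (fun y => (hw y).1) hGw n x

lemma avoid_eq_zero (μ : X → PMF (X →₀ ℕ)) {F : Set X} {x : X} (hx : x ∈ F) : avoid μ F x = 0 := by
  have h := avoid_tendsto μ F x
  have h2 := (tendsto_add_atTop_iff_nat 1).mpr h
  simp only [Function.iterate_succ_apply', op, if_pos hx] at h2
  exact (tendsto_nhds_unique h2 tendsto_const_nhds)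

lemma op_le_genFun (μ : X → PMF (X →₀ ℕ)) (F : Set X) {s : X → ℝ} (hs : s ∈ cube) :
    op μ F s ≤ genFun μ s := by
  intro x
  unfold op
  split_ifs
  · exact (genFun_mem μ hs x).1
  · exact le_rfl

lemma iter_op_le (μ : X → PMF (X →₀ ℕ)) (F : Set X) {s : X → ℝ} (hs : s ∈ cube) (n : ℕ) :
    (op μ F)^[n] s ≤ (genFun μ)^[n] s := by
  induction n with
  | zero => exact le_rfl
  | succ n ih =>
    rw [Function.iterate_succ_apply', Function.iterate_succ_apply']
    exact (op_le_genFun μ F (iter_mem (fun s hs => op_mem μ F hs) hs n)).trans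
      (genFun_mono μ (iter_mem (fun s hs => op_mem μ F hs) hs n)
        (iter_mem (fun s hs => genFun_mem μ hs) hs n) ih)

open Classical in
/-- The key fact: `localExt` is determined by its values off a finite set. -/
lemma localExt_le_super (μ : X → PMF (X →₀ ℕ)) {F : Set X} (hF : F.Finite) {w : X → ℝ}
    (hw : w ∈ cube) (hoff : ∀ x, x ∉ F → localExt μ x ≤ w x) (hGw : genFun μ w ≤ w) :
    localExt μ ≤ w := by
  obtain ⟨S, hS, hfin, hex⟩ := exhaustion X
  -- F is contained in some S N0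
  obtain ⟨N0, hN0⟩ : ∃ N0, F ⊆ S N0 := by
    choose f hf using hex
    obtain ⟨n, hn⟩ := (hF.image f).bddAbove
    exact ⟨n, fun y hy => hS (hn ⟨y, hy, rfl⟩) (hf y)⟩
  intro x
  set PE : Set (ℕ × X × ℕ → (X →₀ ℕ)) := {ξ | ∀ y, ∃ N, ∀ n ≥ N, population ξ x n y = 0} with hPE
  have hlocal : localExt μ x = (offspringLaw μ).real PE := rfl
  -- bounds at level n
  have hbound : ∀ n, (offspringLaw μ).real
      (PE ∩ {ξ | ∀ m, n ≤ m → ∀ y ∈ F, population ξ x m y = 0}) ≤ w x := by
    intro n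
    have hN : ∀ N, N0 ≤ N → (offspringLaw μ).real
        (PE ∩ {ξ | ∀ m, n ≤ m → ∀ y ∈ F, population ξ x m y = 0}) ≤
        (genFun μ)^[n] (fun y => if y ∈ F then 0 else finVisit μ (S N) y) x := by
      intro N hNN
      have hFS : F ⊆ S N := hN0.trans (hS hNN)
      set c : X → ℝ := fun y => if y ∈ F then 0 else finVisit μ (S N) y with hc
      have hcm : c ∈ cube := by
        intro y
        simp only [hc]
        split_ifs
        · simp
        · exact finVisit_mem μ (S N) y
      have hj : ∀ j, (offspringLaw μ).real (evInf x n j F (S N)) ≤ (genFun μ)^[n] c x := by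
        intro j
        rw [real_evInf]
        refine iter_mono (fun s hs => genFun_mem μ hs) (fun s hs t ht h => genFun_mono μ hs ht h)
          (iter_mem (fun s hs => op_mem μ F hs) (avoid_mem μ _) j) hcm ?_ n x
        intro y
        simp only [hc]
        split_ifs with hy
        · cases j with
          | zero => simp only [Function.iterate_zero, id_eq]; exact (avoid_eq_zero μ (hFS hy)).le
          | succ j =>
            rw [Function.iterate_succ_apply']
            simp [op, hy]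
        · exact (iter_op_le μ F (avoid_mem μ _) j y).trans (iterate_le_finVisit μ (S N) j y)
      have hmono : Monotone fun j => evInf x n j F (S N) := by
        intro j k hjk ξ h
        refine ⟨fun m h1 h2 y hy => ?_, fun m h1 y hy => h.2 m (by omega) y hy⟩
        by_cases hm : m < n + j
        · exact h.1 m h1 hm y hy
        · exact h.2 m (by omega) y (hFS hy)
      have h2 := tendsto_measure_iUnion_atTop (μ := offspringLaw μ) hmono
      have h3 := (ENNReal.tendsto_toReal (measure_ne_top _ _)).comp h2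
      have h4 : (offspringLaw μ).real (⋃ j, evInf x n j F (S N)) ≤ (genFun μ)^[n] c x :=
        le_of_tendsto h3 (Eventually.of_forall hj)
      refine (measureReal_mono ?_ (measure_ne_top _ _)).trans h4
      rintro ξ ⟨h5, h6⟩
      choose f hf using h5
      obtain ⟨k, hk⟩ := ((hfin N).image f).bddAbove
      refine Set.mem_iUnion.mpr ⟨k, fun m h1 _ y hy => h6 m h1 y hy, fun m h1 y hy => ?_⟩
      exact hf y m (le_trans (hk ⟨y, hy, rfl⟩) (by omega))
    set c : X → ℝ := fun y => if y ∈ F then 0 else localExt μ y with hc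
    have hcm : c ∈ cube := by
      intro y
      simp only [hc]
      split_ifs
      · simp
      · exact localExt_mem μ y
    have hcw : c ≤ w := by
      intro y
      simp only [hc]
      split_ifs with hy
      · exact (hw y).1
      · exact hoff y hy
    have hlim : Tendsto (fun N => (genFun μ)^[n] (fun y => if y ∈ F then 0 else
        finVisit μ (S N) y) x) atTop (𝓝 ((genFun μ)^[n] c x)) := by
      refine iter_tendsto (fun s hs => genFun_mem μ hs) (fun s t hs h => genFun_tendsto μ hs h)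
        (fun N y => ?_) (fun y => ?_) n x
      · split_ifs
        · simp
        · exact finVisit_mem μ (S N) y
      · simp only [hc]
        split_ifs
        · exact tendsto_const_nhds
        · exact finVisit_exhaust_tendsto μ hS hfin hex y
    have h1 := ge_of_tendsto hlim (eventually_atTop.mpr ⟨N0, hN⟩)
    exact h1.trans (iter_le_super (fun s hs => genFun_mem μ hs)
      (fun s hs t ht h => genFun_mono μ hs ht h) hcm hw hcw hGw n x)
  have hmono : Monotone fun n => PE ∩ {ξ : ℕ × X × ℕ → (X →₀ ℕ) | ∀ m, n ≤ m → ∀ y ∈ F,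
      population ξ x m y = 0} :=
    fun n m hnm ξ h => ⟨h.1, fun l hl => h.2 l (le_trans hnm hl)⟩
  have h2 := tendsto_measure_iUnion_atTop (μ := offspringLaw μ) hmono
  have h3 := (ENNReal.tendsto_toReal (measure_ne_top _ _)).comp h2
  have h4 : (offspringLaw μ).real (⋃ n, PE ∩ {ξ : ℕ × X × ℕ → (X →₀ ℕ) | ∀ m, n ≤ m → ∀ y ∈ F,
      population ξ x m y = 0}) ≤ w x :=
    le_of_tendsto h3 (Eventually.of_forall hbound)
  rw [hlocal]
  refine (measureReal_mono ?_ (measure_ne_top _ _)).trans h4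
  intro ξ h5
  have h6 := h5
  rw [hPE] at h6
  simp only [Set.mem_ofPred_eq] at h6
  choose f hf using h6
  obtain ⟨k, hk⟩ := (hF.image f).bddAbove
  refine Set.mem_iUnion.mpr ⟨k, h5, fun m h1 y hy => ?_⟩
  exact hf y m (le_trans (hk ⟨y, hy, rfl⟩) h1)


/-! ### The Dirichlet problem on a finite set -/

open Classical in
/-- `genFun` on `F`, boundary value `v` off `F` -/
noncomputable def dir (μ : X → PMF (X →₀ ℕ)) (F : Set X) (v s : X → ℝ) (x : X) : ℝ :=
  if x ∈ F then genFun μ s x else v x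

open Classical in
noncomputable def bot0 (F : Set X) (v : X → ℝ) (x : X) : ℝ := if x ∈ F then 0 else v x

noncomputable def dirIter (μ : X → PMF (X →₀ ℕ)) (F : Set X) (v : X → ℝ) (k : ℕ) : X → ℝ :=
  (dir μ F v)^[k] (bot0 F v)

lemma bot0_mem (F : Set X) {v : X → ℝ} (hv : v ∈ cube) : bot0 F v ∈ cube := by
  intro x; unfold bot0; split_ifs
  · simp
  · exact hv x

lemma dir_mem (μ : X → PMF (X →₀ ℕ)) (F : Set X) {v : X → ℝ} (hv : v ∈ cube) {s : X → ℝ}
    (hs : s ∈ cube) : dir μ F v s ∈ cube := by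
  intro x; unfold dir; split_ifs
  · exact genFun_mem μ hs x
  · exact hv x

lemma dirIter_mem (μ : X → PMF (X →₀ ℕ)) (F : Set X) {v : X → ℝ} (hv : v ∈ cube) (k : ℕ) :
    dirIter μ F v k ∈ cube :=
  iter_mem (fun s hs => dir_mem μ F hv hs) (bot0_mem F hv) k

lemma dir_mono (μ : X → PMF (X →₀ ℕ)) (F : Set X) {v v' : X → ℝ} (hvv : v ≤ v') {s t : X → ℝ}
    (hs : s ∈ cube) (ht : t ∈ cube) (hst : s ≤ t) : dir μ F v s ≤ dir μ F v' t := by
  intro x; unfold dir; split_ifs
  · exact genFun_mono μ hs ht hst x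
  · exact hvv x

lemma dirIter_succ (μ : X → PMF (X →₀ ℕ)) (F : Set X) (v : X → ℝ) (k : ℕ) :
    dirIter μ F v (k + 1) = dir μ F v (dirIter μ F v k) := by
  unfold dirIter; rw [Function.iterate_succ_apply']

lemma dirIter_mono_v (μ : X → PMF (X →₀ ℕ)) (F : Set X) {v v' : X → ℝ} (hv : v ∈ cube)
    (hv' : v' ∈ cube) (hvv : v ≤ v') (k : ℕ) : dirIter μ F v k ≤ dirIter μ F v' k := by
  induction k with
  | zero =>
    intro x; simp only [dirIter, Function.iterate_zero, id_eq, bot0]; split_ifs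
    · exact le_rfl
    · exact hvv x
  | succ k ih =>
    rw [dirIter_succ, dirIter_succ]
    exact dir_mono μ F hvv (dirIter_mem μ F hv k) (dirIter_mem μ F hv' k) ih

lemma dirIter_le_succ (μ : X → PMF (X →₀ ℕ)) (F : Set X) {v : X → ℝ} (hv : v ∈ cube) (k : ℕ) :
    dirIter μ F v k ≤ dirIter μ F v (k + 1) := by
  induction k with
  | zero =>
    intro x
    rw [dirIter_succ]
    simp only [dirIter, Function.iterate_zero, id_eq, dir]
    by_cases hx : x ∈ F
    · rw [if_pos hx, show bot0 F v x = 0 by simp [bot0, hx]]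
      exact (genFun_mem μ (bot0_mem F hv) x).1
    · rw [if_neg hx]; simp [bot0, hx]
  | succ k ih =>
    rw [dirIter_succ, dirIter_succ μ F v (k + 1)]
    exact dir_mono μ F le_rfl (dirIter_mem μ F hv k) (dirIter_mem μ F hv (k + 1)) ih

lemma dirIter_monotone (μ : X → PMF (X →₀ ℕ)) (F : Set X) {v : X → ℝ} (hv : v ∈ cube) :
    Monotone (dirIter μ F v) := monotone_nat_of_le_succ (dirIter_le_succ μ F hv)

/-- increments in `k` grow with the boundary value -/
lemma dirIter_incr (μ : X → PMF (X →₀ ℕ)) (F : Set X) {v v' : X → ℝ} (hv : v ∈ cube)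
    (hv' : v' ∈ cube) (hvv : v ≤ v') (k : ℕ) :
    dirIter μ F v (k + 1) - dirIter μ F v k ≤ dirIter μ F v' (k + 1) - dirIter μ F v' k := by
  induction k with
  | zero =>
    intro x
    simp only [dirIter_succ, Pi.sub_apply]
    simp only [dirIter, Function.iterate_zero, id_eq, dir, bot0]
    split_ifs with hx
    · have := genFun_mono μ (bot0_mem F hv) (bot0_mem F hv')
        (dirIter_mono_v μ F hv hv' hvv 0) x
      simp only [bot0] at this
      linarith
    · simp
  | succ k ih =>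
    have h1 := genFun_incr μ (dirIter_mem μ F hv k) (dirIter_mem μ F hv (k+1))
      (dirIter_mem μ F hv' k) (dirIter_mem μ F hv' (k+1)) (dirIter_le_succ μ F hv k)
      (dirIter_mono_v μ F hv hv' hvv k) ih
    intro x
    rw [dirIter_succ μ F v (k + 1), dirIter_succ μ F v' (k + 1)]
    have e1 := dirIter_succ μ F v k
    have e2 := dirIter_succ μ F v' k
    simp only [Pi.sub_apply]
    by_cases hx : x ∈ F
    · have e3 : dirIter μ F v (k+1) x = genFun μ (dirIter μ F v k) x := by rw [e1]; simp [dir, hx]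
      have e4 : dirIter μ F v' (k+1) x = genFun μ (dirIter μ F v' k) x := by rw [e2]; simp [dir, hx]
      have e5 : dir μ F v (dirIter μ F v (k+1)) x = genFun μ (dirIter μ F v (k+1)) x := by
        simp [dir, hx]
      have e6 : dir μ F v' (dirIter μ F v' (k+1)) x = genFun μ (dirIter μ F v' (k+1)) x := by
        simp [dir, hx]
      rw [e5, e6]
      have := h1 x
      simp only [Pi.sub_apply] at this
      linarith
    · have e3 : dirIter μ F v (k+1) x = v x := by rw [e1]; simp [dir, hx]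
      have e4 : dirIter μ F v' (k+1) x = v' x := by rw [e2]; simp [dir, hx]
      simp [dir, hx, e3, e4]

lemma dirIter_incr_le (μ : X → PMF (X →₀ ℕ)) (F : Set X) {v v' : X → ℝ} (hv : v ∈ cube)
    (hv' : v' ∈ cube) (hvv : v ≤ v') {k l : ℕ} (hkl : k ≤ l) (x : X) :
    dirIter μ F v l x - dirIter μ F v k x ≤ dirIter μ F v' l x - dirIter μ F v' k x := by
  induction l, hkl using Nat.le_induction with
  | base => simp
  | succ l _ ih =>
    have := dirIter_incr μ F hv hv' hvv l x
    simp only [Pi.sub_apply] at this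
    linarith

noncomputable def sol (μ : X → PMF (X →₀ ℕ)) (F : Set X) (v : X → ℝ) (x : X) : ℝ :=
  ⨆ k, dirIter μ F v k x

lemma sol_tendsto (μ : X → PMF (X →₀ ℕ)) (F : Set X) {v : X → ℝ} (hv : v ∈ cube) (x : X) :
    Tendsto (fun k => dirIter μ F v k x) atTop (𝓝 (sol μ F v x)) :=
  tendsto_atTop_ciSup (fun k l hkl => dirIter_monotone μ F hv hkl x)
    ⟨1, by rintro _ ⟨k, rfl⟩; exact (dirIter_mem μ F hv k x).2⟩

lemma sol_mem (μ : X → PMF (X →₀ ℕ)) (F : Set X) {v : X → ℝ} (hv : v ∈ cube) :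
    sol μ F v ∈ cube := fun x =>
  ⟨ge_of_tendsto (sol_tendsto μ F hv x) (Eventually.of_forall fun k => (dirIter_mem μ F hv k x).1),
    le_of_tendsto (sol_tendsto μ F hv x) (Eventually.of_forall fun k => (dirIter_mem μ F hv k x).2)⟩

lemma sol_fix (μ : X → PMF (X →₀ ℕ)) (F : Set X) {v : X → ℝ} (hv : v ∈ cube) :
    dir μ F v (sol μ F v) = sol μ F v := by
  ext x
  have h2 := (tendsto_add_atTop_iff_nat 1).mpr (sol_tendsto μ F hv x)
  simp only [dirIter_succ] at h2
  refine tendsto_nhds_unique ?_ h2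
  unfold dir
  split_ifs
  · exact genFun_tendsto μ (fun k => dirIter_mem μ F hv k) (sol_tendsto μ F hv) x
  · exact tendsto_const_nhds

lemma sol_mono (μ : X → PMF (X →₀ ℕ)) (F : Set X) {v v' : X → ℝ} (hv : v ∈ cube)
    (hv' : v' ∈ cube) (hvv : v ≤ v') : sol μ F v ≤ sol μ F v' := fun x =>
  le_of_tendsto_of_tendsto' (sol_tendsto μ F hv x) (sol_tendsto μ F hv' x)
    fun k => dirIter_mono_v μ F hv hv' hvv k x

lemma sol_le_of_fix (μ : X → PMF (X →₀ ℕ)) (F : Set X) {v : X → ℝ} (hv : v ∈ cube)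
    (hG : genFun μ v = v) : sol μ F v ≤ v := by
  intro x
  refine le_of_tendsto (sol_tendsto μ F hv x) (Eventually.of_forall fun k => ?_)
  refine iter_le_super (T := dir μ F v) (fun s hs => dir_mem μ F hv hs)
    (fun s hs t ht h => dir_mono μ F le_rfl hs ht h) (bot0_mem F hv) hv ?_ ?_ k x
  · intro y; unfold bot0; split_ifs
    · exact (hv y).1
    · exact le_rfl
  · intro y; unfold dir; split_ifs
    · rw [hG]
    · exact le_rfl

/-- the solution with a fixed point as boundary value is a supersolution -/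
lemma sol_super (μ : X → PMF (X →₀ ℕ)) (F : Set X) {v : X → ℝ} (hv : v ∈ cube)
    (hG : genFun μ v = v) : genFun μ (sol μ F v) ≤ sol μ F v := by
  intro x
  have h := congrFun (sol_fix μ F hv) x
  by_cases hx : x ∈ F
  · have e : dir μ F v (sol μ F v) x = genFun μ (sol μ F v) x := by simp [dir, hx]
    rw [← e, h]
  · have e : dir μ F v (sol μ F v) x = v x := by simp [dir, hx]
    rw [← h, e]
    calc genFun μ (sol μ F v) x ≤ genFun μ v x :=
          genFun_mono μ (sol_mem μ F hv) hv (sol_le_of_fix μ F hv hG) x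
      _ = v x := by rw [hG]

lemma sol_global (μ : X → PMF (X →₀ ℕ)) (F : Set X) : sol μ F (globalExt μ) = globalExt μ :=
  le_antisymm (sol_le_of_fix μ F (globalExt_mem μ) (genFun_globalExt μ))
    (globalExt_le_super μ (sol_mem μ F (globalExt_mem μ))
      (sol_super μ F (globalExt_mem μ) (genFun_globalExt μ)))

lemma sol_local (μ : X → PMF (X →₀ ℕ)) {F : Set X} (hF : F.Finite) :
    sol μ F (localExt μ) = localExt μ := by
  refine le_antisymm (sol_le_of_fix μ F (localExt_mem μ) (genFun_localExt μ))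
    (localExt_le_super μ hF (sol_mem μ F (localExt_mem μ)) (fun x hx => ?_)
      (sol_super μ F (localExt_mem μ) (genFun_localExt μ)))
  have h := congrFun (sol_fix μ F (localExt_mem μ)) x
  rw [← h]
  simp [dir, hx]

/-- the segment of boundary values -/
noncomputable def seg (μ : X → PMF (X →₀ ℕ)) (θ : unitInterval) (x : X) : ℝ :=
  (1 - (θ : ℝ)) * globalExt μ x + θ * localExt μ x

lemma seg_mem (μ : X → PMF (X →₀ ℕ)) (θ : unitInterval) : seg μ θ ∈ cube := by
  intro x
  have h1 := globalExt_mem μ x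
  have h2 := localExt_mem μ x
  have h3 : (0 : ℝ) ≤ θ := θ.2.1
  have h4 : (θ : ℝ) ≤ 1 := θ.2.2
  constructor
  · unfold seg
    have := mul_nonneg (sub_nonneg.mpr h4) h1.1
    have := mul_nonneg h3 h2.1
    linarith
  · unfold seg; nlinarith [h1.1, h1.2, h2.1, h2.2]

lemma global_le_seg (μ : X → PMF (X →₀ ℕ)) (θ : unitInterval) : globalExt μ ≤ seg μ θ := by
  intro x
  have h := globalExt_le_localExt μ x
  have h3 : (0 : ℝ) ≤ θ := θ.2.1
  unfold seg; nlinarith

lemma seg_le_local (μ : X → PMF (X →₀ ℕ)) (θ : unitInterval) : seg μ θ ≤ localExt μ := by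
  intro x
  have h := globalExt_le_localExt μ x
  have h4 : (θ : ℝ) ≤ 1 := θ.2.2
  unfold seg; nlinarith

lemma continuous_dirIter (μ : X → PMF (X →₀ ℕ)) (F : Set X) (k : ℕ) :
    ∀ x, Continuous fun θ : unitInterval => dirIter μ F (seg μ θ) k x := by
  have hseg : ∀ x, Continuous fun θ : unitInterval => seg μ θ x := by
    intro x; unfold seg; fun_prop
  induction k with
  | zero =>
    intro x
    simp only [dirIter, Function.iterate_zero, id_eq, bot0]
    split_ifs
    · exact continuous_const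
    · exact hseg x
  | succ k ih =>
    intro x
    simp only [dirIter_succ, dir]
    split_ifs
    · rw [continuous_iff_continuousAt]
      intro θ
      exact genFun_tendsto μ (fun θ' => dirIter_mem μ F (seg_mem μ θ') k)
        (fun y => (ih y).continuousAt) x
    · exact hseg x

lemma continuous_sol (μ : X → PMF (X →₀ ℕ)) (F : Set X) (x : X) :
    Continuous fun θ : unitInterval => sol μ F (seg μ θ) x := by
  have hone := sol_tendsto μ F (one_mem (X := X)) x
  have hunif : TendstoUniformly (fun (k : ℕ) (θ : unitInterval) => dirIter μ F (seg μ θ) k x)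
      (fun θ => sol μ F (seg μ θ) x) atTop := by
    rw [Metric.tendstoUniformly_iff]
    intro ε hε
    have h1 : ∀ᶠ k in atTop, sol μ F 1 x - ε < dirIter μ F 1 k x :=
      hone.eventually (lt_mem_nhds (by linarith))
    filter_upwards [h1] with k hk θ
    have hv := seg_mem μ θ
    have h2 : dirIter μ F (seg μ θ) k x ≤ sol μ F (seg μ θ) x :=
      ge_of_tendsto (sol_tendsto μ F hv x) (eventually_atTop.mpr ⟨k, fun l hl =>
        dirIter_monotone μ F hv hl x⟩)
    have h3 : sol μ F (seg μ θ) x - dirIter μ F (seg μ θ) k x ≤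
        sol μ F 1 x - dirIter μ F 1 k x := by
      refine le_of_tendsto_of_tendsto ((sol_tendsto μ F hv x).sub_const _)
        (hone.sub_const _) (eventually_atTop.mpr ⟨k, fun l hl => ?_⟩)
      exact dirIter_incr_le μ F hv one_mem (fun y => (hv y).2) hl x
    rw [Real.dist_eq, abs_of_nonneg (by linarith)]
    linarith
  exact hunif.continuous (Frequently.of_forall fun k => continuous_dirIter μ F k x)

/-- approximate fixed points with prescribed value -/
lemma exists_approx (μ : X → PMF (X →₀ ℕ)) {F : Set X} (hF : F.Finite) (x₀ : X) {t : ℝ}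
    (ht : t ∈ Set.Icc (globalExt μ x₀) (localExt μ x₀)) :
    ∃ s ∈ cube, s x₀ = t ∧ globalExt μ ≤ s ∧ s ≤ localExt μ ∧ ∀ x ∈ F, genFun μ s x = s x := by
  have h0 : seg μ 0 = globalExt μ := by ext x; simp [seg]
  have h1 : seg μ 1 = localExt μ := by ext x; simp [seg]
  obtain ⟨θ, hθ⟩ := mem_range_of_exists_le_of_exists_ge (continuous_sol μ F x₀) (c := t)
    ⟨0, by rw [h0, sol_global]; exact ht.1⟩ ⟨1, by rw [h1, sol_local μ hF]; exact ht.2⟩
  refine ⟨sol μ F (seg μ θ), sol_mem μ F (seg_mem μ θ), hθ, ?_, ?_, fun x hx => ?_⟩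
  · conv_lhs => rw [← sol_global μ F]
    exact sol_mono μ F (globalExt_mem μ) (seg_mem μ θ) (global_le_seg μ θ)
  · conv_rhs => rw [← sol_local μ hF]
    exact sol_mono μ F (seg_mem μ θ) (localExt_mem μ) (seg_le_local μ θ)
  · have h := congrFun (sol_fix μ F (seg_mem μ θ)) x
    rw [← h]
    conv_rhs => rw [dir, if_pos hx]

/-- Every value between the two extinction probabilities is attained by a fixed point. -/
theorem exists_fixedPoint (μ : X → PMF (X →₀ ℕ)) (x₀ : X) {t : ℝ}
    (ht : t ∈ Set.Icc (globalExt μ x₀) (localExt μ x₀)) :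
    ∃ s ∈ cube, genFun μ s = s ∧ globalExt μ ≤ s ∧ s ≤ localExt μ ∧ s x₀ = t := by
  obtain ⟨S, hS, hfin, hex⟩ := exhaustion X
  choose s hs h1 h2 h3 h4 using fun n => exists_approx μ (hfin n) x₀ ht
  have hcomp : IsCompact (cube : Set (X → ℝ)) := by
    have : (cube : Set (X → ℝ)) = Set.pi Set.univ fun _ => Set.Icc (0 : ℝ) 1 := by
      ext f; simp only [cube, Set.mem_ofPred_eq, Set.mem_pi, Set.mem_univ, true_implies, Set.mem_Icc]
    rw [this]
    exact isCompact_univ_pi fun _ => isCompact_Icc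
  obtain ⟨w, hw, hlim⟩ := hcomp.ultrafilter_le_nhds ((hyperfilter ℕ).map s)
    (by
      rw [Ultrafilter.coe_map, le_principal_iff, mem_map]
      exact Filter.univ_mem' hs)
  have hlim' : Tendsto s (hyperfilter ℕ : Filter ℕ) (𝓝 w) := hlim
  rw [tendsto_pi_nhds] at hlim'
  refine ⟨w, hw, ?_, ?_, ?_, ?_⟩
  · ext x
    refine tendsto_nhds_unique (genFun_tendsto μ hs hlim' x) ?_
    refine (hlim' x).congr' ?_
    obtain ⟨N, hN⟩ := hex x
    have : ∀ᶠ n in atTop, s n x = genFun μ (s n) x :=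
      eventually_atTop.mpr ⟨N, fun n hn => (h4 n x (hS hn hN)).symm⟩
    have h5 : (hyperfilter ℕ : Filter ℕ) ≤ atTop := by
      rw [← Nat.cofinite_eq_atTop]; exact hyperfilter_le_cofinite
    exact h5 this
  · intro x
    exact ge_of_tendsto (hlim' x) (Eventually.of_forall fun n => h2 n x)
  · intro x
    exact le_of_tendsto (hlim' x) (Eventually.of_forall fun n => h3 n x)
  · refine tendsto_nhds_unique (hlim' x₀) ?_
    simp only [h1]
    exact tendsto_const_nhds

/-- If the global extinction vector `q` and the vector `q~` of probabilities that every type is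
present in only finitely many generations are different, then the set of fixed points `s` of the
generating function with `q ≤ s ≤ q~` has the cardinality of the continuum. -/
theorem continuum_fixedPoints {X : Type u} [Countable X] (μ : X → PMF (X →₀ ℕ)) (h : globalExt μ ≠ localExt μ) :
    Cardinal.mk {s : X → ℝ // (∀ x, s x ∈ Set.Icc (0 : ℝ) 1) ∧ genFun μ s = s ∧
      globalExt μ ≤ s ∧ s ≤ localExt μ} = Cardinal.continuum := by
  apply le_antisymm
  · refine (Cardinal.mk_subtype_le _).trans ?_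
    have : Cardinal.mk (X → ℝ) = Cardinal.lift.{u} (Cardinal.mk ℝ) ^ Cardinal.lift.{0} (Cardinal.mk X) := by
      rw [Cardinal.mk_arrow]
    rw [this, Cardinal.mk_real, Cardinal.lift_continuum]
    calc Cardinal.continuum ^ Cardinal.lift.{0} (Cardinal.mk X) ≤
        Cardinal.continuum ^ Cardinal.aleph0 := by
          refine Cardinal.power_le_power_left Cardinal.continuum_ne_zero ?_
          rw [Cardinal.lift_uzero]
          exact Cardinal.mk_le_aleph0
      _ = Cardinal.continuum := Cardinal.continuum_power_aleph0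
  · obtain ⟨x₀, hx₀⟩ : ∃ x, globalExt μ x < localExt μ x := by
      by_contra hcon
      push Not at hcon
      exact h (le_antisymm (globalExt_le_localExt μ) hcon)
    set A := {s : X → ℝ // (∀ x, s x ∈ Set.Icc (0 : ℝ) 1) ∧ genFun μ s = s ∧
      globalExt μ ≤ s ∧ s ≤ localExt μ}
    let g : A → Set.Icc (globalExt μ x₀) (localExt μ x₀) :=
      fun s => ⟨s.1 x₀, s.2.2.2.1 x₀, s.2.2.2.2 x₀⟩
    have hg : Function.Surjective g := by
      rintro ⟨t, ht⟩
      obtain ⟨s, hs, h1, h2, h3, h4⟩ := exists_fixedPoint μ x₀ ht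
      exact ⟨⟨s, hs, h1, h2, h3⟩, Subtype.ext h4⟩
    have := Cardinal.lift_mk_le_lift_mk_of_surjective hg
    rw [Cardinal.mk_Icc_real hx₀, Cardinal.lift_continuum] at this
    simpa using this

end Pool.Agent.Helper85.Ext
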