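import Pool.Agent.Helper85.IW.Statements

set_option autoImplicit false
set_option maxSynthPendingDepth 3
set_option maxHeartbeats 4000000

namespace Helper85.IW.M_D5

open Helper85.IW

/-- derivative of `mt` in `x` -/
noncomputable def mt1 (θ x : ℝ) : ℝ :=
  pf θ * ((pF θ / 30 + 41 / 1000 * (3 * pF θ * x ^ 2 - 2 * x))
    + (1 - θ * x) * (41 / 1000 * (8 * pF θ * x - 3)) - θ * h1x θ x)

noncomputable def nt1 (θ x : ℝ) : ℝ := (1 - θ) + pf θ * nu1 θ x

noncomputable def q0xx1 (x : ℝ) : ℝ := 49 / 1000 + 156 / 1000 * x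

theorem hmt (θ x : ℝ) : HasDerivAt (mt θ) (mt1 θ x) x := by
  have h1 : HasDerivAt (fun y : ℝ => y) 1 x := hasDerivAt_id x
  have h2 : HasDerivAt (fun y : ℝ => y ^ 2) (2 * x) x := by simpa using hasDerivAt_pow 2 x
  have h3 : HasDerivAt (fun y : ℝ => y ^ 3) (3 * x ^ 2) x := by simpa using hasDerivAt_pow 3 x
  have e : mt θ = fun y => ((1 - θ) + pf θ * (pF θ / 15))
      + pf θ * (pF θ / 30 - 123 / 1000 - θ * (pF θ / 15)) * y
      + pf θ * (-(41 / 1000) + 164 / 1000 * pF θ + 123 / 1000 * θ) * y ^ 2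
      + pf θ * (41 / 1000 * pF θ - 164 / 1000 * θ * pF θ) * y ^ 3 := by
    funext y
    simp only [mt, mux, h0x, h1x]
    ring
  rw [e]
  refine ((((hasDerivAt_const x _).add (h1.const_mul _)).add (h2.const_mul _)).add
    (h3.const_mul _)).congr_deriv ?_
  simp only [mt1, h1x]
  ring

theorem hnt (θ x : ℝ) : HasDerivAt (nt θ) (nt1 θ x) x := by
  have h1 : HasDerivAt (fun y : ℝ => y) 1 x := hasDerivAt_id x
  have h2 : HasDerivAt (fun y : ℝ => y ^ 2) (2 * x) x := by simpa using hasDerivAt_pow 2 x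
  have h3 : HasDerivAt (fun y : ℝ => y ^ 3) (3 * x ^ 2) x := by simpa using hasDerivAt_pow 3 x
  have h4 : HasDerivAt (fun y : ℝ => y ^ 4) (4 * x ^ 3) x := by simpa using hasDerivAt_pow 4 x
  have e : nt θ = fun y => -1 + (1 - θ) * y
      + pf θ * (pF θ / 30 - θ * (pF θ / 15)) * y ^ 2
      + pf θ * (-(41 / 1000) + 123 / 1000 * θ) * y ^ 3
      + pf θ * (41 / 1000 * pF θ - 164 / 1000 * θ * pF θ) * y ^ 4 := by
    funext y
    simp only [nt, nu, h0, Helper85.IW.h1]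
    ring
  rw [e]
  refine (((((hasDerivAt_const x (-1 : ℝ)).add (h1.const_mul _)).add (h2.const_mul _)).add
    (h3.const_mul _)).add (h4.const_mul _)).congr_deriv ?_
  simp only [nt1, nu1, Helper85.IW.h1, Helper85.IW.h2]
  ring

theorem hq (x : ℝ) : HasDerivAt q0xx (q0xx1 x) x := by
  have h1 : HasDerivAt (fun y : ℝ => y) 1 x := hasDerivAt_id x
  have h2 : HasDerivAt (fun y : ℝ => y ^ 2) (2 * x) x := by simpa using hasDerivAt_pow 2 x
  refine (((hasDerivAt_const x (17 / 1000 : ℝ)).add (h1.const_mul (49 / 1000 : ℝ))).add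
    (h2.const_mul (78 / 1000 : ℝ))).congr_deriv ?_
  simp only [q0xx1]
  ring

theorem hr (x : ℝ) : HasDerivAt r0 (r1 x) x := by
  have h1 : HasDerivAt (fun y : ℝ => y) 1 x := hasDerivAt_id x
  have h2 : HasDerivAt (fun y : ℝ => y ^ 2) (2 * x) x := by simpa using hasDerivAt_pow 2 x
  have h3 : HasDerivAt (fun y : ℝ => y ^ 3) (3 * x ^ 2) x := by simpa using hasDerivAt_pow 3 x
  have e : r0 = fun y => 1547 / 1000 + (-(1528 / 1000)) * y + 1136 / 1000 * y ^ 2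
      + (-(392 / 1000)) * y ^ 3 := by
    funext y
    simp only [r0]
    ring
  rw [e]
  refine ((((hasDerivAt_const x (1547 / 1000 : ℝ)).add (h1.const_mul _)).add (h2.const_mul _)).add
    (h3.const_mul _)).congr_deriv ?_
  simp only [r1]
  ring

/-- scaling of `QQ` -/
theorem QQ_scale (κ L w e a a' b b' A A' B B' x y z : ℝ) (hL : 0 < L) :
    QQ e (w * L) ((1 - w) * L) (L ^ κ * a) (L ^ (κ - 1) * (κ * a + (1 - w) * a'))
      (L ^ (κ - 1) * (κ * a - w * a')) (L ^ κ * b) (L ^ (κ - 1) * (κ * b + (1 - w) * b'))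
      (L ^ (κ - 1) * (κ * b - w * b')) (L ^ κ * A) (L ^ (κ - 1) * (κ * A + (1 - w) * A'))
      (L ^ (κ - 1) * (κ * A - w * A')) (L ^ κ * B) (L ^ (κ - 1) * (κ * B + (1 - w) * B'))
      (L ^ (κ - 1) * (κ * B - w * B')) x y z
    = L ^ κ * QQ e w (1 - w) a (κ * a + (1 - w) * a') (κ * a - w * a') b
      (κ * b + (1 - w) * b') (κ * b - w * b') A (κ * A + (1 - w) * A') (κ * A - w * A') B
      (κ * B + (1 - w) * B') (κ * B - w * B') x y z := by
  have hk : L ^ κ = L ^ (κ - 1) * L := by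
    rw [Real.rpow_sub hL, Real.rpow_one]; field_simp
  simp only [QQ, hk]
  ring

theorem ident_m (θ x a b c : ℝ) (hθ : θ ≠ 0) (hv : 1 - θ * x ≠ 0) :
    QQ (-1) (θ * x) (1 - θ * x) (mt θ x / θ)
      ((pf θ / θ) * (mt θ x / θ) + (1 - θ * x) * (mt1 θ x / θ ^ 2))
      ((pf θ / θ) * (mt θ x / θ) - (θ * x) * (mt1 θ x / θ ^ 2))
      (nt θ x / (1 - θ * x))
      ((pf θ / θ) * (nt θ x / (1 - θ * x))
        + (1 - θ * x) * ((nt1 θ x / θ * (1 - θ * x) + nt θ x) / (1 - θ * x) ^ 2))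
      ((pf θ / θ) * (nt θ x / (1 - θ * x))
        - (θ * x) * ((nt1 θ x / θ * (1 - θ * x) + nt θ x) / (1 - θ * x) ^ 2))
      ((mt θ x - pf θ * q0xx x) / θ)
      ((pf θ / θ) * ((mt θ x - pf θ * q0xx x) / θ)
        + (1 - θ * x) * ((mt1 θ x - pf θ * q0xx1 x) / θ ^ 2))
      ((pf θ / θ) * ((mt θ x - pf θ * q0xx x) / θ)
        - (θ * x) * ((mt1 θ x - pf θ * q0xx1 x) / θ ^ 2))
      (pf θ * r0 x / (1 - θ * x) ^ 2 - nt θ x / (1 - θ * x))
      ((pf θ / θ) * (pf θ * r0 x / (1 - θ * x) ^ 2 - nt θ x / (1 - θ * x))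
        + (1 - θ * x) * (pf θ * r1 x / θ / (1 - θ * x) ^ 2 + 2 * pf θ * r0 x / (1 - θ * x) ^ 3
          - (nt1 θ x / θ * (1 - θ * x) + nt θ x) / (1 - θ * x) ^ 2))
      ((pf θ / θ) * (pf θ * r0 x / (1 - θ * x) ^ 2 - nt θ x / (1 - θ * x))
        - (θ * x) * (pf θ * r1 x / θ / (1 - θ * x) ^ 2 + 2 * pf θ * r0 x / (1 - θ * x) ^ 3
          - (nt1 θ x / θ * (1 - θ * x) + nt θ x) / (1 - θ * x) ^ 2))
      a b c
    = (pf θ / θ) * (Nvv θ x * (2 * c) ^ 2 + 2 * Nvx θ x * ((2 * c) * (a - c))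
      + 2 * Nvy θ x * ((2 * c) * ((b - c) / (1 - θ * x))) + Mxx θ x * (a - c) ^ 2
      + Myy θ x * ((b - c) / (1 - θ * x)) ^ 2
      - Mxy θ x * ((a - c) * ((b - c) / (1 - θ * x)))) := by
  simp only [QQ, mt, mt1, nt, nt1, Nvv, Nvx, Nvy, Mxx, Myy, Mxy, mu1, mux, nu, nu1, h0, h1, h2, h0x,
    h1x, q0x, q1x, q0xx, q0xx1, r0, r1, pF, pf]
  field_simp
  ring

theorem ident_p (θ x a b c : ℝ) (hθ : θ ≠ 0) (hv : 1 - θ * x ≠ 0) :
    QQ 1 (θ * x) (1 - θ * x) (mt θ x / θ)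
      ((pf θ / θ) * (mt θ x / θ) + (1 - θ * x) * (mt1 θ x / θ ^ 2))
      ((pf θ / θ) * (mt θ x / θ) - (θ * x) * (mt1 θ x / θ ^ 2))
      (nt θ x / (1 - θ * x))
      ((pf θ / θ) * (nt θ x / (1 - θ * x))
        + (1 - θ * x) * ((nt1 θ x / θ * (1 - θ * x) + nt θ x) / (1 - θ * x) ^ 2))
      ((pf θ / θ) * (nt θ x / (1 - θ * x))
        - (θ * x) * ((nt1 θ x / θ * (1 - θ * x) + nt θ x) / (1 - θ * x) ^ 2))
      ((mt θ x - pf θ * q0xx x) / θ)
      ((pf θ / θ) * ((mt θ x - pf θ * q0xx x) / θ)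
        + (1 - θ * x) * ((mt1 θ x - pf θ * q0xx1 x) / θ ^ 2))
      ((pf θ / θ) * ((mt θ x - pf θ * q0xx x) / θ)
        - (θ * x) * ((mt1 θ x - pf θ * q0xx1 x) / θ ^ 2))
      (pf θ * r0 x / (1 - θ * x) ^ 2 - nt θ x / (1 - θ * x))
      ((pf θ / θ) * (pf θ * r0 x / (1 - θ * x) ^ 2 - nt θ x / (1 - θ * x))
        + (1 - θ * x) * (pf θ * r1 x / θ / (1 - θ * x) ^ 2 + 2 * pf θ * r0 x / (1 - θ * x) ^ 3
          - (nt1 θ x / θ * (1 - θ * x) + nt θ x) / (1 - θ * x) ^ 2))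
      ((pf θ / θ) * (pf θ * r0 x / (1 - θ * x) ^ 2 - nt θ x / (1 - θ * x))
        - (θ * x) * (pf θ * r1 x / θ / (1 - θ * x) ^ 2 + 2 * pf θ * r0 x / (1 - θ * x) ^ 3
          - (nt1 θ x / θ * (1 - θ * x) + nt θ x) / (1 - θ * x) ^ 2))
      a b c
    = (pf θ / θ) * (Pvv θ x * (2 * c) ^ 2 + 2 * Pvx θ x * ((2 * c) * (a - c))
      + 2 * Pvy θ x * ((2 * c) * ((b - c) / (1 - θ * x))) + Mxx θ x * (a - c) ^ 2
      + Myy θ x * ((b - c) / (1 - θ * x)) ^ 2
      + Mxy θ x * ((a - c) * ((b - c) / (1 - θ * x)))) := by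
  simp only [QQ, mt, mt1, nt, nt1, Pvv, Pvx, Pvy, Mxx, Myy, Mxy, mu, mu1, mux, nu, nu1, ps, ps1, h0, h1, h2, h0x,
    h1x, q0x, q1x, q0xx, q0xx1, r0, r1, pF, pf]
  field_simp
  ring


theorem main (hK : StK) (hE1 : StE1) (h5a : StD5a) : StD5 := by
  intro p hp r s hr hs
  obtain ⟨hcc, hC1, -, -, hx1, hCp, hx1F, -, -, -, -, -⟩ := hK p hp
  have hp0 : (0 : ℝ) < p := by linarith
  have hC0 : 0 < CC p := by linarith
  have hs0 : 0 < s := lt_trans (by positivity) hs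
  have hL : 0 < r + s := by linarith
  set w : ℝ := r / (r + s) with hw
  set L : ℝ := r + s with hLdef
  have hw0 : 0 ≤ w := by positivity
  have hrw : r = w * L := by rw [hw]; field_simp
  have hsw : s = (1 - w) * L := by rw [hw]; field_simp; rw [hLdef]; ring
  have hw1 : w < 1 := by
    rw [hw, div_lt_one hL]; linarith
  have hv : 0 < 1 - w := by linarith
  have hwC : w * (1 + CC p) ≤ 1 := by
    rw [hw, div_mul_eq_mul_div, div_le_one hL]
    nlinarith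
  have hθ0 : (0 : ℝ) < 1 / p := by positivity
  have hθ1 : 2 * (1 / p) ≤ 1 := by
    rw [mul_one_div, div_le_one hp0]; linarith
  have hx0 : 0 ≤ p * w := by positivity
  have hxle : p * w ≤ 1 := by
    have h1 : 1 ≤ pF (1 / p) := by
      unfold pF; linarith
    have h2 : p * w * pF (1 / p) ≤ 1 := by
      have : p * w * pF (1 / p) = w * (1 + CC p) := by rw [hCp]; ring
      linarith
    nlinarith
  -- the four coefficient functions
  let a : ℝ → ℝ := fun w => cc p * p ^ 2 * mt (1 / p) (p * w)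
  let a' : ℝ := cc p * p ^ 2 * (mt1 (1 / p) (p * w) * p)
  let b : ℝ → ℝ := fun w => cc p * p * (nt (1 / p) (p * w) / (1 - w))
  let b' : ℝ := cc p * p * ((nt1 (1 / p) (p * w) * p * (1 - w) + nt (1 / p) (p * w)) / (1 - w) ^ 2)
  let A : ℝ → ℝ := fun w => cc p * p ^ 2 * (mt (1 / p) (p * w) - pf (1 / p) * q0xx (p * w))
  let A' : ℝ := cc p * p ^ 2 * ((mt1 (1 / p) (p * w) - pf (1 / p) * q0xx1 (p * w)) * p)
  let B : ℝ → ℝ := fun w => cc p * p * (pf (1 / p) * r0 (p * w) / (1 - w) ^ 2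
    - nt (1 / p) (p * w) / (1 - w))
  let B' : ℝ := cc p * p * (pf (1 / p) * r1 (p * w) * p / (1 - w) ^ 2
    + 2 * pf (1 / p) * r0 (p * w) / (1 - w) ^ 3
    - (nt1 (1 / p) (p * w) * p * (1 - w) + nt (1 / p) (p * w)) / (1 - w) ^ 2)
  have hpw : HasDerivAt (fun w : ℝ => p * w) p w := by
    simpa using (hasDerivAt_id w).const_mul p
  have h1w : HasDerivAt (fun w : ℝ => 1 - w) (-1) w := by
    simpa using (hasDerivAt_id w).const_sub (1 : ℝ)
  have dmt : HasDerivAt (fun w => mt (1 / p) (p * w)) (mt1 (1 / p) (p * w) * p) w :=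
    HasDerivAt.comp (h₂ := mt (1 / p)) w (hmt (1 / p) (p * w)) hpw
  have dnt : HasDerivAt (fun w => nt (1 / p) (p * w)) (nt1 (1 / p) (p * w) * p) w :=
    HasDerivAt.comp (h₂ := nt (1 / p)) w (hnt (1 / p) (p * w)) hpw
  have dq : HasDerivAt (fun w => q0xx (p * w)) (q0xx1 (p * w) * p) w :=
    HasDerivAt.comp (h₂ := q0xx) w (hq (p * w)) hpw
  have dr : HasDerivAt (fun w => r0 (p * w)) (r1 (p * w) * p) w :=
    HasDerivAt.comp (h₂ := r0) w (Helper85.IW.M_D5.hr (p * w)) hpw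
  have da : HasDerivAt a a' w := dmt.const_mul _
  have dntv : HasDerivAt (fun w => nt (1 / p) (p * w) / (1 - w))
      ((nt1 (1 / p) (p * w) * p * (1 - w) + nt (1 / p) (p * w)) / (1 - w) ^ 2) w := by
    refine (dnt.div h1w hv.ne').congr_deriv ?_
    ring
  have db : HasDerivAt b b' w := dntv.const_mul _
  have dA : HasDerivAt A A' w := by
    refine ((dmt.sub (dq.const_mul (pf (1 / p)))).const_mul (cc p * p ^ 2)).congr_deriv ?_
    simp only [A']; ring
  have dB : HasDerivAt B B' w := by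
    have h2 : HasDerivAt (fun w : ℝ => (1 - w) ^ 2) (-2 * (1 - w)) w := by
      refine (h1w.pow 2).congr_deriv ?_
      simp
    have h3 := ((dr.const_mul (pf (1 / p))).div h2 (by positivity)).sub dntv
    refine (h3.const_mul (cc p * p)).congr_deriv ?_
    simp only [B']
    field_simp
    ring
  have Ha := h5a (p - 2) a a' r s hL da
  have Hb := h5a (p - 2) b b' r s hL db
  have HA := h5a (p - 2) A A' r s hL dA
  have HB := h5a (p - 2) B B' r s hL dB
  have ea : (fun q : ℝ × ℝ => (q.1 + q.2) ^ (p - 2) * a (q.1 / (q.1 + q.2)))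
      = fun q : ℝ × ℝ => al1 p q.1 q.2 := by
    funext q; simp only [a, al1]; ring
  have eb : (fun q : ℝ × ℝ => (q.1 + q.2) ^ (p - 2) * b (q.1 / (q.1 + q.2)))
      = fun q : ℝ × ℝ => be1 p q.1 q.2 := by
    funext q; simp only [b, be1]; ring
  have eA : (fun q : ℝ × ℝ => (q.1 + q.2) ^ (p - 2) * A (q.1 / (q.1 + q.2)))
      = fun q : ℝ × ℝ => A1 p q.1 q.2 := by
    funext q; simp only [A, A1]; ring
  have eB : (fun q : ℝ × ℝ => (q.1 + q.2) ^ (p - 2) * B (q.1 / (q.1 + q.2)))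
      = fun q : ℝ × ℝ => B1 p q.1 q.2 := by
    funext q; simp only [B, B1]; ring
  rw [ea] at Ha
  rw [eb] at Hb
  rw [eA] at HA
  rw [eB] at HB
  refine ⟨_, _, _, _, _, _, _, _, Ha, Hb, HA, HB, ?_⟩
  intro e he x y z
  have va : al1 p r s = L ^ (p - 2) * a w := by simp only [a, al1]; rw [← hLdef, ← hw]; ring
  have vb : be1 p r s = L ^ (p - 2) * b w := by simp only [b, be1]; rw [← hLdef, ← hw]; ring
  have vA : A1 p r s = L ^ (p - 2) * A w := by simp only [A, A1]; rw [← hLdef, ← hw]; ring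
  have vB : B1 p r s = L ^ (p - 2) * B w := by simp only [B, B1]; rw [← hLdef, ← hw]; ring
  rw [va, vb, vA, vB]
  have hq1 := QQ_scale (p - 2) L w e (a w) a' (b w) b' (A w) A' (B w) B' x y z hL
  rw [← hrw, ← hsw] at hq1
  rw [hq1]
  refine mul_nonneg (by positivity) ?_
  -- express in terms of theta and x
  have hpos : 0 ≤ cc p * p * (pf (1 / p) / (1 / p)) := by
    have : 0 ≤ pf (1 / p) := by unfold pf; linarith
    positivity
  have hθw : (1 / p) * (p * w) = w := by field_simp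
  have hE := hE1 (1 / p) (p * w) hθ0.le hθ1 hx0 hxle (2 * z) (x - z) ((y - z) / (1 - w))
  have hk : p - 2 = pf (1 / p) / (1 / p) := by unfold pf; field_simp
  rcases he with rfl | rfl
  · have h := ident_p (1 / p) (p * w) x y z hθ0.ne' (by rw [hθw]; exact hv.ne')
    rw [hθw] at h
    have hgoal : QQ 1 w (1 - w) (a w) ((p - 2) * a w + (1 - w) * a') ((p - 2) * a w - w * a') (b w)
      ((p - 2) * b w + (1 - w) * b') ((p - 2) * b w - w * b') (A w)
      ((p - 2) * A w + (1 - w) * A') ((p - 2) * A w - w * A') (B w)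
      ((p - 2) * B w + (1 - w) * B') ((p - 2) * B w - w * B') x y z
      = cc p * p * ((pf (1 / p) / (1 / p)) * (Pvv (1 / p) (p * w) * (2 * z) ^ 2
        + 2 * Pvx (1 / p) (p * w) * ((2 * z) * (x - z))
      + 2 * Pvy (1 / p) (p * w) * ((2 * z) * ((y - z) / (1 - w))) + Mxx (1 / p) (p * w) * (x - z) ^ 2
      + Myy (1 / p) (p * w) * ((y - z) / (1 - w)) ^ 2
      + Mxy (1 / p) (p * w) * ((x - z) * ((y - z) / (1 - w))))) := by
      rw [← h, hk]
      simp only [QQ, a, a', b, b', A, A', B, B']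
      field_simp
    rw [hgoal]
    have h2 := hE.2
    rw [← mul_assoc]
    exact mul_nonneg hpos h2
  · have h := ident_m (1 / p) (p * w) x y z hθ0.ne' (by rw [hθw]; exact hv.ne')
    rw [hθw] at h
    have hgoal : QQ (-1) w (1 - w) (a w) ((p - 2) * a w + (1 - w) * a') ((p - 2) * a w - w * a') (b w)
      ((p - 2) * b w + (1 - w) * b') ((p - 2) * b w - w * b') (A w)
      ((p - 2) * A w + (1 - w) * A') ((p - 2) * A w - w * A') (B w)
      ((p - 2) * B w + (1 - w) * B') ((p - 2) * B w - w * B') x y z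
      = cc p * p * ((pf (1 / p) / (1 / p)) * (Nvv (1 / p) (p * w) * (2 * z) ^ 2
        + 2 * Nvx (1 / p) (p * w) * ((2 * z) * (x - z))
      + 2 * Nvy (1 / p) (p * w) * ((2 * z) * ((y - z) / (1 - w))) + Mxx (1 / p) (p * w) * (x - z) ^ 2
      + Myy (1 / p) (p * w) * ((y - z) / (1 - w)) ^ 2
      - Mxy (1 / p) (p * w) * ((x - z) * ((y - z) / (1 - w))))) := by
      rw [← h, hk]
      simp only [QQ, a, a', b, b', A, A', B, B']
      field_simp
    rw [hgoal]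
    have h2 := hE.1
    rw [← mul_assoc]
    exact mul_nonneg hpos h2

end Helper85.IW.M_D5
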