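import Pool.Agent.Helper85.IW.Statements

set_option autoImplicit false
set_option maxSynthPendingDepth 3

namespace Helper85.IW.M_D5a

open Helper85.IW

theorem main : StD5a := by
  intro κ a a' r s hL ha
  have hne : r + s ≠ 0 := ne_of_gt hL
  have h1 : HasFDerivAt (fun q : ℝ × ℝ => q.1 + q.2)
      (ContinuousLinearMap.fst ℝ ℝ ℝ + ContinuousLinearMap.snd ℝ ℝ ℝ) (r, s) :=
    hasFDerivAt_fst.add hasFDerivAt_snd
  have h2 : HasFDerivAt (fun q : ℝ × ℝ => q.1) (ContinuousLinearMap.fst ℝ ℝ ℝ) (r, s) := hasFDerivAt_fst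
  have h3 := h1.rpow_const (p := κ) (Or.inl (by simpa using hne))
  have hinv := (hasDerivAt_inv hne).comp_hasFDerivAt (r, s) h1
  have h4 := h2.mul hinv
  have ha' : HasDerivAt a a' ((fun q : ℝ × ℝ => q.1 * ((fun x : ℝ => x⁻¹) ∘ fun q : ℝ × ℝ => q.1 + q.2) q) (r, s)) := by
    simpa [div_eq_mul_inv] using ha
  have h5 := ha'.comp_hasFDerivAt (r, s) h4
  have h6 := h3.mul h5
  have e1 : (fun q : ℝ × ℝ => (q.1 + q.2) ^ κ * a (q.1 / (q.1 + q.2))) =
      (fun x : ℝ × ℝ => (x.1 + x.2) ^ κ) * (a ∘ ((fun q : ℝ × ℝ => q.1) * ((fun x : ℝ => x⁻¹) ∘ fun q : ℝ × ℝ => q.1 + q.2))) := by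
    ext q
    simp [div_eq_mul_inv]
  rw [e1]
  refine h6.congr_fderiv ?_
  have hk : (r + s) ^ κ = (r + s) ^ (κ - 1) * (r + s) := by
    rw [Real.rpow_sub hL, Real.rpow_one]; field_simp
  refine ContinuousLinearMap.ext fun x => ?_
  simp only [lin2_apply, ContinuousLinearMap.add_apply, ContinuousLinearMap.smul_apply,
    ContinuousLinearMap.coe_fst', ContinuousLinearMap.coe_snd', Function.comp, smul_eq_mul,
    Pi.mul_apply, hk]
  simp only [div_eq_mul_inv]
  field_simp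
  ring

end Helper85.IW.M_D5a
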