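import Mathlib

/-!
# Random-cluster weights on finite edge sets: basic facts

`gr ω` is the graph with edge set `ω`, `kc ω` its number of connected components.
-/

set_option linter.unusedSectionVars false

open Finset

namespace Pool.Agent.Helper85.RC

open Classical

variable {V : Type} [Fintype V]

/-- The spanning subgraph of open edges. -/
def gr (ω : Finset (Sym2 V)) : SimpleGraph V := SimpleGraph.fromEdgeSet (ω : Set (Sym2 V))

/-- `a` and `b` lie in the same component of `gr ω`. -/
def Conn (ω : Finset (Sym2 V)) (a b : V) : Prop := (gr ω).Reachable a b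

/-- number of components -/
noncomputable def kc (ω : Finset (Sym2 V)) : ℕ := Nat.card (gr ω).ConnectedComponent

lemma gr_mono {ω ω' : Finset (Sym2 V)} (h : ω ⊆ ω') : gr ω ≤ gr ω' :=
  SimpleGraph.fromEdgeSet_mono (by exact_mod_cast h)

lemma Conn.refl (ω : Finset (Sym2 V)) (a : V) : Conn ω a a := SimpleGraph.Reachable.refl a

lemma Conn.symm {ω : Finset (Sym2 V)} {a b : V} (h : Conn ω a b) : Conn ω b a :=
  SimpleGraph.Reachable.symm h

lemma Conn.trans {ω : Finset (Sym2 V)} {a b c : V} (h : Conn ω a b) (h' : Conn ω b c) :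
    Conn ω a c := SimpleGraph.Reachable.trans h h'

lemma Conn.mono {ω ω' : Finset (Sym2 V)} (h : ω ⊆ ω') {a b : V} (hc : Conn ω a b) :
    Conn ω' a b := SimpleGraph.Reachable.mono (gr_mono h) hc

lemma conn_of_mem {ω : Finset (Sym2 V)} {a b : V} (h : s(a, b) ∈ ω) : Conn ω a b := by
  by_cases hab : a = b
  · subst hab; exact Conn.refl _ _
  · exact SimpleGraph.Adj.reachable (by
      rw [gr, SimpleGraph.fromEdgeSet_adj]; exact ⟨by exact_mod_cast h, hab⟩)

lemma conn_insert {ω : Finset (Sym2 V)} {a b u v : V} :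
    Conn (insert s(a, b) ω) u v ↔
      Conn ω u v ∨ (Conn ω u a ∧ Conn ω b v) ∨ (Conn ω u b ∧ Conn ω a v) := by
  constructor
  · intro h
    obtain ⟨w⟩ := h
    induction w with
    | nil => exact Or.inl (Conn.refl _ _)
    | @cons u w v hadj p ih =>
      rw [gr, SimpleGraph.fromEdgeSet_adj] at hadj
      obtain ⟨hmem, hne⟩ := hadj
      simp only [coe_insert, Set.mem_insert_iff, mem_coe] at hmem
      rcases hmem with heq | hmem
      · rw [Sym2.eq_iff] at heq
        rcases heq with ⟨rfl, rfl⟩ | ⟨rfl, rfl⟩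
        · rcases ih with h | ⟨h1, h2⟩ | ⟨h1, h2⟩
          · exact Or.inr (Or.inl ⟨Conn.refl _ _, h⟩)
          · exact Or.inr (Or.inl ⟨Conn.refl _ _, h2⟩)
          · exact Or.inl h2
        · rcases ih with h | ⟨h1, h2⟩ | ⟨h1, h2⟩
          · exact Or.inr (Or.inr ⟨Conn.refl _ _, h⟩)
          · exact Or.inl h2
          · exact Or.inr (Or.inr ⟨Conn.refl _ _, h2⟩)
      · have hc : Conn ω u w := conn_of_mem hmem
        rcases ih with h | ⟨h1, h2⟩ | ⟨h1, h2⟩
        · exact Or.inl (hc.trans h)
        · exact Or.inr (Or.inl ⟨hc.trans h1, h2⟩)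
        · exact Or.inr (Or.inr ⟨hc.trans h1, h2⟩)
  · have hs : ω ⊆ insert s(a, b) ω := subset_insert _ _
    have hab : Conn (insert s(a, b) ω) a b := conn_of_mem (mem_insert_self _ _)
    rintro (h | ⟨h1, h2⟩ | ⟨h1, h2⟩)
    · exact h.mono hs
    · exact ((h1.mono hs).trans hab).trans (h2.mono hs)
    · exact ((h1.mono hs).trans hab.symm).trans (h2.mono hs)

lemma kc_insert_of_conn {ω : Finset (Sym2 V)} {a b : V} (h : Conn ω a b) :
    kc (insert s(a, b) ω) = kc ω := by
  have hle : gr ω ≤ gr (insert s(a, b) ω) := gr_mono (subset_insert _ _)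
  refine (Nat.card_congr (Equiv.ofBijective
    (fun c : (gr ω).ConnectedComponent => c.map (SimpleGraph.Hom.ofLE hle)) ⟨?_, ?_⟩)).symm
  · intro c d hcd
    induction c using SimpleGraph.ConnectedComponent.ind with | _ u =>
    induction d using SimpleGraph.ConnectedComponent.ind with | _ v =>
    simp only [SimpleGraph.ConnectedComponent.map_mk, SimpleGraph.ConnectedComponent.eq] at hcd
    rw [SimpleGraph.ConnectedComponent.eq]
    have hcd' : Conn (insert s(a, b) ω) u v := hcd
    rw [conn_insert] at hcd'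
    rcases hcd' with h1 | ⟨h1, h2⟩ | ⟨h1, h2⟩
    · exact h1
    · exact (h1.trans h).trans h2
    · exact (h1.trans h.symm).trans h2
  · intro c
    induction c using SimpleGraph.ConnectedComponent.ind with | _ u =>
    exact ⟨(gr ω).connectedComponentMk u, rfl⟩

lemma kc_insert_of_not_conn {ω : Finset (Sym2 V)} {a b : V} (h : ¬ Conn ω a b) :
    kc (insert s(a, b) ω) + 1 = kc ω := by
  have hle : gr ω ≤ gr (insert s(a, b) ω) := gr_mono (subset_insert _ _)
  have hab : Conn (insert s(a, b) ω) a b := conn_of_mem (mem_insert_self _ _)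
  set cb := (gr ω).connectedComponentMk b with hcb
  have e : {c : (gr ω).ConnectedComponent // c ≠ cb} ≃
      (gr (insert s(a, b) ω)).ConnectedComponent := by
    refine Equiv.ofBijective (fun c => c.1.map (SimpleGraph.Hom.ofLE hle)) ⟨?_, ?_⟩
    · rintro ⟨c, hc⟩ ⟨d, hd⟩ hcd
      induction c using SimpleGraph.ConnectedComponent.ind with | _ u =>
      induction d using SimpleGraph.ConnectedComponent.ind with | _ v =>
      simp only [SimpleGraph.ConnectedComponent.map_mk, SimpleGraph.ConnectedComponent.eq] at hcd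
      rw [Subtype.mk.injEq, SimpleGraph.ConnectedComponent.eq]
      have hcd' : Conn (insert s(a, b) ω) u v := hcd
      rw [conn_insert] at hcd'
      rw [hcb, Ne, SimpleGraph.ConnectedComponent.eq] at hc hd
      rcases hcd' with h1 | ⟨h1, h2⟩ | ⟨h1, h2⟩
      · exact h1
      · exact absurd h2.symm hd
      · exact absurd h1 hc
    · intro c
      induction c using SimpleGraph.ConnectedComponent.ind with | _ u =>
      by_cases hu : Conn ω u b
      · refine ⟨⟨(gr ω).connectedComponentMk a, ?_⟩, ?_⟩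
        · rw [hcb, Ne, SimpleGraph.ConnectedComponent.eq]; exact h
        · simp only [SimpleGraph.ConnectedComponent.map_mk, SimpleGraph.ConnectedComponent.eq]
          exact hab.trans (hu.symm.mono (subset_insert _ _))
      · refine ⟨⟨(gr ω).connectedComponentMk u, ?_⟩, rfl⟩
        rw [hcb, Ne, SimpleGraph.ConnectedComponent.eq]; exact hu
  unfold kc
  rw [← Nat.card_congr e, ← Finite.card_option]
  exact Nat.card_congr (Equiv.optionSubtypeNe cb)

/-- one-edge supermodularity -/
lemma kc_insert_super {A B : Finset (Sym2 V)} (h : A ⊆ B) (e : Sym2 V) :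
    kc (insert e A) + kc B ≤ kc A + kc (insert e B) := by
  induction e using Sym2.ind with | _ a b =>
  by_cases hB : Conn B a b
  · rw [kc_insert_of_conn hB]
    by_cases hA : Conn A a b
    · rw [kc_insert_of_conn hA]
    · have := kc_insert_of_not_conn hA; omega
  · have hA : ¬ Conn A a b := fun hA => hB (hA.mono h)
    have h1 := kc_insert_of_not_conn hA
    have h2 := kc_insert_of_not_conn hB
    omega

lemma kc_union_super {A B : Finset (Sym2 V)} (h : A ⊆ B) (C : Finset (Sym2 V)) :
    kc (A ∪ C) + kc B ≤ kc A + kc (B ∪ C) := by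
  induction C using Finset.induction_on with
  | empty => simp
  | insert e C he ih =>
    have h1 := kc_insert_super (union_subset_union_left h (t := C)) e
    rw [union_insert, union_insert]
    omega

lemma kc_supermodular (A B : Finset (Sym2 V)) : kc A + kc B ≤ kc (A ∩ B) + kc (A ∪ B) := by
  have := kc_union_super (A := A ∩ B) (B := A) inter_subset_left B
  have h2 : A ∩ B ∪ B = B := by
    rw [union_eq_right]; exact inter_subset_right
  rw [h2] at this
  omega

/-! ### weights -/

/-- factor gained by opening the edge `e` -/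
noncomputable def theta (q : ℝ) (e : Sym2 V) (ω : Finset (Sym2 V)) : ℝ :=
  if (∀ a b : V, e = s(a, b) → Conn ω a b) then 1 else q⁻¹

lemma theta_mk (q : ℝ) (a b : V) (ω : Finset (Sym2 V)) :
    theta q s(a, b) ω = if Conn ω a b then 1 else q⁻¹ := by
  unfold theta
  congr 1
  refine propext ⟨fun h => h a b rfl, fun h c d hcd => ?_⟩
  rw [Sym2.eq_iff] at hcd
  rcases hcd with ⟨rfl, rfl⟩ | ⟨rfl, rfl⟩
  · exact h
  · exact h.symm

lemma pow_kc_insert {q : ℝ} (hq : 1 ≤ q) (e : Sym2 V) (ω : Finset (Sym2 V)) :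
    q ^ kc (insert e ω) = q ^ kc ω * theta q e ω := by
  have hq0 : q ≠ 0 := by positivity
  induction e using Sym2.ind with | _ a b =>
  rw [theta_mk]
  split_ifs with h
  · rw [kc_insert_of_conn h, mul_one]
  · rw [← kc_insert_of_not_conn h, pow_succ, mul_assoc, mul_inv_cancel₀ hq0, mul_one]

lemma theta_pos {q : ℝ} (hq : 1 ≤ q) (e : Sym2 V) (ω : Finset (Sym2 V)) : 0 < theta q e ω := by
  unfold theta; split_ifs <;> positivity

lemma theta_mono {q : ℝ} (hq : 1 ≤ q) (e : Sym2 V) : Monotone (theta (V := V) q e) := by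
  intro ω ω' h
  unfold theta
  have hq1 : q⁻¹ ≤ 1 := inv_le_one_of_one_le₀ hq
  split_ifs with h1 h2 h2
  · exact le_rfl
  · exact absurd (fun a b hab => (h1 a b hab).mono h) h2
  · exact hq1
  · exact le_rfl

/-- random-cluster weight of the configuration `ω` on the edge set `E` -/
noncomputable def wt (p q : ℝ) (E ω : Finset (Sym2 V)) : ℝ :=
  p ^ ω.card * (1 - p) ^ (E.card - ω.card) * q ^ kc ω

/-- weighted sum -/
noncomputable def S (p q : ℝ) (E : Finset (Sym2 V)) (f : Finset (Sym2 V) → ℝ) : ℝ :=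
  ∑ ω ∈ E.powerset, wt p q E ω * f ω

lemma wt_nonneg {p q : ℝ} (hp : 0 ≤ p) (hp1 : p ≤ 1) (hq : 1 ≤ q) (E ω : Finset (Sym2 V)) :
    0 ≤ wt p q E ω := by
  unfold wt
  have : 0 ≤ 1 - p := by linarith
  positivity

lemma S_insert {p q : ℝ} (hq : 1 ≤ q) {E : Finset (Sym2 V)} {e : Sym2 V} (he : e ∉ E)
    (f : Finset (Sym2 V) → ℝ) :
    S p q (insert e E) f =
      (1 - p) * S p q E f + p * S p q E (fun ω => theta q e ω * f (insert e ω)) := by
  unfold S
  rw [Finset.sum_powerset_insert he, Finset.mul_sum, Finset.mul_sum]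
  congr 1
  · refine Finset.sum_congr rfl fun ω hω => ?_
    have hc : ω.card ≤ E.card := card_le_card (mem_powerset.mp hω)
    unfold wt
    rw [card_insert_of_notMem he, show E.card + 1 - ω.card = (E.card - ω.card) + 1 by omega, pow_succ]
    ring
  · refine Finset.sum_congr rfl fun ω hω => ?_
    have hc : ω.card ≤ E.card := card_le_card (mem_powerset.mp hω)
    have heω : e ∉ ω := fun h => he (mem_powerset.mp hω h)
    unfold wt
    rw [card_insert_of_notMem he, card_insert_of_notMem heω,
      show E.card + 1 - (ω.card + 1) = E.card - ω.card by omega, pow_kc_insert hq, pow_succ]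
    ring

lemma S_nonneg {p q : ℝ} (hp : 0 ≤ p) (hp1 : p ≤ 1) (hq : 1 ≤ q) (E : Finset (Sym2 V))
    {f : Finset (Sym2 V) → ℝ} (hf : ∀ ω, 0 ≤ f ω) : 0 ≤ S p q E f :=
  Finset.sum_nonneg fun ω _ => mul_nonneg (wt_nonneg hp hp1 hq E ω) (hf ω)

lemma S_mono {p q : ℝ} (hp : 0 ≤ p) (hp1 : p ≤ 1) (hq : 1 ≤ q) (E : Finset (Sym2 V))
    {f g : Finset (Sym2 V) → ℝ} (h : ∀ ω, f ω ≤ g ω) : S p q E f ≤ S p q E g :=
  Finset.sum_le_sum fun ω _ => mul_le_mul_of_nonneg_left (h ω) (wt_nonneg hp hp1 hq E ω)

lemma S_add (p q : ℝ) (E : Finset (Sym2 V)) (f g : Finset (Sym2 V) → ℝ) :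
    S p q E (fun ω => f ω + g ω) = S p q E f + S p q E g := by
  unfold S; rw [← Finset.sum_add_distrib]; simp only [mul_add]

lemma S_sub (p q : ℝ) (E : Finset (Sym2 V)) (f g : Finset (Sym2 V) → ℝ) :
    S p q E (fun ω => f ω - g ω) = S p q E f - S p q E g := by
  unfold S; rw [← Finset.sum_sub_distrib]; simp only [mul_sub]

lemma S_mul (p q : ℝ) (E : Finset (Sym2 V)) (c : ℝ) (f : Finset (Sym2 V) → ℝ) :
    S p q E (fun ω => c * f ω) = c * S p q E f := by
  unfold S; rw [Finset.mul_sum]; exact Finset.sum_congr rfl fun ω _ => by ring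

lemma S_one_pos {p q : ℝ} (hp : 0 ≤ p) (hp1 : p ≤ 1) (hq : 1 ≤ q) (E : Finset (Sym2 V)) :
    0 < S p q E (fun _ => 1) := by
  induction E using Finset.induction_on with
  | empty =>
    unfold S wt
    simp
    positivity
  | insert e E he ih =>
    rw [S_insert hq he]
    have h1 : q⁻¹ * S p q E (fun _ => 1) ≤ S p q E (fun ω => theta q e ω * 1) := by
      rw [← S_mul]
      refine S_mono hp hp1 hq E fun ω => ?_
      simp only [mul_one]
      unfold theta
      split_ifs
      · exact inv_le_one_of_one_le₀ hq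
      · exact le_rfl
    have h2 : 0 < q⁻¹ * S p q E (fun _ => 1) := by positivity
    have h3 : 0 < S p q E (fun ω => theta q e ω * 1) := lt_of_lt_of_le h2 h1
    rcases eq_or_lt_of_le hp with rfl | hp0
    · simpa using ih
    · have : 0 ≤ (1 - p) * S p q E (fun _ => 1) := mul_nonneg (by linarith) ih.le
      have : 0 < p * S p q E (fun ω => theta q e ω * 1) := by positivity
      linarith

/-- FKG inequality for the random-cluster weights -/
lemma S_fkg {p q : ℝ} (hp : 0 ≤ p) (hp1 : p ≤ 1) (hq : 1 ≤ q) (E : Finset (Sym2 V))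
    {f g : Finset (Sym2 V) → ℝ} (hf0 : ∀ ω, 0 ≤ f ω) (hg0 : ∀ ω, 0 ≤ g ω) (hf : Monotone f)
    (hg : Monotone g) :
    S p q E f * S p q E g ≤ S p q E (fun _ => 1) * S p q E (fun ω => f ω * g ω) := by
  set μ : Finset (Sym2 V) → ℝ := fun ω => if ω ⊆ E then wt p q E ω else 0 with hμ
  have hS : ∀ h : Finset (Sym2 V) → ℝ, S p q E h = ∑ ω, μ ω * h ω := by
    intro h
    unfold S
    have : E.powerset = Finset.univ.filter (fun ω => ω ⊆ E) := by ext ω; simp
    rw [this, Finset.sum_filter]
    refine Finset.sum_congr rfl fun ω _ => ?_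
    simp only [hμ]; split_ifs <;> simp
  have key := fkg (α := Finset (Sym2 V)) (β := ℝ) (f := f) (g := g) (μ := μ) ?_ hf0 hg0 hf hg ?_
  · rw [hS, hS, hS, hS]
    simpa using key
  · intro ω
    simp only [hμ, Pi.zero_apply]
    split_ifs
    · exact wt_nonneg hp hp1 hq E ω
    · exact le_rfl
  · intro a b
    simp only [hμ, Finset.inf_eq_inter, Finset.sup_eq_union]
    by_cases ha : a ⊆ E
    · by_cases hb : b ⊆ E
      · have hi : a ∩ b ⊆ E := inter_subset_left.trans ha
        have hu : a ∪ b ⊆ E := union_subset ha hb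
        rw [if_pos ha, if_pos hb, if_pos hi, if_pos hu]
        unfold wt
        have hcard := card_inter_add_card_union a b
        have h1 := card_le_card ha
        have h2 := card_le_card hb
        have h3 := card_le_card hi
        have h4 := card_le_card hu
        have e1 : p ^ a.card * (1 - p) ^ (E.card - a.card) * q ^ kc a *
            (p ^ b.card * (1 - p) ^ (E.card - b.card) * q ^ kc b) =
            p ^ (a.card + b.card) * (1 - p) ^ ((E.card - a.card) + (E.card - b.card)) *
              q ^ (kc a + kc b) := by ring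
        have e2 : p ^ (a ∩ b).card * (1 - p) ^ (E.card - (a ∩ b).card) * q ^ kc (a ∩ b) *
            (p ^ (a ∪ b).card * (1 - p) ^ (E.card - (a ∪ b).card) * q ^ kc (a ∪ b)) =
            p ^ ((a ∩ b).card + (a ∪ b).card) *
              (1 - p) ^ ((E.card - (a ∩ b).card) + (E.card - (a ∪ b).card)) *
              q ^ (kc (a ∩ b) + kc (a ∪ b)) := by ring
        rw [e1, e2, hcard, show (E.card - (a ∩ b).card) + (E.card - (a ∪ b).card) =
          (E.card - a.card) + (E.card - b.card) by omega]
        refine mul_le_mul_of_nonneg_left (pow_le_pow_right₀ hq (kc_supermodular a b)) ?_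
        have : 0 ≤ 1 - p := by linarith
        positivity
      · rw [if_neg hb, mul_zero]
        refine mul_nonneg ?_ ?_ <;> split_ifs <;> first | exact wt_nonneg hp hp1 hq E _ | exact le_rfl
    · rw [if_neg ha, zero_mul]
      refine mul_nonneg ?_ ?_ <;> split_ifs <;> first | exact wt_nonneg hp hp1 hq E _ | exact le_rfl

end Pool.Agent.Helper85.RC
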