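import Pool.Agent.Helper85.RCBasic

/-!
# The Lieb inequality for random-cluster measures with cluster weight between 1 and 2

The induction hypothesis is strengthened by a decreasing nonnegative function `N`.
-/

set_option linter.unusedSectionVars false

open Finset

namespace Pool.Agent.Helper85.RC

open Classical

variable {V : Type} [Fintype V]

/-- random-cluster expectation on the edge set `E` -/
noncomputable def ex (p q : ℝ) (E : Finset (Sym2 V)) (f : Finset (Sym2 V) → ℝ) : ℝ :=
  S p q E f / S p q E (fun _ => 1)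

/-- indicator of connection -/
noncomputable def ind (a b : V) (ω : Finset (Sym2 V)) : ℝ := if Conn ω a b then 1 else 0

lemma ind_nonneg (a b : V) (ω : Finset (Sym2 V)) : 0 ≤ ind a b ω := by
  unfold ind; split_ifs <;> simp

lemma ind_le_one (a b : V) (ω : Finset (Sym2 V)) : ind a b ω ≤ 1 := by
  unfold ind; split_ifs <;> simp

lemma ind_mono (a b : V) : Monotone (ind a b) := by
  intro ω ω' h
  unfold ind
  split_ifs with h1 h2 h2
  · exact le_rfl
  · exact absurd (h1.mono h) h2
  · exact zero_le_one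
  · exact le_rfl

section

variable {p q : ℝ} (hp : 0 ≤ p) (hp1 : p ≤ 1) (hq : 1 ≤ q)

include hp hp1 hq

lemma ex_nonneg (E : Finset (Sym2 V)) {f : Finset (Sym2 V) → ℝ} (hf : ∀ ω, 0 ≤ f ω) :
    0 ≤ ex p q E f :=
  div_nonneg (S_nonneg hp hp1 hq E hf) (S_one_pos hp hp1 hq E).le

lemma ex_le (E : Finset (Sym2 V)) {f g : Finset (Sym2 V) → ℝ} (h : ∀ ω, f ω ≤ g ω) :
    ex p q E f ≤ ex p q E g :=
  div_le_div_of_nonneg_right (S_mono hp hp1 hq E h) (S_one_pos hp hp1 hq E).le

lemma ex_const (E : Finset (Sym2 V)) (c : ℝ) : ex p q E (fun _ => c) = c := by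
  have h := S_one_pos hp hp1 hq E
  unfold ex
  have : S p q E (fun _ => c) = c * S p q E (fun _ => 1) := by
    rw [← S_mul]; simp
  rw [this]; field_simp

omit hp hp1 hq in
lemma ex_add (E : Finset (Sym2 V)) (f g : Finset (Sym2 V) → ℝ) :
    ex p q E (fun ω => f ω + g ω) = ex p q E f + ex p q E g := by
  unfold ex; rw [S_add, add_div]

omit hp hp1 hq in
lemma ex_sub (E : Finset (Sym2 V)) (f g : Finset (Sym2 V) → ℝ) :
    ex p q E (fun ω => f ω - g ω) = ex p q E f - ex p q E g := by
  unfold ex; rw [S_sub, sub_div]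

omit hp hp1 hq in
lemma ex_mul (E : Finset (Sym2 V)) (c : ℝ) (f : Finset (Sym2 V) → ℝ) :
    ex p q E (fun ω => c * f ω) = c * ex p q E f := by
  unfold ex; rw [S_mul, mul_div_assoc]

lemma ex_fkg (E : Finset (Sym2 V)) {f g : Finset (Sym2 V) → ℝ} (hf0 : ∀ ω, 0 ≤ f ω)
    (hg0 : ∀ ω, 0 ≤ g ω) (hf : Monotone f) (hg : Monotone g) :
    ex p q E f * ex p q E g ≤ ex p q E (fun ω => f ω * g ω) := by
  have h := S_one_pos hp hp1 hq E
  have := S_fkg hp hp1 hq E hf0 hg0 hf hg
  unfold ex
  rw [div_mul_div_comm, div_le_div_iff₀ (by positivity) h]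
  nlinarith

lemma ex_fkg_anti (E : Finset (Sym2 V)) {N g : Finset (Sym2 V) → ℝ}
    (hg0 : ∀ ω, 0 ≤ g ω) (hN : Antitone N) (hg : Monotone g) :
    ex p q E (fun ω => N ω * g ω) ≤ ex p q E N * ex p q E g := by
  have h1 : ∀ ω, 0 ≤ N ∅ - N ω := fun ω => sub_nonneg.mpr (hN (empty_subset ω))
  have h2 : Monotone fun ω => N ∅ - N ω := fun ω ω' h => by
    have := hN h; simp only; linarith
  have h3 := ex_fkg hp hp1 hq E h1 hg0 h2 hg
  have e1 : ex p q E (fun ω => N ∅ - N ω) = N ∅ - ex p q E N := by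
    rw [ex_sub, ex_const hp hp1 hq]
  have e2 : ex p q E (fun ω => (N ∅ - N ω) * g ω) =
      N ∅ * ex p q E g - ex p q E (fun ω => N ω * g ω) := by
    simp only [sub_mul]
    rw [ex_sub, ex_mul]
  rw [e1, e2] at h3
  linarith

lemma norm_pos (E : Finset (Sym2 V)) (e : Sym2 V) : 0 < (1 - p) + p * ex p q E (theta q e) := by
  have h1 : q⁻¹ ≤ ex p q E (theta q e) := by
    rw [← ex_const hp hp1 hq E q⁻¹]
    refine ex_le hp hp1 hq E fun ω => ?_
    unfold theta; split_ifs
    · exact inv_le_one_of_one_le₀ hq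
    · exact le_rfl
  have hq0 : 0 < q⁻¹ := by positivity
  rcases eq_or_lt_of_le hp with rfl | hp0
  · simp
  · have : 0 < p * ex p q E (theta q e) := mul_pos hp0 (lt_of_lt_of_le hq0 h1)
    linarith

lemma ex_insert {E : Finset (Sym2 V)} {e : Sym2 V} (he : e ∉ E) (f : Finset (Sym2 V) → ℝ) :
    ex p q (insert e E) f =
      ((1 - p) * ex p q E f + p * ex p q E (fun ω => theta q e ω * f (insert e ω))) /
        ((1 - p) + p * ex p q E (theta q e)) := by
  have h := S_one_pos hp hp1 hq E
  have hn := norm_pos hp hp1 hq E e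
  have e1 : ex p q (insert e E) f = S p q (insert e E) f / S p q (insert e E) (fun _ => 1) := rfl
  have e2 : S p q (insert e E) (fun _ => 1) =
      S p q E (fun _ => 1) * ((1 - p) + p * ex p q E (theta q e)) := by
    rw [S_insert hq he]
    unfold ex
    simp only [mul_one]
    field_simp
  have e3 : S p q (insert e E) f = S p q E (fun _ => 1) *
      ((1 - p) * ex p q E f + p * ex p q E (fun ω => theta q e ω * f (insert e ω))) := by
    rw [S_insert hq he]
    unfold ex
    field_simp
  rw [e1, e2, e3, mul_div_mul_left _ _ h.ne']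

lemma ex_insert_mono {E : Finset (Sym2 V)} {e : Sym2 V} (he : e ∉ E) {f : Finset (Sym2 V) → ℝ}
    (hf0 : ∀ ω, 0 ≤ f ω) (hf : Monotone f) : ex p q E f ≤ ex p q (insert e E) f := by
  rw [ex_insert hp hp1 hq he, le_div_iff₀ (norm_pos hp hp1 hq E e)]
  have h1 : ex p q E (theta q e) * ex p q E f ≤
      ex p q E (fun ω => theta q e ω * f (insert e ω)) :=
    (ex_fkg hp hp1 hq E (fun ω => (theta_pos hq e ω).le) hf0 (theta_mono hq e) hf).trans
      (ex_le hp hp1 hq E fun ω => mul_le_mul_of_nonneg_left (hf (subset_insert _ _))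
        (theta_pos hq e ω).le)
  have h2 := mul_le_mul_of_nonneg_left h1 hp
  nlinarith

lemma ex_union_mono (E K : Finset (Sym2 V)) {f : Finset (Sym2 V) → ℝ}
    (hf0 : ∀ ω, 0 ≤ f ω) (hf : Monotone f) : ex p q E f ≤ ex p q (E ∪ K) f := by
  induction K using Finset.induction_on with
  | empty => simp
  | insert e K he ih =>
    rw [union_insert]
    by_cases h : e ∈ E ∪ K
    · rw [insert_eq_of_mem h]; exact ih
    · exact ih.trans (ex_insert_mono hp hp1 hq h hf0 hf)

lemma ex_union_anti (E K : Finset (Sym2 V)) {N : Finset (Sym2 V) → ℝ}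
    (hN : Antitone N) : ex p q (E ∪ K) N ≤ ex p q E N := by
  have h1 : ∀ ω, 0 ≤ N ∅ - N ω := fun ω => sub_nonneg.mpr (hN (empty_subset ω))
  have h2 : Monotone fun ω => N ∅ - N ω := fun ω ω' h => by
    have := hN h; simp only; linarith
  have h3 := ex_union_mono hp hp1 hq E K h1 h2
  rw [ex_sub, ex_sub, ex_const hp hp1 hq, ex_const hp hp1 hq] at h3
  linarith

end

lemma not_conn_of_isolated {ω : Finset (Sym2 V)} {x v : V} (h : ∀ e ∈ ω, x ∉ e) (hxv : x ≠ v) :
    ¬ Conn ω x v := by
  rintro ⟨w⟩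
  cases w with
  | nil => exact hxv rfl
  | cons hadj _ =>
    rw [gr, SimpleGraph.fromEdgeSet_adj] at hadj
    exact h _ (by exact_mod_cast hadj.1) (Sym2.mem_mk_left _ _)

/-- the key pointwise identity -/
lemma key_identity {q : ℝ} (hq : 1 ≤ q) (x b z : V) (ω : Finset (Sym2 V)) (n : ℝ) :
    q * (theta q s(x, b) ω * (n * ind x z (insert s(x, b) ω))) =
      (q - 1) * (n * ind x z ω) + (n * ind b z ω +
        (2 - q) * ((n * (1 - ind x b ω)) * ind x z ω)) := by
  have hq0 : q ≠ 0 := by positivity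
  have hins : ind x z (insert s(x, b) ω) = if Conn ω x z ∨ Conn ω b z then 1 else 0 := by
    unfold ind
    congr 1
    refine propext ?_
    rw [conn_insert]
    constructor
    · rintro (h | ⟨_, h⟩ | ⟨_, h⟩)
      · exact Or.inl h
      · exact Or.inr h
      · exact Or.inl h
    · rintro (h | h)
      · exact Or.inl h
      · exact Or.inr (Or.inl ⟨Conn.refl _ _, h⟩)
  rw [hins, theta_mk]
  unfold ind
  by_cases hxb : Conn ω x b
  · by_cases hxz : Conn ω x z
    · have hbz : Conn ω b z := hxb.symm.trans hxz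
      simp [hxb, hxz, hbz]
      ring
    · have hbz : ¬ Conn ω b z := fun h => hxz (hxb.trans h)
      simp [hxb, hxz, hbz]
  · by_cases hxz : Conn ω x z
    · have hbz : ¬ Conn ω b z := fun h => hxb (hxz.trans h.symm)
      simp [hxb, hxz, hbz]
      field_simp
      ring
    · by_cases hbz : Conn ω b z
      · simp [hxb, hxz, hbz]
        field_simp
      · simp [hxb, hxz, hbz]

lemma ind_self (a : V) (ω : Finset (Sym2 V)) : ind a a ω = 1 := by
  unfold ind; rw [if_pos (Conn.refl _ _)]

lemma caseA {p q : ℝ} (hp : 0 ≤ p) (hp1 : p ≤ 1) (hq : 1 ≤ q) {W : Finset V} {z x : V}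
    (hx : x ∈ W) (F K : Finset (Sym2 V)) {N : Finset (Sym2 V) → ℝ} (hN0 : ∀ ω, 0 ≤ N ω)
    (hN : Antitone N) :
    ex p q (F ∪ K) (fun ω => N ω * ind x z ω) ≤
      ∑ y ∈ W, ex p q F (fun ω => N ω * ind x y ω) * ex p q (F ∪ K) (ind y z) := by
  have h1 : ex p q (F ∪ K) (fun ω => N ω * ind x z ω) ≤
      ex p q F (fun ω => N ω * ind x x ω) * ex p q (F ∪ K) (ind x z) := by
    simp only [ind_self, mul_one]
    refine (ex_fkg_anti hp hp1 hq (F ∪ K) (ind_nonneg x z) hN (ind_mono x z)).trans ?_
    exact mul_le_mul_of_nonneg_right (ex_union_anti hp hp1 hq F K hN)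
      (ex_nonneg hp hp1 hq _ (ind_nonneg x z))
  refine h1.trans ?_
  refine Finset.single_le_sum
    (f := fun y => ex p q F (fun ω => N ω * ind x y ω) * ex p q (F ∪ K) (ind y z))
    (fun y _ => ?_) hx
  exact mul_nonneg (ex_nonneg hp hp1 hq _ fun ω => mul_nonneg (hN0 ω) (ind_nonneg _ _ ω))
    (ex_nonneg hp hp1 hq _ (ind_nonneg y z))

lemma ex_eq_zero {p q : ℝ} {E : Finset (Sym2 V)} {f : Finset (Sym2 V) → ℝ}
    (h : ∀ ω, ω ⊆ E → f ω = 0) : ex p q E f = 0 := by
  unfold ex S
  rw [Finset.sum_eq_zero, zero_div]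
  intro ω hω
  rw [h ω (mem_powerset.mp hω), mul_zero]

/-- The Lieb inequality with a decreasing weight `N`. -/
theorem lieb_aux {p q : ℝ} (hp : 0 ≤ p) (hp1 : p ≤ 1) (hq : 1 ≤ q) (hq2 : q ≤ 2)
    {W : Finset V} {U : Set V} {K : Finset (Sym2 V)} {z : V}
    (hK : ∀ e ∈ K, ∀ v ∈ e, v ∉ U) (hz : z ∉ U) :
    ∀ (n : ℕ) (F : Finset (Sym2 V)), F.card ≤ n → (∀ e ∈ F, ∀ v ∈ e, v ∈ U ∨ v ∈ W) →
      Disjoint F K → ∀ N : Finset (Sym2 V) → ℝ, (∀ ω, 0 ≤ N ω) → Antitone N →
      ∀ x : V, (x ∈ U ∨ x ∈ W) →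
      ex p q (F ∪ K) (fun ω => N ω * ind x z ω) ≤
        ∑ y ∈ W, ex p q F (fun ω => N ω * ind x y ω) * ex p q (F ∪ K) (ind y z) := by
  intro n
  induction n with
  | zero =>
    intro F hF hFW hdisj N hN0 hN x hx
    have hF0 : F = ∅ := by rw [← Finset.card_eq_zero]; omega
    rcases hx with hxU | hxW
    · have hxz : x ≠ z := fun h => hz (h ▸ hxU)
      have h0 : ex p q (F ∪ K) (fun ω => N ω * ind x z ω) = 0 := by
        refine ex_eq_zero fun ω hω => ?_
        have : ¬ Conn ω x z := by
          refine not_conn_of_isolated (fun e he hxe => ?_) hxz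
          have he' := hω he
          rw [hF0, empty_union] at he'
          exact hK e he' x hxe hxU
        simp [ind, this]
      rw [h0]
      exact Finset.sum_nonneg fun y _ =>
        mul_nonneg (ex_nonneg hp hp1 hq _ fun ω => mul_nonneg (hN0 ω) (ind_nonneg _ _ ω))
          (ex_nonneg hp hp1 hq _ (ind_nonneg y z))
    · exact caseA hp hp1 hq hxW F K hN0 hN
  | succ n ih =>
    intro F hF hFW hdisj N hN0 hN x hx
    rcases hx with hxU | hxW
    swap
    · exact caseA hp hp1 hq hxW F K hN0 hN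
    by_cases hex : ∃ e ∈ F, x ∈ e
    swap
    · push Not at hex
      have hxz : x ≠ z := fun h => hz (h ▸ hxU)
      have h0 : ex p q (F ∪ K) (fun ω => N ω * ind x z ω) = 0 := by
        refine ex_eq_zero fun ω hω => ?_
        have : ¬ Conn ω x z := by
          refine not_conn_of_isolated (fun e he hxe => ?_) hxz
          rcases mem_union.mp (hω he) with he' | he'
          · exact hex e he' hxe
          · exact hK e he' x hxe hxU
        simp [ind, this]
      rw [h0]
      exact Finset.sum_nonneg fun y _ =>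
        mul_nonneg (ex_nonneg hp hp1 hq _ fun ω => mul_nonneg (hN0 ω) (ind_nonneg _ _ ω))
          (ex_nonneg hp hp1 hq _ (ind_nonneg y z))
    obtain ⟨e, heF, hxe⟩ := hex
    obtain ⟨b, rfl⟩ : ∃ b, e = s(x, b) := hxe
    set e := s(x, b) with hedef
    set F' := F.erase e with hF'
    have hFe : F = insert e F' := (insert_erase heF).symm
    have heF' : e ∉ F' := notMem_erase _ _
    have heK : e ∉ K := fun h => (Finset.disjoint_left.mp hdisj heF) h
    have heG : e ∉ F' ∪ K := by
      rw [mem_union]; rintro (h | h); exacts [heF' h, heK h]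
    have hcard : F'.card ≤ n := by
      rw [hF', Finset.card_erase_of_mem heF]; omega
    have hFW' : ∀ e ∈ F', ∀ v ∈ e, v ∈ U ∨ v ∈ W := fun e' he' =>
      hFW e' (mem_of_mem_erase he')
    have hdisj' : Disjoint F' K := Finset.disjoint_of_subset_left (erase_subset _ _) hdisj
    have hbUW : b ∈ U ∨ b ∈ W := hFW e heF b (Sym2.mem_mk_right _ _)
    -- the shifted decreasing functions
    set N1 : Finset (Sym2 V) → ℝ := fun ω => N (insert e ω) with hN1
    have hN1anti : Antitone N1 := fun ω ω' h => hN (insert_subset_insert e h)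
    have hN10 : ∀ ω, 0 ≤ N1 ω := fun ω => hN0 _
    set N2 : Finset (Sym2 V) → ℝ := fun ω => N1 ω * (1 - ind x b ω) with hN2
    have hind1 : ∀ ω, 0 ≤ 1 - ind x b ω := fun ω => sub_nonneg.mpr (ind_le_one x b ω)
    have hN20 : ∀ ω, 0 ≤ N2 ω := fun ω => mul_nonneg (hN10 ω) (hind1 ω)
    have hN2anti : Antitone N2 := fun ω ω' h =>
      mul_le_mul (hN1anti h) (sub_le_sub_left (ind_mono x b h) 1) (hind1 _) (hN10 _)
    have hq0 : 0 < q := by linarith
    -- expectation of the shifted functional, any edge set, any target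
    have hshift : ∀ (E : Finset (Sym2 V)) (v : V),
        q * ex p q E (fun ω => theta q e ω * (N (insert e ω) * ind x v (insert e ω))) =
        (q - 1) * ex p q E (fun ω => N1 ω * ind x v ω) + (ex p q E (fun ω => N1 ω * ind b v ω) +
          (2 - q) * ex p q E (fun ω => N2 ω * ind x v ω)) := by
      intro E v
      rw [← ex_mul, ← ex_mul, ← ex_mul, ← ex_add, ← ex_add]
      congr 1
      funext ω
      rw [hedef, key_identity hq x b v ω (N (insert s(x, b) ω))]
    -- shorthand
    set G := F' ∪ K with hG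
    set C : V → ℝ := fun y => ex p q G (ind y z) with hC
    have hC0 : ∀ y, 0 ≤ C y := fun y => ex_nonneg hp hp1 hq _ (ind_nonneg y z)
    set A : V → ℝ := fun y => ex p q F' (fun ω => N ω * ind x y ω) with hA
    have hA0 : ∀ y, 0 ≤ A y := fun y =>
      ex_nonneg hp hp1 hq _ fun ω => mul_nonneg (hN0 ω) (ind_nonneg _ _ ω)
    set B : V → ℝ := fun y =>
      ex p q F' (fun ω => theta q e ω * (N (insert e ω) * ind x y (insert e ω))) with hB
    have hB0 : ∀ y, 0 ≤ B y := fun y => ex_nonneg hp hp1 hq _ fun ω =>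
      mul_nonneg (theta_pos hq e ω).le (mul_nonneg (hN0 _) (ind_nonneg _ _ _))
    set D : V → ℝ := fun y => ex p q G (fun ω => theta q e ω * ind y z (insert e ω)) with hD
    -- (i)
    have h1 : ex p q G (fun ω => N ω * ind x z ω) ≤ ∑ y ∈ W, A y * C y :=
      ih F' hcard hFW' hdisj' N hN0 hN x (Or.inl hxU)
    -- (ii)
    have h2 : ex p q G (fun ω => theta q e ω * (N (insert e ω) * ind x z (insert e ω))) ≤
        ∑ y ∈ W, B y * C y := by
      have hh := ih F' hcard hFW' hdisj' N1 hN10 hN1anti x (Or.inl hxU)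
      have hh2 := ih F' hcard hFW' hdisj' N1 hN10 hN1anti b hbUW
      have hh3 := ih F' hcard hFW' hdisj' N2 hN20 hN2anti x (Or.inl hxU)
      have hl := hshift G z
      have hr : q * ∑ y ∈ W, B y * C y = (q - 1) * (∑ y ∈ W, ex p q F' (fun ω => N1 ω * ind x y ω) * C y)
          + ((∑ y ∈ W, ex p q F' (fun ω => N1 ω * ind b y ω) * C y)
          + (2 - q) * ∑ y ∈ W, ex p q F' (fun ω => N2 ω * ind x y ω) * C y) := by
        rw [Finset.mul_sum, Finset.mul_sum, Finset.mul_sum, ← Finset.sum_add_distrib,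
          ← Finset.sum_add_distrib]
        refine Finset.sum_congr rfl fun y _ => ?_
        have := hshift F' y
        rw [hB]
        simp only
        rw [← mul_assoc, this]
        ring
      have h4 := mul_le_mul_of_nonneg_left hh (show 0 ≤ q - 1 by linarith)
      have h5 := mul_le_mul_of_nonneg_left hh3 (show 0 ≤ 2 - q by linarith)
      have : q * ex p q G (fun ω => theta q e ω * (N (insert e ω) * ind x z (insert e ω))) ≤
          q * ∑ y ∈ W, B y * C y := by
        rw [hl, hr]
        linarith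
      exact le_of_mul_le_mul_left this hq0
    -- (iii)
    have h3 : ∀ y, ex p q F' (theta q e) * C y ≤ D y := by
      intro y
      have e1 : ex p q F' (theta q e) ≤ ex p q G (theta q e) :=
        ex_union_mono hp hp1 hq F' K (fun ω => (theta_pos hq e ω).le) (theta_mono hq e)
      have e2 : ex p q G (theta q e) * C y ≤ ex p q G (fun ω => theta q e ω * ind y z ω) :=
        ex_fkg hp hp1 hq G (fun ω => (theta_pos hq e ω).le) (ind_nonneg y z) (theta_mono hq e)
          (ind_mono y z)
      have e3 : ex p q G (fun ω => theta q e ω * ind y z ω) ≤ D y :=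
        ex_le hp hp1 hq G fun ω => mul_le_mul_of_nonneg_left
          (ind_mono y z (subset_insert _ _)) (theta_pos hq e ω).le
      exact ((mul_le_mul_of_nonneg_right e1 (hC0 y)).trans e2).trans e3
    -- assemble
    have hnG := norm_pos hp hp1 hq G e
    have hnF := norm_pos hp hp1 hq F' e
    have hunion : F ∪ K = insert e G := by rw [hFe, insert_union]
    have hexG : ∀ f, ex p q (F ∪ K) f = ((1 - p) * ex p q G f + p * ex p q G
        (fun ω => theta q e ω * f (insert e ω))) / ((1 - p) + p * ex p q G (theta q e)) := by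
      intro f; rw [hunion, ex_insert hp hp1 hq heG]
    have hexF : ∀ f, ex p q F f = ((1 - p) * ex p q F' f + p * ex p q F'
        (fun ω => theta q e ω * f (insert e ω))) / ((1 - p) + p * ex p q F' (theta q e)) := by
      intro f
      conv_lhs => rw [hFe]
      rw [ex_insert hp hp1 hq heF']
    have hterm : ∀ y ∈ W, ((1 - p) * A y + p * B y) * C y / ((1 - p) + p * ex p q G (theta q e)) ≤
        ex p q F (fun ω => N ω * ind x y ω) * ex p q (F ∪ K) (ind y z) := by
      intro y _
      rw [hexF, hexG, div_mul_div_comm, div_le_div_iff₀ hnG (mul_pos hnF hnG)]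
      have hAB : 0 ≤ (1 - p) * A y + p * B y :=
        add_nonneg (mul_nonneg (by linarith) (hA0 y)) (mul_nonneg hp (hB0 y))
      have hCD : ((1 - p) + p * ex p q F' (theta q e)) * C y ≤ (1 - p) * C y + p * D y := by
        have := mul_le_mul_of_nonneg_left (h3 y) hp
        nlinarith
      have := mul_le_mul_of_nonneg_left hCD (mul_nonneg hAB hnG.le)
      calc ((1 - p) * A y + p * B y) * C y *
            (((1 - p) + p * ex p q F' (theta q e)) * ((1 - p) + p * ex p q G (theta q e)))
          = ((1 - p) * A y + p * B y) * ((1 - p) + p * ex p q G (theta q e)) *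
            (((1 - p) + p * ex p q F' (theta q e)) * C y) := by ring
        _ ≤ ((1 - p) * A y + p * B y) * ((1 - p) + p * ex p q G (theta q e)) *
            ((1 - p) * C y + p * D y) := this
        _ = ((1 - p) * A y + p * B y) * ((1 - p) * C y + p * D y) *
            ((1 - p) + p * ex p q G (theta q e)) := by ring
    refine le_trans ?_ (Finset.sum_le_sum hterm)
    rw [hexG, ← Finset.sum_div]
    refine div_le_div_of_nonneg_right ?_ hnG.le
    have e1 : ∑ y ∈ W, ((1 - p) * A y + p * B y) * C y =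
        (1 - p) * (∑ y ∈ W, A y * C y) + p * ∑ y ∈ W, B y * C y := by
      rw [Finset.mul_sum, Finset.mul_sum, ← Finset.sum_add_distrib]
      exact Finset.sum_congr rfl fun y _ => by ring
    rw [e1]
    exact add_le_add (mul_le_mul_of_nonneg_left h1 (by linarith))
      (mul_le_mul_of_nonneg_left h2 hp)

end Pool.Agent.Helper85.RC
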