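import Mathlib

/-! Auxiliary facts for the signs of the cosine transform: the first summand of the kernel and its
derivatives, and numerical bounds. -/

open Real Set MeasureTheory

namespace Pool.Agent.Helper85.XiSign

/-- `Y = π e^{4t}` -/
noncomputable def Yf (t : ℝ) : ℝ := π * exp (4 * t)

/-- the weight `e^{t - Y}` -/
noncomputable def ew (t : ℝ) : ℝ := exp (t - Yf t)

noncomputable def f0 (t : ℝ) : ℝ := ew t * (2 * Yf t ^ 2 - 3 * Yf t)
noncomputable def f1 (t : ℝ) : ℝ := ew t * (-8 * Yf t ^ 3 + 30 * Yf t ^ 2 - 15 * Yf t)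
noncomputable def f2 (t : ℝ) : ℝ :=
  ew t * (32 * Yf t ^ 4 - 224 * Yf t ^ 3 + 330 * Yf t ^ 2 - 75 * Yf t)
noncomputable def f3 (t : ℝ) : ℝ :=
  ew t * (-128 * Yf t ^ 5 + 1440 * Yf t ^ 4 - 4232 * Yf t ^ 3 + 3270 * Yf t ^ 2 - 375 * Yf t)
noncomputable def f4 (t : ℝ) : ℝ :=
  ew t * (512 * Yf t ^ 6 - 8448 * Yf t ^ 5 + 41408 * Yf t ^ 4 - 68096 * Yf t ^ 3
    + 30930 * Yf t ^ 2 - 1875 * Yf t)

theorem Yf_pos (t : ℝ) : 0 < Yf t := mul_pos pi_pos (exp_pos _)

theorem ew_pos (t : ℝ) : 0 < ew t := exp_pos _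

theorem Yf_deriv (t : ℝ) : HasDerivAt Yf (4 * Yf t) t := by
  have h4 : HasDerivAt (fun t : ℝ => exp (4 * t)) (exp (4 * t) * 4) t := by
    simpa using ((hasDerivAt_id t).const_mul (4 : ℝ)).exp
  refine (h4.const_mul π).congr_deriv ?_
  rw [Yf]; ring

theorem ew_deriv (t : ℝ) : HasDerivAt ew (ew t * (1 - 4 * Yf t)) t :=
  ((hasDerivAt_id t).sub (Yf_deriv t)).exp

theorem f0_deriv (t : ℝ) : HasDerivAt f0 (f1 t) t := by
  have hY := Yf_deriv t
  have h := (ew_deriv t).mul (((hY.pow 2).const_mul 2).sub (hY.const_mul 3))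
  refine h.congr_deriv ?_
  simp only [f1, Pi.sub_apply, Pi.pow_apply]
  push_cast; ring

theorem f1_deriv (t : ℝ) : HasDerivAt f1 (f2 t) t := by
  have hY := Yf_deriv t
  have h := (ew_deriv t).mul ((((hY.pow 3).const_mul (-8)).add ((hY.pow 2).const_mul 30)).sub
    (hY.const_mul 15))
  refine h.congr_deriv ?_
  simp only [f2, Pi.sub_apply, Pi.add_apply, Pi.pow_apply]
  push_cast; ring

theorem f2_deriv (t : ℝ) : HasDerivAt f2 (f3 t) t := by
  have hY := Yf_deriv t
  have h := (ew_deriv t).mul (((((hY.pow 4).const_mul 32).sub ((hY.pow 3).const_mul 224)).add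
    ((hY.pow 2).const_mul 330)).sub (hY.const_mul 75))
  refine h.congr_deriv ?_
  simp only [f3, Pi.sub_apply, Pi.add_apply, Pi.pow_apply]
  push_cast; ring

theorem f3_deriv (t : ℝ) : HasDerivAt f3 (f4 t) t := by
  have hY := Yf_deriv t
  have h := (ew_deriv t).mul ((((((hY.pow 5).const_mul (-128)).add ((hY.pow 4).const_mul 1440)).sub
    ((hY.pow 3).const_mul 4232)).add ((hY.pow 2).const_mul 3270)).sub (hY.const_mul 375))
  refine h.congr_deriv ?_
  simp only [f4, Pi.sub_apply, Pi.add_apply, Pi.pow_apply]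
  push_cast; ring

theorem Yf_cont : Continuous Yf := by unfold Yf; fun_prop
theorem ew_cont : Continuous ew := by unfold ew; have := Yf_cont; fun_prop
theorem f0_cont : Continuous f0 := by unfold f0; have := Yf_cont; have := ew_cont; fun_prop
theorem f1_cont : Continuous f1 := by unfold f1; have := Yf_cont; have := ew_cont; fun_prop
theorem f2_cont : Continuous f2 := by unfold f2; have := Yf_cont; have := ew_cont; fun_prop
theorem f3_cont : Continuous f3 := by unfold f3; have := Yf_cont; have := ew_cont; fun_prop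
theorem f4_cont : Continuous f4 := by unfold f4; have := Yf_cont; have := ew_cont; fun_prop

theorem Yf_mono {a b : ℝ} (h : a ≤ b) : Yf a ≤ Yf b := by
  unfold Yf
  have := pi_pos
  gcongr

/-- four integrations by parts -/
theorem by_parts {z R : ℝ} (hz : 0 < z) (hc : cos (z * R) = 0) :
    z * ∫ t in (0 : ℝ)..R, f0 t * cos (z * t) =
      (f0 R - f2 R / z ^ 2) * sin (z * R) - f1 0 / z + f3 0 / z ^ 3
        + (∫ t in (0 : ℝ)..R, f4 t * cos (z * t)) / z ^ 3 := by
  have hz' : z ≠ 0 := hz.ne'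
  have hd : ∀ t ∈ uIcc 0 R, HasDerivAt (fun t => f0 t * sin (z * t) / z + f1 t * cos (z * t) / z ^ 2
      - f2 t * sin (z * t) / z ^ 3 - f3 t * cos (z * t) / z ^ 4)
      (f0 t * cos (z * t) - f4 t * cos (z * t) / z ^ 4) t := by
    intro t _
    have hl : HasDerivAt (fun t : ℝ => z * t) z t := by
      simpa using (hasDerivAt_id t).const_mul z
    have hs := hl.sin
    have hcs := hl.cos
    have h := ((((f0_deriv t).mul hs).div_const z).add
      (((f1_deriv t).mul hcs).div_const (z ^ 2))).sub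
      (((f2_deriv t).mul hs).div_const (z ^ 3)) |>.sub (((f3_deriv t).mul hcs).div_const (z ^ 4))
    refine h.congr_deriv ?_
    field_simp
    ring
  have hi1 : IntervalIntegrable (fun t => f0 t * cos (z * t)) volume 0 R := by
    apply Continuous.intervalIntegrable
    have := f0_cont; fun_prop
  have hi2 : IntervalIntegrable (fun t => f4 t * cos (z * t) / z ^ 4) volume 0 R := by
    apply Continuous.intervalIntegrable
    have := f4_cont; fun_prop
  have h := intervalIntegral.integral_eq_sub_of_hasDerivAt hd (hi1.sub hi2)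
  rw [intervalIntegral.integral_sub hi1 hi2, intervalIntegral.integral_div] at h
  simp only [hc, mul_zero, sin_zero, cos_zero, zero_div, mul_one, add_zero, zero_add, sub_zero] at h
  have h2 : ∫ t in (0 : ℝ)..R, f0 t * cos (z * t) =
      (∫ t in (0 : ℝ)..R, f4 t * cos (z * t)) / z ^ 4 + (f0 R * sin (z * R) / z
      - f2 R * sin (z * R) / z ^ 3 - (f1 0 / z ^ 2 - f3 0 / z ^ 4)) := by
    linarith
  rw [h2]
  field_simp
  ring

end Pool.Agent.Helper85.XiSign
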