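import Pool.Agent.Helper85.XiSign1

/-! Polynomial certificates and numerical bounds. -/

open Real Set MeasureTheory

namespace Pool.Agent.Helper85.XiSign

theorem c4a {Y : ℝ} (h1 : (157/50) ≤ Y) (h2 : Y ≤ (23/5)) :
    0 ≤ 512 * Y ^ 5 - 8448 * Y ^ 4 + 41408 * Y ^ 3 - 68096 * Y ^ 2 + 30930 * Y - 1875 := by
  have e : 512 * Y ^ 5 - 8448 * Y ^ 4 + 41408 * Y ^ 3 - 68096 * Y ^ 2 + 30930 * Y - 1875 =
      (12763404446784/2073071593) * ((23/5) - Y) ^ 5 +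
      (77858873122400/2073071593) * (Y - (157/50)) * ((23/5) - Y) ^ 4 +
      (170955075840000/2073071593) * (Y - (157/50)) ^ 2 * ((23/5) - Y) ^ 3 +
      (159518688520000/2073071593) * (Y - (157/50)) ^ 3 * ((23/5) - Y) ^ 2 +
      (53209023800000/2073071593) * (Y - (157/50)) ^ 4 * ((23/5) - Y) +
      (611355100000/2073071593) * (Y - (157/50)) ^ 5 := by ring
  rw [e]
  have k1 : 0 ≤ Y - (157/50) := by linarith
  have k2 : 0 ≤ (23/5) - Y := by linarith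
  positivity

theorem c4b {Y : ℝ} (h1 : (463/100) ≤ Y) (h2 : Y ≤ (881/100)) :
    0 ≤ -512 * Y ^ 5 + 8448 * Y ^ 4 - 41408 * Y ^ 3 + 68096 * Y ^ 2 - 30930 * Y + 1875 := by
  have e : -512 * Y ^ 5 + 8448 * Y ^ 4 - 41408 * Y ^ 3 + 68096 * Y ^ 2 - 30930 * Y + 1875 =
      (439148083712/398778220049) * ((881/100) - Y) ^ 5 +
      (151355847032320/398778220049) * (Y - (463/100)) * ((881/100) - Y) ^ 4 +
      (990654909486080/398778220049) * (Y - (463/100)) ^ 2 * ((881/100) - Y) ^ 3 +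
      (2189002880117760/398778220049) * (Y - (463/100)) ^ 3 * ((881/100) - Y) ^ 2 +
      (1684445692975360/398778220049) * (Y - (463/100)) ^ 4 * ((881/100) - Y) +
      (131006574729984/398778220049) * (Y - (463/100)) ^ 5 := by ring
  rw [e]
  have k1 : 0 ≤ Y - (463/100) := by linarith
  have k2 : 0 ≤ (881/100) - Y := by linarith
  positivity

theorem c3a {Y : ℝ} (h1 : (157/50) ≤ Y) (h2 : Y ≤ (177/25)) :
    0 ≤ -128 * Y ^ 4 + 1440 * Y ^ 3 - 4232 * Y ^ 2 + 3270 * Y - 375 := by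
  have e : -128 * Y ^ 4 + 1440 * Y ^ 3 - 4232 * Y ^ 2 + 3270 * Y - 375 =
      (1906506272/1506138481) * ((177/25) - Y) ^ 4 +
      (92223495536/1506138481) * (Y - (157/50)) * ((177/25) - Y) ^ 3 +
      (436051901488/1506138481) * (Y - (157/50)) ^ 2 * ((177/25) - Y) ^ 2 +
      (538960534224/1506138481) * (Y - (157/50)) ^ 3 * ((177/25) - Y) +
      (439896432/1506138481) * (Y - (157/50)) ^ 4 := by ring
  rw [e]
  have k1 : 0 ≤ Y - (157/50) := by linarith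
  have k2 : 0 ≤ (177/25) - Y := by linarith
  positivity

theorem c3b {Y : ℝ} (h1 : (709/100) ≤ Y) (h2 : Y ≤ (881/100)) :
    0 ≤ 128 * Y ^ 4 - 1440 * Y ^ 3 + 4232 * Y ^ 2 - 3270 * Y + 375 := by
  have e : 128 * Y ^ 4 - 1440 * Y ^ 3 + 4232 * Y ^ 2 - 3270 * Y + 375 =
      (58197568/3418801) * ((881/100) - Y) ^ 4 +
      (15053541448/3418801) * (Y - (709/100)) * ((881/100) - Y) ^ 3 +
      (58920581048/3418801) * (Y - (709/100)) ^ 2 * ((881/100) - Y) ^ 2 +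
      (77266495288/3418801) * (Y - (709/100)) ^ 3 * ((881/100) - Y) +
      (33778864648/3418801) * (Y - (709/100)) ^ 4 := by ring
  rw [e]
  have k1 : 0 ≤ Y - (709/100) := by linarith
  have k2 : 0 ≤ (881/100) - Y := by linarith
  positivity

theorem c4c {Y : ℝ} (h1 : (23/5) ≤ Y) (h2 : Y ≤ (463/100)) :
    0 ≤ 512 * Y ^ 5 - 8448 * Y ^ 4 + 41408 * Y ^ 3 - 68096 * Y ^ 2 + 30930 * Y + 725 := by
  have e : 512 * Y ^ 5 - 8448 * Y ^ 4 + 41408 * Y ^ 3 - 68096 * Y ^ 2 + 30930 * Y + 725 =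
      (45563363200000/243) * ((463/100) - Y) ^ 5 +
      (194839995200000/243) * (Y - (23/5)) * ((463/100) - Y) ^ 4 +
      (323088578560000/243) * (Y - (23/5)) ^ 2 * ((463/100) - Y) ^ 3 +
      (255857858560000/243) * (Y - (23/5)) ^ 3 * ((463/100) - Y) ^ 2 +
      (93993173196800/243) * (Y - (23/5)) ^ 4 * ((463/100) - Y) +
      (11947261321216/243) * (Y - (23/5)) ^ 5 := by ring
  rw [e]
  have k1 : 0 ≤ Y - (23/5) := by linarith
  have k2 : 0 ≤ (463/100) - Y := by linarith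
  positivity

theorem c4d {Y : ℝ} (h1 : (23/5) ≤ Y) (h2 : Y ≤ (463/100)) :
    0 ≤ -512 * Y ^ 5 + 8448 * Y ^ 4 - 41408 * Y ^ 3 + 68096 * Y ^ 2 - 30930 * Y + 4475 := by
  have e : -512 * Y ^ 5 + 8448 * Y ^ 4 - 41408 * Y ^ 3 + 68096 * Y ^ 2 - 30930 * Y + 4475 =
      (2145545600000/81) * ((463/100) - Y) ^ 5 +
      (21720001600000/81) * (Y - (23/5)) * ((463/100) - Y) ^ 4 +
      (65637140480000/81) * (Y - (23/5)) ^ 2 * ((463/100) - Y) ^ 3 +
      (88047380480000/81) * (Y - (23/5)) ^ 3 * ((463/100) - Y) ^ 2 +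
      (55335608934400/81) * (Y - (23/5)) ^ 4 * ((463/100) - Y) +
      (13350912892928/81) * (Y - (23/5)) ^ 5 := by ring
  rw [e]
  have k1 : 0 ≤ Y - (23/5) := by linarith
  have k2 : 0 ≤ (463/100) - Y := by linarith
  positivity

/-! ### elementary bounds -/

theorem exp_ub (n : ℕ) {x : ℝ} (h0 : 0 ≤ x) (h1 : x ≤ 1) : exp (n + x) ≤
    (2.7182818286 : ℝ) ^ n * (1 + x + x ^ 2 / 2 + x ^ 3 / 6 + x ^ 4 / 24 + x ^ 5 / 120
      + x ^ 6 * 7 / 4320) := by
  rw [exp_add]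
  have e1 : exp (n : ℝ) = exp 1 ^ n := by rw [← exp_nat_mul, mul_one]
  have e2 : exp x ≤ 1 + x + x ^ 2 / 2 + x ^ 3 / 6 + x ^ 4 / 24 + x ^ 5 / 120
      + x ^ 6 * 7 / 4320 := by
    have h := Real.exp_bound' h0 h1 (n := 6) (by norm_num)
    refine h.trans (le_of_eq ?_)
    simp only [Finset.sum_range_succ, Finset.sum_range_zero, Nat.factorial]
    push_cast
    ring
  rw [e1]
  have h3 : exp 1 ≤ (2.7182818286 : ℝ) := exp_one_lt_d9.le
  have h4 := exp_pos (1 : ℝ)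
  have h5 := exp_pos x
  gcongr

theorem exp_lb (n : ℕ) {x : ℝ} (h0 : 0 ≤ x) :
    (2.7182818283 : ℝ) ^ n * (1 + x + x ^ 2 / 2 + x ^ 3 / 6 + x ^ 4 / 24 + x ^ 5 / 120) ≤
      exp (n + x) := by
  rw [exp_add]
  have e1 : exp (n : ℝ) = exp 1 ^ n := by rw [← exp_nat_mul, mul_one]
  have e2 : 1 + x + x ^ 2 / 2 + x ^ 3 / 6 + x ^ 4 / 24 + x ^ 5 / 120 ≤ exp x := by
    have h := Real.sum_le_exp_of_nonneg h0 6
    refine le_trans (le_of_eq ?_) h
    simp only [Finset.sum_range_succ, Finset.sum_range_zero, Nat.factorial]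
    push_cast
    ring
  rw [e1]
  have h3 : (2.7182818283 : ℝ) ≤ exp 1 := exp_one_gt_d9.le
  gcongr

theorem exp_neg_ub {x b : ℝ} (hb : 0 < b) (h : 1 / b ≤ exp x) : exp (-x) ≤ b := by
  rw [exp_neg]
  rw [inv_le_comm₀ (exp_pos _) hb, ← one_div]
  exact h

theorem exp_neg_lb {x b : ℝ} (hb : 0 < b) (h : exp x ≤ 1 / b) : b ≤ exp (-x) := by
  rw [exp_neg, le_inv_comm₀ hb (exp_pos _), ← one_div]
  exact h

theorem exp_le_of_Yf {t c : ℝ} (hc : 0 ≤ c) (h : Yf t ≤ 3.1415 * c ^ 4) : exp t ≤ c := by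
  by_contra hlt
  push Not at hlt
  have h1 : c ^ 4 < exp t ^ 4 := pow_lt_pow_left₀ hlt hc (by norm_num)
  have h2 : exp t ^ 4 = exp (4 * t) := by rw [← exp_nat_mul]; norm_num
  rw [h2] at h1
  have h3 : (3.1415 : ℝ) < π := pi_gt_d4
  have h4 : 3.1415 * c ^ 4 < Yf t := by
    rw [Yf]
    have h5 : 0 < exp (4 * t) := exp_pos _
    nlinarith
  linarith

/-- the point where `Y = y` -/
noncomputable def tp (y : ℝ) : ℝ := log (y / π) / 4

theorem Yf_tp {y : ℝ} (hy : 0 < y) : Yf (tp y) = y := by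
  have h : 0 < y / π := div_pos hy pi_pos
  rw [Yf, tp, mul_div_cancel₀ _ (by norm_num), exp_log h, mul_div_cancel₀ _ pi_pos.ne']

theorem le_of_Yf_le {a b : ℝ} (h : Yf a ≤ Yf b) : a ≤ b := by
  rw [Yf, Yf] at h
  have h1 : exp (4 * a) ≤ exp (4 * b) := le_of_mul_le_mul_left h pi_pos
  have := exp_le_exp.1 h1
  linarith

theorem Yf_zero : Yf 0 = π := by simp [Yf]

theorem Yf_ge {t : ℝ} (ht : 0 ≤ t) : 157 / 50 ≤ Yf t := by
  have h := Yf_mono ht
  rw [Yf_zero] at h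
  have := pi_gt_d4
  linarith

/-- the right end of the range -/
noncomputable def TT : ℝ := 2575 / 10000

theorem YT_hi : Yf TT ≤ 881 / 100 := by
  have h := exp_ub 1 (x := 3 / 100) (by norm_num) (by norm_num)
  have e : Yf TT = π * exp ((1 : ℕ) + 3 / 100) := by
    rw [Yf, TT]; congr 2; norm_num
  have h2 : exp ((1 : ℕ) + 3 / 100) ≤ 2.802 := h.trans (by norm_num)
  have h3 := pi_lt_d4
  rw [e]
  have h4 := exp_pos ((1 : ℕ) + 3 / 100 : ℝ)
  nlinarith [pi_pos]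

theorem YT_lo : 879 / 100 ≤ Yf TT := by
  have h := exp_lb 1 (x := 3 / 100) (by norm_num)
  have e : Yf TT = π * exp ((1 : ℕ) + 3 / 100) := by
    rw [Yf, TT]; congr 2; norm_num
  have h2 : 2.8 ≤ exp ((1 : ℕ) + 3 / 100 : ℝ) := le_trans (by norm_num) h
  have h3 := pi_gt_d4
  rw [e]
  nlinarith [pi_pos]

theorem Y23_hi : Yf (23 / 100) ≤ 79 / 10 := by
  have h := exp_ub 0 (x := 92 / 100) (by norm_num) (by norm_num)
  have e : Yf (23 / 100) = π * exp ((0 : ℕ) + 92 / 100) := by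
    rw [Yf]; congr 2; norm_num
  have h2 : exp ((0 : ℕ) + 92 / 100) ≤ 2.511 := h.trans (by norm_num)
  have h3 := pi_lt_d4
  rw [e]
  have h4 := exp_pos ((0 : ℕ) + 92 / 100 : ℝ)
  nlinarith [pi_pos]

theorem Y23_lo : 787 / 100 ≤ Yf (23 / 100) := by
  have h := exp_lb 0 (x := 92 / 100) (by norm_num)
  have e : Yf (23 / 100) = π * exp ((0 : ℕ) + 92 / 100) := by
    rw [Yf]; congr 2; norm_num
  have h2 : 2.507 ≤ exp ((0 : ℕ) + 92 / 100 : ℝ) := le_trans (by norm_num) h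
  have h3 := pi_gt_d4
  rw [e]
  nlinarith [pi_pos]

theorem Y19_hi : Yf (19 / 100) ≤ 674 / 100 := by
  have h := exp_ub 0 (x := 76 / 100) (by norm_num) (by norm_num)
  have e : Yf (19 / 100) = π * exp ((0 : ℕ) + 76 / 100) := by
    rw [Yf]; congr 2; norm_num
  have h2 : exp ((0 : ℕ) + 76 / 100) ≤ 2.14 := h.trans (by norm_num)
  have h3 := pi_lt_d4
  rw [e]
  have h4 := exp_pos ((0 : ℕ) + 76 / 100 : ℝ)
  nlinarith [pi_pos]

theorem Y19_lo : 67 / 10 ≤ Yf (19 / 100) := by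
  have h := exp_lb 0 (x := 76 / 100) (by norm_num)
  have e : Yf (19 / 100) = π * exp ((0 : ℕ) + 76 / 100) := by
    rw [Yf]; congr 2; norm_num
  have h2 : 2.137 ≤ exp ((0 : ℕ) + 76 / 100 : ℝ) := le_trans (by norm_num) h
  have h3 := pi_gt_d4
  rw [e]
  nlinarith [pi_pos]

theorem ew_eq (t : ℝ) : ew t = exp t * exp (-Yf t) := by
  rw [ew, ← exp_add, sub_eq_add_neg]

/-! ### the lower bound for `f0` -/

theorem f1_nonpos {t : ℝ} (h : 32 / 10 ≤ Yf t) : f1 t ≤ 0 := by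
  rw [f1]
  apply mul_nonpos_of_nonneg_of_nonpos (ew_pos t).le
  have h1 : 0 ≤ 8 * Yf t ^ 2 - 30 * Yf t + 15 := by nlinarith
  nlinarith

theorem f0_ge_right {t T : ℝ} (ht : 0 ≤ t) (htT : t ≤ T) (c : ℝ) (hc : c ≤ f0 T)
    (hc2 : c ≤ 4 / 10) : c ≤ f0 t := by
  rcases le_or_gt (Yf t) (32 / 10) with h | h
  · have h1 := Yf_ge ht
    have h2 : exp (-(32 / 10)) ≤ ew t := by
      rw [ew]; apply exp_le_exp.2; linarith
    have h3 : (407 / 10000 : ℝ) ≤ exp (-(32 / 10)) := by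
      apply exp_neg_lb (by norm_num)
      have h := exp_ub 3 (x := 2 / 10) (by norm_num) (by norm_num)
      have e : ((32 / 10 : ℝ)) = (3 : ℕ) + 2 / 10 := by norm_num
      rw [e]
      exact h.trans (by norm_num)
    have h4 : 102 / 10 ≤ 2 * Yf t ^ 2 - 3 * Yf t := by nlinarith
    rw [f0]
    have h5 : 407 / 10000 ≤ ew t := h3.trans h2
    calc c ≤ 4 / 10 := hc2
      _ ≤ 407 / 10000 * (102 / 10) := by norm_num
      _ ≤ _ := by gcongr
  · refine hc.trans ?_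
    have hanti : AntitoneOn f0 (Icc t T) := by
      apply antitoneOn_of_deriv_nonpos (convex_Icc t T) f0_cont.continuousOn
      · exact fun x _ => (f0_deriv x).differentiableAt.differentiableWithinAt
      · intro x hx
        rw [interior_Icc] at hx
        rw [(f0_deriv x).deriv]
        apply f1_nonpos
        have := Yf_mono hx.1.le
        linarith
    exact hanti ⟨le_rfl, htT⟩ ⟨htT, le_rfl⟩ htT

theorem f0_ge_of {T a b c e : ℝ} (ha : 2 ≤ a) (h1 : a ≤ Yf T) (h2 : Yf T ≤ b) (he : 0 ≤ e)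
    (h3 : e ≤ exp (T - b)) (h4 : c ≤ e * (2 * a ^ 2 - 3 * a)) : c ≤ f0 T := by
  rw [f0]
  have h5 : e ≤ ew T := h3.trans (by rw [ew]; apply exp_le_exp.2; linarith)
  have h6 : 2 * a ^ 2 - 3 * a ≤ 2 * Yf T ^ 2 - 3 * Yf T := by nlinarith
  have h7 : 0 ≤ 2 * a ^ 2 - 3 * a := by nlinarith
  refine h4.trans ?_
  exact mul_le_mul h5 h6 h7 (ew_pos T).le

theorem f0_TT : 245 / 10000 ≤ f0 TT := by
  apply f0_ge_of (a := 879 / 100) (b := 881 / 100) (e := 1929 / 10 ^ 7) (by norm_num) YT_lo YT_hi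
    (by norm_num) _ (by norm_num)
  have e : TT - 881 / 100 = -((8 : ℕ) + 5525 / 10000) := by rw [TT]; norm_num
  rw [e]
  apply exp_neg_lb (by norm_num)
  exact (exp_ub 8 (x := 5525 / 10000) (by norm_num) (by norm_num)).trans (by norm_num)

theorem f0_23 : 45 / 1000 ≤ f0 (23 / 100) := by
  apply f0_ge_of (a := 787 / 100) (b := 79 / 10) (e := 466 / 10 ^ 6) (by norm_num) Y23_lo Y23_hi
    (by norm_num) _ (by norm_num)
  have e : (23 / 100 : ℝ) - 79 / 10 = -((7 : ℕ) + 67 / 100) := by norm_num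
  rw [e]
  apply exp_neg_lb (by norm_num)
  exact (exp_ub 7 (x := 67 / 100) (by norm_num) (by norm_num)).trans (by norm_num)

theorem f0_19 : 98 / 1000 ≤ f0 (19 / 100) := by
  apply f0_ge_of (a := 67 / 10) (b := 674 / 100) (e := 1429 / 10 ^ 6) (by norm_num) Y19_lo Y19_hi
    (by norm_num) _ (by norm_num)
  have e : (19 / 100 : ℝ) - 674 / 100 = -((6 : ℕ) + 55 / 100) := by norm_num
  rw [e]
  apply exp_neg_lb (by norm_num)
  exact (exp_ub 6 (x := 55 / 100) (by norm_num) (by norm_num)).trans (by norm_num)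

end Pool.Agent.Helper85.XiSign
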