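import Pool.Agent.Helper85.XiSign2

/-! Bounds for the second and fourth derivative. -/

open Real Set MeasureTheory

namespace Pool.Agent.Helper85.XiSign

theorem f3_eq (t : ℝ) : f3 t = ew t * Yf t *
    (-128 * Yf t ^ 4 + 1440 * Yf t ^ 3 - 4232 * Yf t ^ 2 + 3270 * Yf t - 375) := by
  rw [f3]; ring

theorem f4_eq (t : ℝ) : f4 t = ew t * Yf t *
    (512 * Yf t ^ 5 - 8448 * Yf t ^ 4 + 41408 * Yf t ^ 3 - 68096 * Yf t ^ 2
      + 30930 * Yf t - 1875) := by
  rw [f4]; ring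

theorem f4_nonneg {t : ℝ} (h1 : 157 / 50 ≤ Yf t) (h2 : Yf t ≤ 23 / 5) : 0 ≤ f4 t := by
  rw [f4_eq]
  have := c4a h1 h2
  have h3 := ew_pos t
  have h4 := Yf_pos t
  positivity

theorem f4_nonpos {t : ℝ} (h1 : 463 / 100 ≤ Yf t) (h2 : Yf t ≤ 881 / 100) : f4 t ≤ 0 := by
  rw [f4_eq]
  have := c4b h1 h2
  have h3 := ew_pos t
  have h4 := Yf_pos t
  apply mul_nonpos_of_nonneg_of_nonpos (by positivity)
  linarith

theorem f3_nonneg {t : ℝ} (h1 : 157 / 50 ≤ Yf t) (h2 : Yf t ≤ 177 / 25) : 0 ≤ f3 t := by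
  rw [f3_eq]
  have := c3a h1 h2
  have h3 := ew_pos t
  have h4 := Yf_pos t
  positivity

theorem f3_nonpos {t : ℝ} (h1 : 709 / 100 ≤ Yf t) (h2 : Yf t ≤ 881 / 100) : f3 t ≤ 0 := by
  rw [f3_eq]
  have := c3b h1 h2
  have h3 := ew_pos t
  have h4 := Yf_pos t
  apply mul_nonpos_of_nonneg_of_nonpos (by positivity)
  linarith

/-! ### the second derivative -/

theorem ew_mid {t : ℝ} (h1 : 177 / 25 ≤ Yf t) (h2 : Yf t ≤ 709 / 100) :
    ew t ≤ 12258 / 10000 * (843 / 10 ^ 6) := by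
  rw [ew_eq]
  have h3 : exp t ≤ 12258 / 10000 := by
    apply exp_le_of_Yf (by norm_num)
    refine h2.trans (by norm_num)
  have h4 : exp (-Yf t) ≤ 843 / 10 ^ 6 := by
    have h5 : exp (-Yf t) ≤ exp (-(177 / 25)) := exp_le_exp.2 (by linarith)
    refine h5.trans ?_
    apply exp_neg_ub (by norm_num)
    have e : (177 / 25 : ℝ) = (7 : ℕ) + 8 / 100 := by norm_num
    rw [e]
    exact le_trans (by norm_num) (exp_lb 7 (x := 8 / 100) (by norm_num))
  have := exp_pos t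
  have := exp_pos (-Yf t)
  gcongr

theorem f2_mid {t : ℝ} (h1 : 177 / 25 ≤ Yf t) (h2 : Yf t ≤ 709 / 100) : f2 t ≤ 18 := by
  have h3 := ew_mid h1 h2
  rw [f2]
  have h4 : 32 * Yf t ^ 4 - 224 * Yf t ^ 3 + 330 * Yf t ^ 2 - 75 * Yf t ≤ 17100 := by
    have e1 : Yf t ^ 2 ≤ (709 / 100) ^ 2 := by gcongr
    have k1 : 0 ≤ Yf t - 177 / 25 := by linarith
    have k2 : 0 ≤ 709 / 100 - Yf t := by linarith
    have e2 : 0 ≤ 32 * Yf t ^ 2 - 224 * Yf t := by nlinarith
    have e3 : 32 * Yf t ^ 2 - 224 * Yf t ≤ 32 * (709 / 100) ^ 2 - 224 * (709 / 100) := by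
      nlinarith
    have e4 : (32 * Yf t ^ 2 - 224 * Yf t) * Yf t ^ 2 ≤
        (32 * (709 / 100) ^ 2 - 224 * (709 / 100)) * (709 / 100) ^ 2 := by gcongr
    nlinarith
  rcases le_or_gt (32 * Yf t ^ 4 - 224 * Yf t ^ 3 + 330 * Yf t ^ 2 - 75 * Yf t) 0 with h | h
  · have := mul_nonpos_of_nonneg_of_nonpos (ew_pos t).le h
    linarith
  · exact (mul_le_mul h3 h4 h.le (by norm_num)).trans (by norm_num)

theorem f2_le {t : ℝ} (h0 : 0 ≤ t) (h1 : t ≤ TT) : f2 t ≤ 18 := by
  have hY := Yf_ge h0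
  have hY2 := (Yf_mono h1).trans YT_hi
  have e1 : Yf (tp (177 / 25)) = 177 / 25 := Yf_tp (by norm_num)
  have e2 : Yf (tp (709 / 100)) = 709 / 100 := Yf_tp (by norm_num)
  rcases le_or_gt (Yf t) (177 / 25) with h | h
  · have hle : t ≤ tp (177 / 25) := le_of_Yf_le (by rw [e1]; exact h)
    have hmono : MonotoneOn f2 (Icc t (tp (177 / 25))) := by
      apply monotoneOn_of_deriv_nonneg (convex_Icc _ _) f2_cont.continuousOn
      · exact fun x _ => (f2_deriv x).differentiableAt.differentiableWithinAt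
      · intro x hx
        rw [interior_Icc] at hx
        rw [(f2_deriv x).deriv]
        apply f3_nonneg
        · exact hY.trans (Yf_mono hx.1.le)
        · exact (Yf_mono hx.2.le).trans (le_of_eq e1)
    exact (hmono ⟨le_rfl, hle⟩ ⟨hle, le_rfl⟩ hle).trans (f2_mid (by rw [e1]) (by rw [e1]; norm_num))
  · rcases le_or_gt (Yf t) (709 / 100) with h' | h'
    · exact f2_mid h.le h'
    · have hle : tp (709 / 100) ≤ t := le_of_Yf_le (by rw [e2]; exact h'.le)
      have hanti : AntitoneOn f2 (Icc (tp (709 / 100)) t) := by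
        apply antitoneOn_of_deriv_nonpos (convex_Icc _ _) f2_cont.continuousOn
        · exact fun x _ => (f2_deriv x).differentiableAt.differentiableWithinAt
        · intro x hx
          rw [interior_Icc] at hx
          rw [(f2_deriv x).deriv]
          apply f3_nonpos
          · exact (le_of_eq e2.symm).trans (Yf_mono hx.1.le)
          · exact (Yf_mono hx.2.le).trans hY2
      exact (hanti ⟨le_rfl, hle⟩ ⟨hle, le_rfl⟩ hle).trans
        (f2_mid (by rw [e2]; norm_num) (by rw [e2]))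

/-! ### the fourth derivative -/

theorem f3_a : f3 (tp (23 / 5)) ≤ 407 := by
  have e : Yf (tp (23 / 5)) = 23 / 5 := Yf_tp (by norm_num)
  rw [f3, ew_eq, e]
  have h1 : exp (tp (23 / 5)) ≤ 11002 / 10000 := by
    apply exp_le_of_Yf (by norm_num)
    rw [e]; norm_num
  have h2 : exp (-(23 / 5)) ≤ 10054 / 10 ^ 6 := by
    apply exp_neg_ub (by norm_num)
    have e : (23 / 5 : ℝ) = (4 : ℕ) + 6 / 10 := by norm_num
    rw [e]
    exact le_trans (by norm_num) (exp_lb 4 (x := 6 / 10) (by norm_num))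
  have h3 := exp_pos (tp (23 / 5))
  have h4 := exp_pos (-(23 / 5) : ℝ)
  have h5 : exp (tp (23 / 5)) * exp (-(23 / 5)) ≤ 11002 / 10000 * (10054 / 10 ^ 6) :=
    mul_le_mul h1 h2 h4.le (by norm_num)
  exact (mul_le_mul_of_nonneg_right h5 (by norm_num)).trans (by norm_num)

theorem f3_b : f3 (tp (463 / 100)) ≤ 407 := by
  have e : Yf (tp (463 / 100)) = 463 / 100 := Yf_tp (by norm_num)
  rw [f3, ew_eq, e]
  have h1 : exp (tp (463 / 100)) ≤ 11019 / 10000 := by
    apply exp_le_of_Yf (by norm_num)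
    rw [e]; norm_num
  have h2 : exp (-(463 / 100)) ≤ 9758 / 10 ^ 6 := by
    apply exp_neg_ub (by norm_num)
    have e : (463 / 100 : ℝ) = (4 : ℕ) + 63 / 100 := by norm_num
    rw [e]
    exact le_trans (by norm_num) (exp_lb 4 (x := 63 / 100) (by norm_num))
  have h3 := exp_pos (tp (463 / 100))
  have h4 := exp_pos (-(463 / 100) : ℝ)
  have h5 : exp (tp (463 / 100)) * exp (-(463 / 100)) ≤ 11019 / 10000 * (9758 / 10 ^ 6) :=
    mul_le_mul h1 h2 h4.le (by norm_num)
  exact (mul_le_mul_of_nonneg_right h5 (by norm_num)).trans (by norm_num)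

theorem f3_TT : -153 ≤ f3 TT := by
  have h1 := YT_lo
  have h2 := YT_hi
  have h3 : ew TT ≤ 198 / 10 ^ 6 := by
    have h4 : ew TT ≤ exp (TT - 879 / 100) := by
      rw [ew]; apply exp_le_exp.2; linarith
    refine h4.trans ?_
    have e : TT - 879 / 100 = -((8 : ℕ) + 5325 / 10000) := by rw [TT]; norm_num
    rw [e]
    apply exp_neg_ub (by norm_num)
    exact le_trans (by norm_num) (exp_lb 8 (x := 5325 / 10000) (by norm_num))
  have h5 : -87000 ≤ -128 * Yf TT ^ 4 + 1440 * Yf TT ^ 3 - 4232 * Yf TT ^ 2 + 3270 * Yf TT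
      - 375 := by
    set Y := Yf TT
    have k1 : 0 ≤ Y - 879 / 100 := by linarith
    have k2 : 0 ≤ 881 / 100 - Y := by linarith
    have e1 : Y ^ 3 ≤ (881 / 100) ^ 3 := by gcongr
    have e2 : 0 ≤ 128 * Y - 1440 + 2880 := by linarith
    nlinarith [mul_nonneg k1 k2, mul_nonneg (mul_nonneg k1 k2) (sq_nonneg Y), mul_nonneg k1
      (pow_nonneg (by linarith : (0:ℝ) ≤ Y) 3), mul_nonneg k2
      (pow_nonneg (by linarith : (0:ℝ) ≤ Y) 3), mul_nonneg k2
      (pow_nonneg (by linarith : (0:ℝ) ≤ Y) 2), mul_nonneg k1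
      (pow_nonneg (by linarith : (0:ℝ) ≤ Y) 2)]
  rw [f3_eq]
  have h6 : ew TT * Yf TT ≤ 198 / 10 ^ 6 * (881 / 100) := by
    exact mul_le_mul h3 h2 (Yf_pos TT).le (by norm_num)
  have h7 : 0 ≤ ew TT * Yf TT := (mul_pos (ew_pos TT) (Yf_pos TT)).le
  nlinarith

theorem f4_mid {t : ℝ} (h1 : 23 / 5 ≤ Yf t) (h2 : Yf t ≤ 463 / 100) : |f4 t| ≤ 140 := by
  have e1 := c4c h1 h2
  have e2 := c4d h1 h2
  rw [f4_eq, abs_mul, abs_of_pos (mul_pos (ew_pos t) (Yf_pos t))]
  have h3 : |512 * Yf t ^ 5 - 8448 * Yf t ^ 4 + 41408 * Yf t ^ 3 - 68096 * Yf t ^ 2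
      + 30930 * Yf t - 1875| ≤ 2600 := by
    rw [abs_le]; constructor <;> linarith
  have h4 : ew t ≤ 11019 / 10000 * (10054 / 10 ^ 6) := by
    rw [ew_eq]
    have h5 : exp t ≤ 11019 / 10000 := by
      apply exp_le_of_Yf (by norm_num)
      refine h2.trans (by norm_num)
    have h6 : exp (-Yf t) ≤ 10054 / 10 ^ 6 := by
      have h5 : exp (-Yf t) ≤ exp (-(23 / 5)) := exp_le_exp.2 (by linarith)
      refine h5.trans ?_
      apply exp_neg_ub (by norm_num)
      have e : (23 / 5 : ℝ) = (4 : ℕ) + 6 / 10 := by norm_num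
      rw [e]
      exact le_trans (by norm_num) (exp_lb 4 (x := 6 / 10) (by norm_num))
    have := exp_pos t
    have := exp_pos (-Yf t)
    gcongr
  have h7 := ew_pos t
  have h8 := Yf_pos t
  have h9 : ew t * Yf t ≤ 11019 / 10000 * (10054 / 10 ^ 6) * (463 / 100) :=
    mul_le_mul h4 h2 h8.le (by norm_num)
  exact (mul_le_mul h9 h3 (abs_nonneg _) (by norm_num)).trans (by norm_num)

theorem V_TT : |f3 0| + ∫ t in (0 : ℝ)..TT, |f4 t| ≤ 968 := by
  set a := tp (23 / 5) with ha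
  set b := tp (463 / 100) with hb
  have ea : Yf a = 23 / 5 := Yf_tp (by norm_num)
  have eb : Yf b = 463 / 100 := Yf_tp (by norm_num)
  have h0a : 0 ≤ a := le_of_Yf_le (by rw [ea, Yf_zero]; linarith [pi_lt_d4])
  have hab : a ≤ b := le_of_Yf_le (by rw [ea, eb]; norm_num)
  have hbT : b ≤ TT := le_of_Yf_le (by rw [eb]; linarith [YT_lo])
  have hc : Continuous (fun t => |f4 t|) := f4_cont.abs
  have hi : ∀ x y : ℝ, IntervalIntegrable (fun t => |f4 t|) volume x y :=
    fun x y => hc.intervalIntegrable x y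
  have hi4 : ∀ x y : ℝ, IntervalIntegrable f4 volume x y :=
    fun x y => f4_cont.intervalIntegrable x y
  have hft : ∀ x y : ℝ, ∫ t in x..y, f4 t = f3 y - f3 x := fun x y =>
    intervalIntegral.integral_eq_sub_of_hasDerivAt (fun t _ => f3_deriv t) (hi4 x y)
  have hsplit : ∫ t in (0 : ℝ)..TT, |f4 t| = (∫ t in (0 : ℝ)..a, |f4 t|) + (∫ t in a..b, |f4 t|)
      + ∫ t in b..TT, |f4 t| := by
    rw [intervalIntegral.integral_add_adjacent_intervals (hi _ _) (hi _ _),
      intervalIntegral.integral_add_adjacent_intervals (hi _ _) (hi _ _)]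
  have h1 : ∫ t in (0 : ℝ)..a, |f4 t| = f3 a - f3 0 := by
    rw [← hft]
    apply intervalIntegral.integral_congr
    intro t ht
    rw [uIcc_of_le h0a] at ht
    exact abs_of_nonneg (f4_nonneg (Yf_ge ht.1) ((Yf_mono ht.2).trans (le_of_eq ea)))
  have h2 : ∫ t in b..TT, |f4 t| = -(f3 TT - f3 b) := by
    rw [← hft, ← intervalIntegral.integral_neg]
    apply intervalIntegral.integral_congr
    intro t ht
    rw [uIcc_of_le hbT] at ht
    exact abs_of_nonpos (f4_nonpos ((le_of_eq eb.symm).trans (Yf_mono ht.1))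
      ((Yf_mono ht.2).trans YT_hi))
  have h3 : ∫ t in a..b, |f4 t| ≤ 1 := by
    have h4 : ∫ t in a..b, |f4 t| ≤ ∫ _ in a..b, (140 : ℝ) := by
      apply intervalIntegral.integral_mono_on hab (hi _ _) (by simp)
      intro t ht
      exact f4_mid ((le_of_eq ea.symm).trans (Yf_mono ht.1)) ((Yf_mono ht.2).trans (le_of_eq eb))
    rw [intervalIntegral.integral_const, smul_eq_mul] at h4
    have h5 : b - a ≤ 7 / 1000 := by
      rw [ha, hb, tp, tp, ← sub_div, ← log_div (by positivity) (by positivity)]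
      have e : (463 / 100 / π) / (23 / 5 / π) = 463 / 460 := by
        have := pi_pos
        field_simp
        norm_num
      rw [e]
      have := log_le_sub_one_of_pos (x := (463 / 460 : ℝ)) (by norm_num)
      have h6 : (463 / 460 : ℝ) - 1 ≤ 4 * (7 / 1000) := by norm_num
      linarith
    nlinarith
  have h6 : 0 ≤ f3 0 := f3_nonneg (Yf_ge le_rfl) (by rw [Yf_zero]; linarith [pi_lt_d4])
  rw [abs_of_nonneg h6, hsplit, h1, h2]
  have := f3_a
  have := f3_b
  have := f3_TT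
  linarith

theorem V_le {R : ℝ} (h0 : 0 ≤ R) (h1 : R ≤ TT) :
    |f3 0| + ∫ t in (0 : ℝ)..R, |f4 t| ≤ 968 := by
  have h := V_TT
  have h2 : ∫ t in (0 : ℝ)..R, |f4 t| ≤ ∫ t in (0 : ℝ)..TT, |f4 t| := by
    apply intervalIntegral.integral_mono_interval le_rfl h0 h1
    · exact Filter.Eventually.of_forall fun t => abs_nonneg _
    · exact f4_cont.abs.intervalIntegrable _ _
  linarith

theorem f1_zero : |f1 0| ≤ 4 / 100 := by
  have h1 := pi_gt_d6
  have h2 := pi_lt_d6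
  rw [f1, ew, Yf_zero, zero_sub]
  have e : -8 * π ^ 3 + 30 * π ^ 2 - 15 * π = π * (-8 * π ^ 2 + 30 * π - 15) := by ring
  have h3 : 0 ≤ -8 * π ^ 2 + 30 * π - 15 := by nlinarith
  have h4 : -8 * π ^ 2 + 30 * π - 15 ≤ 2911 / 10000 := by nlinarith
  have h5 : exp (-π) ≤ 433 / 10000 := by
    have h6 : exp (-π) ≤ exp (-(3.14159 : ℝ)) := exp_le_exp.2 (by linarith)
    refine h6.trans ?_
    apply exp_neg_ub (by norm_num)
    have e : (3.14159 : ℝ) = (3 : ℕ) + 0.14159 := by norm_num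
    rw [e]
    exact le_trans (by norm_num) (exp_lb 3 (x := 0.14159) (by norm_num))
  rw [e, abs_of_nonneg (by have := exp_pos (-π); have := pi_pos; positivity)]
  have h6 := exp_pos (-π)
  have h7 : π ≤ 3.1416 := by linarith
  have h8 : π * (-8 * π ^ 2 + 30 * π - 15) ≤ 3.1416 * (2911 / 10000) :=
    mul_le_mul h7 h4 h3 (by norm_num)
  exact (mul_le_mul h5 h8 (mul_nonneg pi_pos.le h3) (by norm_num)).trans (by norm_num)

end Pool.Agent.Helper85.XiSign
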